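import Pool.Agent.W_MP_b6e843_mp.Defs

/-! # Spectral measures of a bounded self-adjoint operator -/

namespace Pool.Agent.W_MP_b6e843_mp

open MeasureTheory Polynomial
open scoped InnerProductSpace CompactlySupported ENNReal

section Moments

variable {μ ν : Measure ℝ} {R : ℝ}

theorem ae_mem_of_compl (hμ : μ (Set.Icc (-R) R)ᶜ = 0) : ∀ᵐ x ∂μ, x ∈ Set.Icc (-R) R := by
  rw [ae_iff]
  exact hμ

theorem integrable_of_continuous [IsFiniteMeasure μ] (hμ : μ (Set.Icc (-R) R)ᶜ = 0)
    {f : ℝ → ℝ} (hf : Continuous f) : Integrable f μ := by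
  obtain ⟨C, hC⟩ := (isCompact_Icc (a := -R) (b := R)).exists_bound_of_continuousOn
    hf.continuousOn
  refine Integrable.mono' (integrable_const C) hf.aestronglyMeasurable ?_
  filter_upwards [ae_mem_of_compl hμ] with x hx using hC x hx

/-- Two finite measures carried by the same compact interval and with the same moments agree. -/
theorem measure_eq_of_moments [IsFiniteMeasure μ] [IsFiniteMeasure ν]
    (hμ : μ (Set.Icc (-R) R)ᶜ = 0) (hν : ν (Set.Icc (-R) R)ᶜ = 0)
    (h : ∀ k : ℕ, ∫ x, x ^ k ∂μ = ∫ x, x ^ k ∂ν) : μ = ν := by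
  have hpoly : ∀ p : ℝ[X], ∫ x, p.eval x ∂μ = ∫ x, p.eval x ∂ν := by
    intro p
    induction p using Polynomial.induction_on' with
    | add p q hp hq =>
      simp only [Polynomial.eval_add]
      rw [integral_add (integrable_of_continuous hμ p.continuous)
        (integrable_of_continuous hμ q.continuous),
        integral_add (integrable_of_continuous hν p.continuous)
        (integrable_of_continuous hν q.continuous), hp, hq]
    | monomial n a =>
      simp only [Polynomial.eval_monomial]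
      rw [integral_const_mul, integral_const_mul, h]
  refine ext_of_forall_integral_eq_of_IsFiniteMeasure fun f => ?_
  have key : ∀ ε > 0, |∫ x, f x ∂μ - ∫ x, f x ∂ν| ≤ ε * (μ.real Set.univ + ν.real Set.univ) := by
    intro ε hε
    obtain ⟨p, hp⟩ := exists_polynomial_near_of_continuousOn (-R) R f f.continuous.continuousOn
      ε hε
    have h1 : |∫ x, f x ∂μ - ∫ x, p.eval x ∂μ| ≤ ε * μ.real Set.univ := by
      rw [← integral_sub (integrable_of_continuous hμ f.continuous)
        (integrable_of_continuous hμ p.continuous)]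
      have := norm_integral_le_of_norm_le_const (μ := μ) (C := ε)
        (f := fun x => f x - p.eval x) (by
          filter_upwards [ae_mem_of_compl hμ] with x hx
          have := hp x hx
          rw [Real.norm_eq_abs, abs_sub_comm]
          exact this.le)
      rwa [Real.norm_eq_abs] at this
    have h2 : |∫ x, f x ∂ν - ∫ x, p.eval x ∂ν| ≤ ε * ν.real Set.univ := by
      rw [← integral_sub (integrable_of_continuous hν f.continuous)
        (integrable_of_continuous hν p.continuous)]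
      have := norm_integral_le_of_norm_le_const (μ := ν) (C := ε)
        (f := fun x => f x - p.eval x) (by
          filter_upwards [ae_mem_of_compl hν] with x hx
          have := hp x hx
          rw [Real.norm_eq_abs, abs_sub_comm]
          exact this.le)
      rwa [Real.norm_eq_abs] at this
    rw [hpoly p] at h1
    rw [abs_sub_comm] at h2
    calc |∫ x, f x ∂μ - ∫ x, f x ∂ν|
        ≤ |∫ x, f x ∂μ - ∫ x, p.eval x ∂ν| + |∫ x, p.eval x ∂ν - ∫ x, f x ∂ν| :=
          abs_sub_le _ _ _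
      _ ≤ ε * μ.real Set.univ + ε * ν.real Set.univ := add_le_add h1 h2
      _ = ε * (μ.real Set.univ + ν.real Set.univ) := by ring
  by_contra hne
  have hpos : 0 < |∫ x, f x ∂μ - ∫ x, f x ∂ν| := abs_pos.mpr (sub_ne_zero.mpr hne)
  set M := μ.real Set.univ + ν.real Set.univ with hM
  have hM0 : 0 ≤ M := by positivity
  have := key (|∫ x, f x ∂μ - ∫ x, f x ∂ν| / (2 * (M + 1))) (by positivity)
  have h3 : |∫ x, f x ∂μ - ∫ x, f x ∂ν| / (2 * (M + 1)) * M
      < |∫ x, f x ∂μ - ∫ x, f x ∂ν| := by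
    rw [div_mul_eq_mul_div, div_lt_iff₀ (by positivity)]
    nlinarith
  linarith

end Moments

variable {𝓗 : Type*} [NormedAddCommGroup 𝓗] [InnerProductSpace ℂ 𝓗] [CompleteSpace 𝓗]
  {H : 𝓗 →L[ℂ] 𝓗} {φ χ ψ : 𝓗} {μ ν : Measure ℝ}

/-- existence -/
theorem exists_isSpectralMeasure (hH : IsSelfAdjoint H) (ψ : 𝓗) :
    ∃ μ, IsSpectralMeasure H ψ μ := by
  have hinner : ∀ T : 𝓗 →L[ℂ] 𝓗, IsSelfAdjoint T →
      (((⟪ψ, T ψ⟫_ℂ).re : ℝ) : ℂ) = ⟪ψ, T ψ⟫_ℂ := by
    intro T hT
    have h1 := hT.isSymmetric ψ ψ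
    have h2 : (starRingEnd ℂ) ⟪ψ, T ψ⟫_ℂ = ⟪ψ, T ψ⟫_ℂ := by
      rw [inner_conj_symm]
      exact h1
    exact Complex.conj_eq_iff_re.mp h2
  let Λ : C_c(spectrum ℝ H, ℝ) →ₚ[ℝ] ℝ :=
    { toFun := fun f => (⟪ψ, cfcHom hH (f : C(spectrum ℝ H, ℝ)) ψ⟫_ℂ).re
      map_add' := by
        intro f g
        have : ((f + g : C_c(spectrum ℝ H, ℝ)) : C(spectrum ℝ H, ℝ)) =
          (f : C(spectrum ℝ H, ℝ)) + (g : C(spectrum ℝ H, ℝ)) := rfl
        rw [this, map_add, add_apply, inner_add_right, Complex.add_re]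
      map_smul' := by
        intro c f
        have : ((c • f : C_c(spectrum ℝ H, ℝ)) : C(spectrum ℝ H, ℝ)) =
          c • (f : C(spectrum ℝ H, ℝ)) := rfl
        rw [this, map_smul, smul_apply]
        simp [inner_smul_right_eq_smul]
      monotone' := by
        intro f g hfg
        let d : C(spectrum ℝ H, ℝ) := ⟨fun x => √(g x - f x), by fun_prop⟩
        have hd : (g : C(spectrum ℝ H, ℝ)) = (f : C(spectrum ℝ H, ℝ)) + d * d := by
          ext x
          have hx : f x ≤ g x := hfg x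
          have := Real.mul_self_sqrt (sub_nonneg.mpr hx)
          show g x = f x + √(g x - f x) * √(g x - f x)
          linarith
        have hsa : IsSelfAdjoint (cfcHom hH d) := by
          have : IsSelfAdjoint d := by
            ext x
            simp
          exact this.map _
        show (⟪ψ, cfcHom hH (f : C(spectrum ℝ H, ℝ)) ψ⟫_ℂ).re ≤
          (⟪ψ, cfcHom hH (g : C(spectrum ℝ H, ℝ)) ψ⟫_ℂ).re
        rw [hd, map_add, map_mul, add_apply, inner_add_right,
          Complex.add_re]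
        have h1 : ⟪ψ, (cfcHom hH d * cfcHom hH d) ψ⟫_ℂ =
            ⟪cfcHom hH d ψ, cfcHom hH d ψ⟫_ℂ := (hsa.isSymmetric ψ (cfcHom hH d ψ)).symm
        have h2 : 0 ≤ (⟪cfcHom hH d ψ, cfcHom hH d ψ⟫_ℂ).re := inner_self_nonneg (𝕜 := ℂ)
        rw [h1]
        linarith }
  let μ' := RealRMK.rieszMeasure Λ
  have hfin : IsFiniteMeasure μ' := inferInstance
  refine ⟨μ'.map Subtype.val, inferInstance, ?_, ?_⟩
  · rw [Measure.map_apply (by fun_prop) measurableSet_Icc.compl]
    have : (Subtype.val ⁻¹' (Set.Icc (-‖H‖) ‖H‖)ᶜ : Set (spectrum ℝ H)) = ∅ := by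
      rw [Set.eq_empty_iff_forall_notMem]
      rintro ⟨x, hx⟩ hx'
      apply hx'
      have h1 := spectrum.norm_le_norm_mul_of_mem hx
      have h2 : ‖(1 : 𝓗 →L[ℂ] 𝓗)‖ ≤ 1 := ContinuousLinearMap.norm_id_le
      have h3 : ‖x‖ ≤ ‖H‖ := h1.trans (mul_le_of_le_one_right (norm_nonneg _) h2)
      rw [Real.norm_eq_abs, abs_le] at h3
      exact h3
    rw [this, measure_empty]
  · intro k
    rw [integral_map (by fun_prop) (by fun_prop)]
    let f : C(spectrum ℝ H, ℝ) := (ContinuousMap.restrict (spectrum ℝ H) (ContinuousMap.id ℝ)) ^ k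
    let f' : C_c(spectrum ℝ H, ℝ) := CompactlySupportedContinuousMap.continuousMapEquiv f
    have h1 := RealRMK.integral_rieszMeasure Λ f'
    have h2 : ∫ x, f' x ∂(RealRMK.rieszMeasure Λ) = ∫ x : spectrum ℝ H, (x : ℝ) ^ k ∂μ' := by
      rfl
    have h3 : Λ f' = (⟪ψ, (H ^ k) ψ⟫_ℂ).re := by
      have h4 : cfcHom hH f = H ^ k := by
        rw [map_pow, cfcHom_id]
      show (⟪ψ, cfcHom hH f ψ⟫_ℂ).re = _
      rw [h4]
    rw [← h2, h1, h3, hinner _ (hH.pow k)]

omit [CompleteSpace 𝓗] in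
theorem IsSpectralMeasure.unique (hμ : IsSpectralMeasure H ψ μ) (hν : IsSpectralMeasure H ψ ν) :
    μ = ν := by
  have := hμ.1
  have := hν.1
  refine measure_eq_of_moments hμ.2.1 hν.2.1 fun k => ?_
  have := (hμ.2.2 k).trans (hν.2.2 k).symm
  exact_mod_cast this

omit [CompleteSpace 𝓗] in
theorem IsSpectralMeasure.univ (hμ : IsSpectralMeasure H ψ μ) :
    μ Set.univ = ENNReal.ofReal (‖ψ‖ ^ 2) := by
  have := hμ.1
  have h := hμ.2.2 0
  simp only [pow_zero, integral_const, smul_eq_mul, mul_one,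
    one_apply_eq_self] at h
  rw [inner_self_eq_norm_sq_to_K] at h
  have h' : μ.real Set.univ = ‖ψ‖ ^ 2 := by
    apply Complex.ofReal_injective
    rw [h]
    push_cast
    rfl
  rw [← h', Measure.real, ENNReal.ofReal_toReal (measure_ne_top _ _)]

omit [CompleteSpace 𝓗] in
theorem IsSpectralMeasure.integral_poly (hμ : IsSpectralMeasure H ψ μ) (r : Polynomial ℝ) :
    ((∫ x, r.eval x ∂μ : ℝ) : ℂ) = ⟪ψ, (Polynomial.aeval H r) ψ⟫_ℂ := by
  have := hμ.1
  induction r using Polynomial.induction_on' with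
  | add p q hp hq =>
    simp only [Polynomial.eval_add]
    rw [integral_add (integrable_of_continuous hμ.2.1 p.continuous)
      (integrable_of_continuous hμ.2.1 q.continuous), map_add, add_apply, inner_add_right,
      ← hp, ← hq]
    push_cast
    rfl
  | monomial n a =>
    simp only [Polynomial.eval_monomial]
    rw [integral_const_mul, Polynomial.aeval_monomial, Complex.ofReal_mul, hμ.2.2 n]
    have : ((algebraMap ℝ (𝓗 →L[ℂ] 𝓗)) a * H ^ n) ψ = (a : ℂ) • ((H ^ n) ψ) := by
      rw [Algebra.algebraMap_eq_smul_one]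
      simp
    rw [this, inner_smul_right]

theorem isSelfAdjoint_aeval (hH : IsSelfAdjoint H) (p : Polynomial ℝ) :
    IsSelfAdjoint (Polynomial.aeval H p) := by
  induction p using Polynomial.induction_on' with
  | add p q hp hq => rw [map_add]; exact hp.add hq
  | monomial n a =>
    rw [Polynomial.aeval_monomial, Algebra.algebraMap_eq_smul_one, smul_mul_assoc, one_mul]
    exact IsSelfAdjoint.smul (IsSelfAdjoint.all a) (hH.pow n)

/-- The measure `p² μ_φ` is the spectral measure of `p(H) φ`. -/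
theorem IsSpectralMeasure.withDensity_sq (hH : IsSelfAdjoint H)
    (hμ : IsSpectralMeasure H φ μ) (p : Polynomial ℝ) :
    IsSpectralMeasure H (Polynomial.aeval H p φ)
      (μ.withDensity (fun x => ENNReal.ofReal ((p.eval x) ^ 2))) := by
  have := hμ.1
  have hint : ∀ {f : ℝ → ℝ}, Continuous f → Integrable f μ :=
    fun hf => integrable_of_continuous hμ.2.1 hf
  refine ⟨?_, ?_, ?_⟩
  · refine isFiniteMeasure_withDensity_ofReal ?_
    exact (hint (f := fun x => (p.eval x) ^ 2) (by fun_prop)).2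
  · exact withDensity_absolutelyContinuous _ _ hμ.2.1
  · intro k
    rw [integral_withDensity_eq_integral_toReal_smul (by fun_prop) (by
      filter_upwards with x using ENNReal.ofReal_lt_top)]
    have h1 : ∀ x : ℝ, (ENNReal.ofReal ((p.eval x) ^ 2)).toReal • x ^ k =
        (p ^ 2 * Polynomial.X ^ k).eval x := by
      intro x
      rw [ENNReal.toReal_ofReal (by positivity)]
      simp
    simp only [h1]
    rw [hμ.integral_poly]
    have h2 : Polynomial.aeval H (p ^ 2 * Polynomial.X ^ k) =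
        Polynomial.aeval H p * (H ^ k * Polynomial.aeval H p) := by
      rw [map_mul, map_pow, map_pow, Polynomial.aeval_X]
      have hc : Commute (Polynomial.aeval H p) (H ^ k) := by
        have : Commute (Polynomial.aeval H p) (Polynomial.aeval H (Polynomial.X ^ k : ℝ[X])) := by
          rw [Commute, SemiconjBy, ← map_mul, ← map_mul, mul_comm]
        simpa using this
      rw [pow_two, mul_assoc, hc.eq]
    rw [h2]
    exact ((isSelfAdjoint_aeval hH p).isSymmetric φ ((H ^ k * Polynomial.aeval H p) φ)).symm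

theorem IsSpectralMeasure.withDensity_poly (hH : IsSelfAdjoint H)
    (hμ : IsSpectralMeasure H φ μ) (hν : IsSpectralMeasure H χ ν) (p q : Polynomial ℝ)
    (h : Polynomial.aeval H p φ = Polynomial.aeval H q χ) :
    μ.withDensity (fun x => ENNReal.ofReal ((p.eval x) ^ 2)) =
      ν.withDensity (fun x => ENNReal.ofReal ((q.eval x) ^ 2)) := by
  have h1 := hμ.withDensity_sq hH p
  have h2 := hν.withDensity_sq hH q
  rw [h] at h1
  exact h1.unique h2

omit [CompleteSpace 𝓗] in
theorem IsSpectralMeasure.smul (hμ : IsSpectralMeasure H ψ μ) (c : ℂ) :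
    IsSpectralMeasure H (c • ψ) (ENNReal.ofReal (‖c‖ ^ 2) • μ) := by
  have := hμ.1
  refine ⟨?_, ?_, ?_⟩
  · exact Measure.smul_finite μ ENNReal.ofReal_ne_top
  · rw [Measure.smul_apply, hμ.2.1, smul_zero]
  · intro k
    rw [integral_smul_measure, ENNReal.toReal_ofReal (by positivity), smul_eq_mul,
      Complex.ofReal_mul, hμ.2.2 k, map_smul, inner_smul_left, inner_smul_right, ← mul_assoc,
      Complex.conj_mul']
    push_cast
    rfl

omit [CompleteSpace 𝓗] in
theorem parallelogram {μ₁ μ₂ ν₁ ν₂ : Measure ℝ} (h1 : IsSpectralMeasure H φ μ₁)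
    (h2 : IsSpectralMeasure H χ μ₂) (h3 : IsSpectralMeasure H (φ + χ) ν₁)
    (h4 : IsSpectralMeasure H (φ - χ) ν₂) : ν₁ + ν₂ = (μ₁ + μ₁) + (μ₂ + μ₂) := by
  have i1 := h1.1
  have i2 := h2.1
  have i3 := h3.1
  have i4 := h4.1
  refine measure_eq_of_moments (R := ‖H‖) ?_ ?_ fun k => ?_
  · rw [Measure.add_apply, h3.2.1, h4.2.1, add_zero]
  · simp only [Measure.add_apply, h1.2.1, h2.2.1, add_zero]
  · have c : Continuous fun x : ℝ => x ^ k := by fun_prop
    have j1 := integrable_of_continuous h1.2.1 c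
    have j2 := integrable_of_continuous h2.2.1 c
    have j3 := integrable_of_continuous h3.2.1 c
    have j4 := integrable_of_continuous h4.2.1 c
    rw [integral_add_measure j3 j4, integral_add_measure (j1.add_measure j1)
      (j2.add_measure j2), integral_add_measure j1 j1, integral_add_measure j2 j2]
    apply Complex.ofReal_injective
    rw [Complex.ofReal_add, Complex.ofReal_add, Complex.ofReal_add, Complex.ofReal_add,
      h1.2.2 k, h2.2.2 k, h3.2.2 k, h4.2.2 k]
    simp only [map_add, map_sub, inner_add_left, inner_add_right, inner_sub_left,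
      inner_sub_right]
    ring

/-- every spectral measure of `H` at `ψ` is singular -/
def Sing (H : 𝓗 →L[ℂ] 𝓗) (ψ : 𝓗) : Prop :=
  ∀ μ : Measure ℝ, IsSpectralMeasure H ψ μ → μ ⟂ₘ (volume : Measure ℝ)

theorem IsSpectralMeasure.le_of_add (hH : IsSelfAdjoint H) {μ₁ μ₂ ν₁ : Measure ℝ}
    (h1 : IsSpectralMeasure H φ μ₁) (h2 : IsSpectralMeasure H χ μ₂)
    (h3 : IsSpectralMeasure H (φ + χ) ν₁) : ν₁ ≤ (μ₁ + μ₁) + (μ₂ + μ₂) := by
  obtain ⟨ν₂, h4⟩ := exists_isSpectralMeasure hH (φ - χ)
  rw [← parallelogram h1 h2 h3 h4]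
  exact Measure.le_add_right le_rfl

theorem Sing.add (hH : IsSelfAdjoint H) (hφ : Sing H φ) (hχ : Sing H χ) : Sing H (φ + χ) := by
  intro μ hμ
  obtain ⟨μ₁, h1⟩ := exists_isSpectralMeasure hH φ
  obtain ⟨μ₂, h2⟩ := exists_isSpectralMeasure hH χ
  have s1 := hφ _ h1
  have s2 := hχ _ h2
  exact Measure.MutuallySingular.mono ((s1.add_left s1).add_left (s2.add_left s2))
    (IsSpectralMeasure.le_of_add hH h1 h2 hμ) le_rfl

theorem Sing.smul (hH : IsSelfAdjoint H) (hψ : Sing H ψ) (c : ℂ) : Sing H (c • ψ) := by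
  intro μ hμ
  obtain ⟨μ₁, h1⟩ := exists_isSpectralMeasure hH ψ
  rw [hμ.unique (h1.smul c)]
  exact (hψ _ h1).smul _

omit [CompleteSpace 𝓗] in
theorem Sing.zero : Sing H 0 := by
  intro μ hμ
  have h := hμ.univ
  rw [norm_zero, zero_pow two_ne_zero, ENNReal.ofReal_zero, Measure.measure_univ_eq_zero] at h
  rw [h]
  exact Measure.MutuallySingular.zero_left

theorem Sing.of_tendsto (hH : IsSelfAdjoint H) {u : ℕ → 𝓗} (hu : ∀ n, Sing H (u n))
    (hlim : Filter.Tendsto u Filter.atTop (nhds ψ)) : Sing H ψ := by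
  intro μ hμ
  choose μn hμn using fun n => exists_isSpectralMeasure hH (u n)
  choose νn hνn using fun n => exists_isSpectralMeasure hH (ψ - u n)
  have hs := fun n => hu n _ (hμn n)
  let A : ℕ → Set ℝ := fun n => (hs n).nullSet
  have hle : ∀ n, μ (⋂ m, A m) ≤ 2 * ENNReal.ofReal (‖ψ - u n‖ ^ 2) := by
    intro n
    have h0 : u n + (ψ - u n) = ψ := by abel
    have h1 := IsSpectralMeasure.le_of_add hH (hμn n) (hνn n) (by rw [h0]; exact hμ)
    calc μ (⋂ m, A m) ≤ μ (A n) := measure_mono (Set.iInter_subset _ n)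
      _ ≤ ((μn n + μn n) + (νn n + νn n)) (A n) := h1 _
      _ = νn n (A n) + νn n (A n) := by
        simp only [Measure.add_apply]
        have h2 : μn n (A n) = 0 := (hs n).measure_nullSet
        rw [h2]
        simp
      _ = 2 * νn n (A n) := (two_mul _).symm
      _ ≤ 2 * νn n Set.univ := by gcongr; exact Set.subset_univ _
      _ = 2 * ENNReal.ofReal (‖ψ - u n‖ ^ 2) := by rw [(hνn n).univ]
  have hlim2 : Filter.Tendsto (fun n => 2 * ENNReal.ofReal (‖ψ - u n‖ ^ 2)) Filter.atTop
      (nhds 0) := by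
    have h1 : Filter.Tendsto (fun n => ‖ψ - u n‖ ^ 2) Filter.atTop (nhds (‖ψ - ψ‖ ^ 2)) :=
      ((tendsto_const_nhds.sub hlim).norm.pow 2)
    rw [sub_self, norm_zero, zero_pow two_ne_zero] at h1
    have h2 := ENNReal.tendsto_ofReal h1
    rw [ENNReal.ofReal_zero] at h2
    have h3 := ENNReal.Tendsto.const_mul (a := 2) h2 (Or.inr (by simp))
    rwa [mul_zero] at h3
  refine ⟨⋂ m, A m, MeasurableSet.iInter fun m => (hs m).measurableSet_nullSet, ?_, ?_⟩
  · exact le_antisymm (ge_of_tendsto' hlim2 hle) zero_le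
  · rw [Set.compl_iInter]
    exact measure_iUnion_null fun m => (hs m).measure_compl_nullSet

theorem hasSingularSpectrum_of_total (hH : IsSelfAdjoint H) (S : Set 𝓗)
    (hS : (Submodule.span ℂ S).topologicalClosure = ⊤)
    (hsing : ∀ φ ∈ S, ∃ μ, IsSpectralMeasure H φ μ ∧ μ ⟂ₘ (volume : Measure ℝ)) :
    HasSingularSpectrum H := by
  let M : Submodule ℂ 𝓗 :=
    { carrier := {ψ | Sing H ψ}
      add_mem' := fun ha hb => Sing.add hH ha hb
      zero_mem' := Sing.zero
      smul_mem' := fun c _ hx => Sing.smul hH hx c }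
  have hle : Submodule.span ℂ S ≤ M := by
    rw [Submodule.span_le]
    intro φ hφ μ hμ
    obtain ⟨ν, hν, hs⟩ := hsing φ hφ
    rw [hμ.unique hν]
    exact hs
  intro ψ
  refine ⟨exists_isSpectralMeasure hH ψ, ?_⟩
  have hψ : ψ ∈ (Submodule.span ℂ S).topologicalClosure := by rw [hS]; trivial
  rw [← SetLike.mem_coe, Submodule.topologicalClosure_coe, mem_closure_iff_seq_limit] at hψ
  obtain ⟨u, hu, hlim⟩ := hψ
  exact Sing.of_tendsto hH (fun n => hle (hu n)) hlim

end Pool.Agent.W_MP_b6e843_mp
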