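import Pool.Agent.W_MP_b6e843_mp.Poly
import Pool.Agent.W_MP_b6e843_mp.SpectralMeasure

/-! # The antitree operator -/

namespace Pool.Agent.W_MP_b6e843_mp

open MeasureTheory Polynomial
open scoped InnerProductSpace

variable {s : ℕ → ℕ} {lam : ℝ} {v : Vertex s → ℝ} {H : L2 s →L[ℂ] L2 s}

theorem hasSum_shell (n : ℕ) (f : Vertex s → ℂ) :
    HasSum (fun y : Vertex s => if y.1 = n then f y else 0) (∑ i : Fin (s n), f ⟨n, i⟩) := by
  have h := hasSum_sum_of_ne_finset_zero (L := SummationFilter.unconditional _)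
    (f := fun y : Vertex s => if y.1 = n then f y else 0)
    (s := Finset.univ.map (Function.Embedding.sigmaMk (β := fun k => Fin (s k)) n))
    (by
      rintro ⟨m, j⟩ hy
      rw [if_neg]
      rintro rfl
      exact hy (by simp))
  rw [Finset.sum_map] at h
  simpa using h

theorem inner_shellVec (n : ℕ) (ψ : L2 s) :
    ⟪shellVec s n, ψ⟫_ℂ = ((1 / √(s n : ℝ) : ℝ) : ℂ) * ∑ i : Fin (s n), ψ ⟨n, i⟩ := by
  unfold shellVec
  rw [inner_smul_left, Complex.conj_ofReal, sum_inner]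
  congr 1
  refine Finset.sum_congr rfl fun i _ => ?_
  rw [lp.inner_single_left]
  simp

theorem shellVec_apply (n : ℕ) (y : Vertex s) :
    shellVec s n y = if y.1 = n then ((1 / √(s n : ℝ) : ℝ) : ℂ) else 0 := by
  have h1 : shellVec s n y = (starRingEnd ℂ) ⟪shellVec s n, lp.single 2 y (1 : ℂ)⟫_ℂ := by
    rw [inner_conj_symm, lp.inner_single_left]
    simp
  rw [h1, inner_shellVec, map_mul, Complex.conj_ofReal]
  split_ifs with h
  · obtain ⟨m, j⟩ := y
    simp only at h
    subst h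
    have : ∑ i : Fin (s m), ((lp.single 2 (⟨m, j⟩ : Vertex s) (1 : ℂ) : L2 s) ⟨m, i⟩ : ℂ) = 1 := by
      rw [Finset.sum_eq_single j]
      · exact lp.single_apply_self 2 _ _
      · intro b _ hb
        exact lp.single_apply_ne 2 _ _ (by
          intro h
          apply hb
          simpa using h)
      · simp
    rw [this]
    simp
  · have : ∑ i : Fin (s n), ((lp.single 2 y (1 : ℂ) : L2 s) ⟨n, i⟩ : ℂ) = 0 := by
      refine Finset.sum_eq_zero fun i _ => ?_
      exact lp.single_apply_ne 2 _ _ (by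
        rintro rfl
        exact h rfl)
    rw [this]
    simp

theorem orthonormal_shellVec (hs : ∀ n, 0 < s n) : Orthonormal ℂ (shellVec s) := by
  rw [orthonormal_iff_ite]
  intro n m
  rw [inner_shellVec]
  simp only [shellVec_apply]
  split_ifs with h
  · subst h
    rw [Finset.sum_const, Finset.card_univ, Fintype.card_fin, nsmul_eq_mul]
    have h0 : (0 : ℝ) < s n := by exact_mod_cast hs n
    have h1 : (1 / √(s n : ℝ)) * ((s n : ℝ) * (1 / √(s n : ℝ))) = 1 := by
      have h2 : √(s n : ℝ) * √(s n : ℝ) = s n := Real.mul_self_sqrt h0.le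
      have h3 : √(s n : ℝ) ≠ 0 := (Real.sqrt_pos.mpr h0).ne'
      field_simp
      nlinarith
    exact_mod_cast congrArg (fun t : ℝ => (t : ℂ)) h1
  · simp

theorem norm_shellVec (hs : ∀ n, 0 < s n) (n : ℕ) : ‖shellVec s n‖ = 1 :=
  (orthonormal_shellVec hs).1 n

theorem coe_weight (x y : Vertex s) :
    (weight s x y : ℂ) =
      (if y.1 = x.1 + 1 then ((1 / √(s x.1 : ℝ) : ℝ) : ℂ) * ((1 / √(s (x.1 + 1) : ℝ) : ℝ) : ℂ)
        else 0) +
      (if x.1 = 0 then 0 else if y.1 = x.1 - 1 then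
        ((1 / √(s x.1 : ℝ) : ℝ) : ℂ) * ((1 / √(s (x.1 - 1) : ℝ) : ℝ) : ℂ) else 0) := by
  obtain ⟨n, i⟩ := x
  obtain ⟨m, j⟩ := y
  simp only [weight]
  have key : ∀ a b : ℕ, (1 / √((a : ℝ) * (b : ℝ)) : ℝ) = (1 / √(a : ℝ)) * (1 / √(b : ℝ)) := by
    intro a b
    rw [Real.sqrt_mul (by positivity), one_div_mul_one_div]
  by_cases h1 : m = n + 1
  · subst h1
    rw [if_pos (Or.inl rfl), if_pos rfl, key]
    have : ¬ (n + 1 = n - 1) := by omega
    simp [this]
  · by_cases h2 : n = m + 1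
    · subst h2
      rw [if_pos (Or.inr rfl), if_neg h1, key]
      simp
    · rw [if_neg (by tauto), if_neg h1]
      have : n = 0 ∨ ¬ (m = n - 1) := by omega
      rcases this with h | h
      · simp [h]
      · simp [h]

theorem tsum_weight (x : Vertex s) (ψ : Vertex s → ℂ) :
    ∑' y : Vertex s, (weight s x y : ℂ) * ψ y =
      ((1 / √(s x.1 : ℝ) : ℝ) : ℂ) *
        (((1 / √(s (x.1 + 1) : ℝ) : ℝ) : ℂ) * ∑ i : Fin (s (x.1 + 1)), ψ ⟨x.1 + 1, i⟩ +
        if x.1 = 0 then 0 else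
          ((1 / √(s (x.1 - 1) : ℝ) : ℝ) : ℂ) * ∑ i : Fin (s (x.1 - 1)), ψ ⟨x.1 - 1, i⟩) := by
  have h1 := hasSum_shell (s := s) (x.1 + 1)
    (fun y => ((1 / √(s x.1 : ℝ) : ℝ) : ℂ) * ((1 / √(s (x.1 + 1) : ℝ) : ℝ) : ℂ) * ψ y)
  have h2 := hasSum_shell (s := s) (x.1 - 1)
    (fun y => if x.1 = 0 then 0 else
      ((1 / √(s x.1 : ℝ) : ℝ) : ℂ) * ((1 / √(s (x.1 - 1) : ℝ) : ℝ) : ℂ) * ψ y)
  have h3 := (h1.add h2).tsum_eq
  have h4 : (fun y : Vertex s => (weight s x y : ℂ) * ψ y) = fun y =>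
      (if y.1 = x.1 + 1 then
        ((1 / √(s x.1 : ℝ) : ℝ) : ℂ) * ((1 / √(s (x.1 + 1) : ℝ) : ℝ) : ℂ) * ψ y else 0) +
      (if y.1 = x.1 - 1 then (if x.1 = 0 then 0 else
      ((1 / √(s x.1 : ℝ) : ℝ) : ℂ) * ((1 / √(s (x.1 - 1) : ℝ) : ℝ) : ℂ) * ψ y) else 0) := by
    funext y
    rw [coe_weight, add_mul]
    congr 1
    · split_ifs <;> simp
    · split_ifs <;> simp
  rw [h4, h3, ← Finset.mul_sum]
  by_cases h : x.1 = 0
  · simp only [h, if_true, Finset.sum_const_zero, add_zero]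
    ring
  · simp only [h, if_false, ← Finset.mul_sum]
    ring

/-- the basis vector at a vertex -/
noncomputable def bv (x : Vertex s) : L2 s := lp.single 2 x (1 : ℂ)

theorem inner_bv (x : Vertex s) (ψ : L2 s) : ⟪bv x, ψ⟫_ℂ = ψ x := by
  unfold bv
  rw [lp.inner_single_left]
  simp

theorem bv_apply (x y : Vertex s) : (bv x : L2 s) y = if y = x then 1 else 0 := by
  unfold bv
  split_ifs with h
  · subst h
    exact lp.single_apply_self 2 _ _
  · exact lp.single_apply_ne 2 _ _ h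

theorem IsAnderson.apply_bv (hH : IsAnderson s lam v H) (x : Vertex s) :
    H (bv x) - ((lam * v x : ℝ) : ℂ) • bv x
      = ((1 / √(s x.1 : ℝ) : ℝ) : ℂ) •
        (shellVec s (x.1 + 1) + if x.1 = 0 then 0 else shellVec s (x.1 - 1)) := by
  apply lp.ext
  funext y
  have h1 : ((H (bv x) - ((lam * v x : ℝ) : ℂ) • bv x : L2 s) : ∀ _, ℂ) y =
      H (bv x) y - ((lam * v x : ℝ) : ℂ) * (bv x : L2 s) y := rfl
  have h2 : ((((1 / √(s x.1 : ℝ) : ℝ) : ℂ) •
        (shellVec s (x.1 + 1) + if x.1 = 0 then 0 else shellVec s (x.1 - 1)) : L2 s) :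
        ∀ _, ℂ) y = ((1 / √(s x.1 : ℝ) : ℝ) : ℂ) * (shellVec s (x.1 + 1) y +
          if x.1 = 0 then 0 else shellVec s (x.1 - 1) y) := by
    split_ifs <;> rfl
  rw [h1, h2, hH]
  have h3 : ∑' z : Vertex s, (weight s y z : ℂ) * (bv x : L2 s) z = (weight s y x : ℂ) := by
    rw [tsum_eq_single x]
    · rw [bv_apply]; simp
    · intro z hz
      rw [bv_apply, if_neg hz, mul_zero]
  have h4 : ((lam * v y : ℝ) : ℂ) * (bv x : L2 s) y =
      ((lam * v x : ℝ) : ℂ) * (bv x : L2 s) y := by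
    rw [bv_apply]
    split_ifs with h
    · rw [h]
    · simp
  have hsymm : weight s y x = weight s x y := by
    unfold weight
    rw [mul_comm]
    simp only [or_comm]
  rw [h3, h4, add_sub_cancel_right, hsymm, coe_weight, shellVec_apply, mul_add]
  congr 1
  · split_ifs <;> simp
  · split_ifs with h5 h6
    · simp
    · rw [shellVec_apply, if_pos h6]
    · rw [shellVec_apply, if_neg h6, mul_zero]

theorem IsAnderson.apply_single (_hs : ∀ n, 0 < s n) (hH : IsAnderson s lam v H) (n : ℕ)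
    (i : Fin (s n)) :
    H (lp.single 2 (⟨n, i⟩ : Vertex s) (1 : ℂ))
      - ((lam * v ⟨n, i⟩ : ℝ) : ℂ) • lp.single 2 (⟨n, i⟩ : Vertex s) (1 : ℂ)
      = ((1 / √(s n : ℝ) : ℝ) : ℂ) •
        (shellVec s (n + 1) + if n = 0 then 0 else shellVec s (n - 1)) :=
  hH.apply_bv ⟨n, i⟩

/-- `δ_{n-1}`, or `0` for `n = 0` -/
noncomputable def prevVec (s : ℕ → ℕ) (n : ℕ) : L2 s :=
  if n = 0 then 0 else shellVec s (n - 1)

theorem IsAnderson.aeval_factor (hH : IsAnderson s lam v H) (x : Vertex s) :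
    aeval H (X - C (lam * v x) : ℝ[X]) (bv x) =
      ((1 / √(s x.1 : ℝ) : ℝ) : ℂ) • (shellVec s (x.1 + 1) + prevVec s x.1) := by
  rw [map_sub, aeval_X, aeval_C]
  have h := hH.apply_bv x
  unfold prevVec
  rw [← h, sub_apply, Algebra.algebraMap_eq_smul_one, Complex.coe_smul]
  rfl

theorem IsAnderson.aeval_polD (hH : IsAnderson s lam v H) (n : ℕ) :
    aeval H (polD s lam v n) (shellVec s n) =
      aeval H (polN s lam v n) (shellVec s (n + 1) + prevVec s n) := by
  have h0 : shellVec s n = ((1 / √(s n : ℝ) : ℝ) : ℂ) • ∑ i : Fin (s n), bv ⟨n, i⟩ := rfl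
  have h1 : ∀ i : Fin (s n), aeval H (polD s lam v n) (bv ⟨n, i⟩) =
      ((1 / √(s n : ℝ) : ℝ) : ℂ) •
        aeval H (∏ k ∈ Finset.univ.erase i, (X - C (lam * v ⟨n, k⟩)) : ℝ[X])
          (shellVec s (n + 1) + prevVec s n) := by
    intro i
    have h2 : polD s lam v n = (∏ k ∈ Finset.univ.erase i, (X - C (lam * v ⟨n, k⟩))) *
        (X - C (lam * v ⟨n, i⟩)) := by
      rw [polD, ← Finset.mul_prod_erase _ _ (Finset.mem_univ i), mul_comm]
    rw [h2, map_mul]
    have h3 := hH.aeval_factor ⟨n, i⟩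
    calc (aeval H (∏ k ∈ Finset.univ.erase i, (X - C (lam * v ⟨n, k⟩)) : ℝ[X]) *
          aeval H (X - C (lam * v ⟨n, i⟩) : ℝ[X])) (bv ⟨n, i⟩)
        = aeval H (∏ k ∈ Finset.univ.erase i, (X - C (lam * v ⟨n, k⟩)) : ℝ[X])
          (aeval H (X - C (lam * v ⟨n, i⟩) : ℝ[X]) (bv ⟨n, i⟩)) := rfl
      _ = _ := by rw [h3, map_smul]
  have hc : (1 / √(s n : ℝ)) * (1 / √(s n : ℝ)) = 1 / (s n : ℝ) := by
    rw [div_mul_div_comm, one_mul, Real.mul_self_sqrt (by positivity)]
  rw [h0, map_smul, map_sum]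
  simp only [h1]
  rw [← Finset.smul_sum, smul_smul, ← Complex.ofReal_mul, hc, polN, map_mul, map_sum, aeval_C,
    Algebra.algebraMap_eq_smul_one, smul_mul_assoc, one_mul, Complex.coe_smul, smul_apply,
    sum_apply]
  rfl

theorem IsAnderson.aeval_shellVec_pair (hH : IsAnderson s lam v H) (n : ℕ) :
    aeval H (∏ j ∈ Finset.range n, polN s lam v j) (shellVec s n)
      = aeval H (polP s lam v 0 n) (shellVec s 0) ∧
    aeval H (∏ j ∈ Finset.range (n + 1), polN s lam v j) (shellVec s (n + 1))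
      = aeval H (polP s lam v 0 (n + 1)) (shellVec s 0) := by
  have mulapp : ∀ (p q : ℝ[X]) (ψ : L2 s), aeval H (p * q) ψ = aeval H p (aeval H q ψ) := by
    intro p q ψ
    rw [map_mul]
    rfl
  induction n with
  | zero =>
    constructor
    · simp [polP]
    · have h := hH.aeval_polD 0
      have hp : prevVec s 0 = 0 := by simp [prevVec]
      rw [hp, add_zero] at h
      simp only [zero_add, Finset.prod_range_one, polP]
      exact h.symm
  | succ n ih =>
    refine ⟨ih.2, ?_⟩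
    have h := hH.aeval_polD (n + 1)
    have hp : prevVec s (n + 1) = shellVec s n := by simp [prevVec]
    rw [hp, map_add] at h
    have h1 : aeval H (polN s lam v (n + 1)) (shellVec s (n + 1 + 1)) =
        aeval H (polD s lam v (n + 1)) (shellVec s (n + 1)) -
          aeval H (polN s lam v (n + 1)) (shellVec s n) := by
      rw [h]; abel
    rw [Finset.prod_range_succ, mulapp, h1, map_sub, ← mulapp, ← mulapp]
    have e1 : (∏ j ∈ Finset.range (n + 1), polN s lam v j) * polD s lam v (n + 1) =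
        polD s lam v (n + 1) * ∏ j ∈ Finset.range (n + 1), polN s lam v j := mul_comm _ _
    have e2 : (∏ j ∈ Finset.range (n + 1), polN s lam v j) * polN s lam v (n + 1) =
        (polN s lam v (n + 1) * polN s lam v n) * ∏ j ∈ Finset.range n, polN s lam v j := by
      rw [Finset.prod_range_succ]; ring
    rw [e1, e2, mulapp, mulapp _ (∏ j ∈ Finset.range n, polN s lam v j), ih.2, ih.1, ← mulapp,
      ← mulapp, ← sub_apply, ← map_sub]
    congr 2
    simp only [polP, zero_add]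

theorem IsAnderson.aeval_shellVec (_hs : ∀ n, 0 < s n) (hH : IsAnderson s lam v H) (n : ℕ) :
    aeval H (∏ j ∈ Finset.range n, polN s lam v j) (shellVec s n)
      = aeval H (polP s lam v 0 n) (shellVec s 0) :=
  (hH.aeval_shellVec_pair n).1

/-! ### Existence of the operator -/

/-- Multiplication by a bounded real function. -/
noncomputable def mulOp (C : ℝ) (a : Vertex s → ℝ) (ha : ∀ x, |a x| ≤ C) : L2 s →L[ℂ] L2 s :=
  LinearMap.mkContinuous
    { toFun := fun ψ => ⟨fun x => (a x : ℂ) * ψ x, by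
        refine Memℓp.mono ((lp.memℓp ψ).norm.const_mul C) fun x => ?_
        rw [norm_mul, Complex.norm_real, Real.norm_eq_abs]
        exact mul_le_mul_of_nonneg_right (ha x) (norm_nonneg _)⟩
      map_add' := by
        intro φ ψ
        apply lp.ext
        funext x
        show (a x : ℂ) * (φ x + ψ x) = (a x : ℂ) * φ x + (a x : ℂ) * ψ x
        ring
      map_smul' := by
        intro c ψ
        apply lp.ext
        funext x
        show (a x : ℂ) * (c * ψ x) = c * ((a x : ℂ) * ψ x)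
        ring } |C| (by
      intro ψ
      have h1 : ‖((|C| : ℝ) : ℂ) • ψ‖ ≤ |C| * ‖ψ‖ := by
        rw [norm_smul]
        simp
      refine le_trans ?_ h1
      refine lp.norm_mono (by norm_num) fun x => ?_
      show ‖(a x : ℂ) * ψ x‖ ≤ ‖((|C| : ℝ) : ℂ) * ψ x‖
      rw [norm_mul, norm_mul, Complex.norm_real, Complex.norm_real, Real.norm_eq_abs,
        Real.norm_eq_abs, abs_abs]
      exact mul_le_mul_of_nonneg_right ((ha x).trans (le_abs_self C)) (norm_nonneg _))

theorem mulOp_apply (C : ℝ) (a : Vertex s → ℝ) (ha : ∀ x, |a x| ≤ C) (ψ : L2 s)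
    (x : Vertex s) : mulOp C a ha ψ x = (a x : ℂ) * ψ x := rfl

theorem isSelfAdjoint_mulOp (C : ℝ) (a : Vertex s → ℝ) (ha : ∀ x, |a x| ≤ C) :
    IsSelfAdjoint (mulOp C a ha) := by
  rw [ContinuousLinearMap.isSelfAdjoint_iff_isSymmetric]
  intro φ ψ
  show ⟪mulOp C a ha φ, ψ⟫_ℂ = ⟪φ, mulOp C a ha ψ⟫_ℂ
  rw [lp.inner_eq_tsum, lp.inner_eq_tsum]
  refine tsum_congr fun x => ?_
  rw [mulOp_apply, mulOp_apply]
  simp only [RCLike.inner_apply, map_mul, Complex.conj_ofReal]
  ring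

/-- The shift part of the adjacency operator: `δ_n ↦ δ_{n+1}`. -/
theorem exists_adjacency (hs : ∀ n, 0 < s n) : ∃ A : L2 s →L[ℂ] L2 s, IsSelfAdjoint A ∧
    ∀ x : Vertex s, A (bv x) = ((1 / √(s x.1 : ℝ) : ℝ) : ℂ) •
        (shellVec s (x.1 + 1) + if x.1 = 0 then 0 else shellVec s (x.1 - 1)) := by
  have hO := orthonormal_shellVec hs
  have hO1 : Orthonormal ℂ (shellVec s ∘ Nat.succ) := hO.comp _ Nat.succ_injective
  let V0 := hO.orthogonalFamily.linearIsometry
  let V1 := hO1.orthogonalFamily.linearIsometry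
  have hV0 : ∀ (n : ℕ) (c : ℂ), V0 (lp.single 2 n c) = c • shellVec s n := by
    intro n c
    exact hO.orthogonalFamily.linearIsometry_apply_single (i := n) c
  have hV1 : ∀ (n : ℕ) (c : ℂ), V1 (lp.single 2 n c) = c • shellVec s (n + 1) := by
    intro n c
    exact hO1.orthogonalFamily.linearIsometry_apply_single (i := n) c
  let T0 := V0.toContinuousLinearMap
  let T1 := V1.toContinuousLinearMap
  have hadj : ∀ (T : lp (fun _ : ℕ => ℂ) 2 →L[ℂ] L2 s) (x : Vertex s) (n : ℕ),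
      (ContinuousLinearMap.adjoint T (bv x)) n =
        (starRingEnd ℂ) (T (lp.single 2 n (1 : ℂ)) x) := by
    intro T x n
    have h1 : ⟪lp.single 2 n (1 : ℂ), ContinuousLinearMap.adjoint T (bv x)⟫_ℂ =
        (ContinuousLinearMap.adjoint T (bv x)) n := by
      rw [lp.inner_single_left]
      simp
    rw [← h1, ContinuousLinearMap.adjoint_inner_right, ← inner_conj_symm, inner_bv]
  have hA0 : ∀ x : Vertex s, ContinuousLinearMap.adjoint T0 (bv x) =
      lp.single 2 x.1 ((1 / √(s x.1 : ℝ) : ℝ) : ℂ) := by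
    intro x
    apply lp.ext
    funext n
    rw [hadj]
    have h1 : T0 (lp.single 2 n (1 : ℂ)) = shellVec s n := by
      have := hV0 n 1
      rw [one_smul] at this
      exact this
    rw [h1, shellVec_apply]
    by_cases h : x.1 = n
    · subst h
      rw [if_pos rfl, Complex.conj_ofReal]
      exact (lp.single_apply_self (E := fun _ : ℕ => ℂ) 2 _ _).symm
    · rw [if_neg h, map_zero]
      exact (lp.single_apply_ne (E := fun _ : ℕ => ℂ) 2 _ _ (Ne.symm h)).symm
  have hA1 : ∀ x : Vertex s, ContinuousLinearMap.adjoint T1 (bv x) =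
      if x.1 = 0 then 0 else lp.single 2 (x.1 - 1) ((1 / √(s x.1 : ℝ) : ℝ) : ℂ) := by
    intro x
    apply lp.ext
    funext n
    rw [hadj]
    have h1 : T1 (lp.single 2 n (1 : ℂ)) = shellVec s (n + 1) := by
      have := hV1 n 1
      rw [one_smul] at this
      exact this
    rw [h1, shellVec_apply]
    by_cases h : x.1 = n + 1
    · have h2 : x.1 ≠ 0 := by omega
      have h3 : x.1 - 1 = n := by omega
      rw [if_pos h, Complex.conj_ofReal, if_neg h2, h3, h]
      exact (lp.single_apply_self (E := fun _ : ℕ => ℂ) 2 _ _).symm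
    · rw [if_neg h, map_zero]
      by_cases h2 : x.1 = 0
      · rw [if_pos h2]
        rfl
      · rw [if_neg h2]
        have h4 : n ≠ x.1 - 1 := by omega
        exact (lp.single_apply_ne (E := fun _ : ℕ => ℂ) 2 _ _ h4).symm
  let B : L2 s →L[ℂ] L2 s := T1 ∘L ContinuousLinearMap.adjoint T0
  have hB : ContinuousLinearMap.adjoint B = T0 ∘L ContinuousLinearMap.adjoint T1 := by
    rw [ContinuousLinearMap.adjoint_comp, ContinuousLinearMap.adjoint_adjoint]
  refine ⟨B + ContinuousLinearMap.adjoint B, ?_, ?_⟩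
  · exact IsSelfAdjoint.add_star_self B
  · intro x
    have e1 : (B + ContinuousLinearMap.adjoint B) (bv x) =
        T1 (ContinuousLinearMap.adjoint T0 (bv x)) +
          T0 (ContinuousLinearMap.adjoint T1 (bv x)) := by
      rw [hB]
      rfl
    rw [e1, hA0, hA1, smul_add]
    have e2 : T1 (lp.single 2 x.1 ((1 / √(s x.1 : ℝ) : ℝ) : ℂ)) =
        ((1 / √(s x.1 : ℝ) : ℝ) : ℂ) • shellVec s (x.1 + 1) := hV1 _ _
    rw [e2]
    congr 1
    split_ifs with h
    · rw [map_zero, smul_zero]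
    · exact hV0 _ _

theorem exists_isAnderson (hs : ∀ n, 0 < s n) (lam : ℝ) (hv : ∀ x, |v x| ≤ 1) :
    ∃ H : L2 s →L[ℂ] L2 s, IsSelfAdjoint H ∧ IsAnderson s lam v H := by
  obtain ⟨A, hA, hAx⟩ := exists_adjacency hs
  have hb : ∀ x, |lam * v x| ≤ |lam| := by
    intro x
    rw [abs_mul]
    exact mul_le_of_le_one_right (abs_nonneg _) (hv x)
  refine ⟨A + mulOp |lam| (fun x => lam * v x) hb, hA.add (isSelfAdjoint_mulOp _ _ _), ?_⟩
  intro ψ x
  have h1 : (A + mulOp |lam| (fun x => lam * v x) hb) ψ x =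
      A ψ x + ((lam * v x : ℝ) : ℂ) * ψ x := rfl
  rw [h1]
  congr 1
  have h2 : A ψ x = ⟪A (bv x), ψ⟫_ℂ := by
    rw [← inner_bv]
    exact (hA.isSymmetric (bv x) ψ).symm
  rw [h2, hAx, inner_smul_left, Complex.conj_ofReal, inner_add_left, inner_shellVec,
    tsum_weight]
  congr 2
  split_ifs with h
  · exact inner_zero_left _
  · exact inner_shellVec _ _

/-- Dividing the density `q²` out of a singular measure. -/
theorem sing_of_withDensity {μ : Measure ℝ} (q : ℝ[X]) (hq : q ≠ 0)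
    (h : μ.withDensity (fun x => ENNReal.ofReal ((q.eval x) ^ 2)) ⟂ₘ (volume : Measure ℝ)) :
    μ ⟂ₘ (volume : Measure ℝ) := by
  obtain ⟨A, hA, h1, h2⟩ := h
  have hZ : (q.rootSet ℝ : Set ℝ).Finite := Polynomial.rootSet_finite q ℝ
  have hZ0 : ∀ x, x ∉ q.rootSet ℝ → q.eval x ≠ 0 := by
    intro x hx h0
    apply hx
    rw [Polynomial.mem_rootSet]
    exact ⟨hq, by simpa using h0⟩
  refine ⟨A \ q.rootSet ℝ, hA.diff hZ.measurableSet, ?_, ?_⟩
  · rw [withDensity_apply _ hA, lintegral_eq_zero_iff (by fun_prop)] at h1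
    rw [Filter.EventuallyEq, ae_restrict_iff' hA, ae_iff] at h1
    refine measure_mono_null ?_ h1
    rintro x ⟨hxA, hxZ⟩
    simp only [Set.mem_ofPred_eq, Classical.not_imp]
    refine ⟨hxA, ?_⟩
    have := hZ0 x hxZ
    have h3 : 0 < ENNReal.ofReal ((q.eval x) ^ 2) := by
      rw [ENNReal.ofReal_pos]
      positivity
    exact h3.ne'
  · rw [Set.sdiff_eq, Set.compl_inter, compl_compl]
    exact measure_union_null h2 (hZ.measure_zero _)

theorem total_bv : (Submodule.span ℂ (Set.range (bv (s := s)))).topologicalClosure = ⊤ := by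
  rw [eq_top_iff]
  intro ψ _
  have h := lp.hasSum_single (E := fun _ : Vertex s => ℂ) (p := 2) (by simp) ψ
  rw [← SetLike.mem_coe, Submodule.topologicalClosure_coe]
  refine mem_closure_of_tendsto h (Filter.Eventually.of_forall fun F => ?_)
  refine Submodule.sum_mem _ fun x _ => ?_
  have h1 : lp.single 2 x (ψ x) = (ψ x) • bv x := by
    unfold bv
    rw [← lp.single_smul]
    simp
  rw [h1]
  exact Submodule.smul_mem _ _ (Submodule.subset_span ⟨x, rfl⟩)

theorem Sing.of_aeval (hsa : IsSelfAdjoint H) {φ ξ : L2 s} (q : ℝ[X]) (hq : q ≠ 0)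
    (hξ : Sing H ξ) (h : aeval H q φ = ξ) : Sing H φ := by
  intro μ hμ
  have h1 := hμ.withDensity_sq hsa q
  have h2 : IsSpectralMeasure H ξ
      (μ.withDensity (fun x => ENNReal.ofReal ((q.eval x) ^ 2))) := by
    rw [← h]
    exact h1
  exact sing_of_withDensity q hq (hξ _ h2)

theorem Sing.aeval (hsa : IsSelfAdjoint H) {φ : L2 s} (hφ : Sing H φ) (p : ℝ[X]) :
    Sing H (aeval H p φ) := by
  intro μ hμ
  obtain ⟨ν, hν⟩ := exists_isSpectralMeasure hsa φ
  rw [hμ.unique (hν.withDensity_sq hsa p)]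
  exact (hφ _ hν).mono_ac (withDensity_absolutelyContinuous _ _) Measure.AbsolutelyContinuous.rfl

/-- Reduction to the first shell. -/
theorem IsAnderson.hasSingularSpectrum (hs : ∀ n, 0 < s n) (_hv : ∀ x, |v x| ≤ 1)
    (hH : IsAnderson s lam v H) (hsa : IsSelfAdjoint H)
    (hN : ∀ n, polN s lam v n ≠ 0)
    (h0 : ∃ μ, IsSpectralMeasure H (shellVec s 0) μ ∧ μ ⟂ₘ (volume : Measure ℝ)) :
    HasSingularSpectrum H := by
  have s0 : Sing H (shellVec s 0) := by
    obtain ⟨μ, h1, h2⟩ := h0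
    intro ν hν
    rw [hν.unique h1]
    exact h2
  have sn : ∀ n, Sing H (shellVec s n) := by
    intro n
    refine Sing.of_aeval hsa (∏ j ∈ Finset.range n, polN s lam v j)
      (Finset.prod_ne_zero_iff.mpr fun j _ => hN j) (s0.aeval hsa (polP s lam v 0 n)) ?_
    exact hH.aeval_shellVec hs n
  have sp : ∀ n, Sing H (prevVec s n) := by
    intro n
    unfold prevVec
    split_ifs
    · exact Sing.zero
    · exact sn _
  refine hasSingularSpectrum_of_total hsa (Set.range bv) total_bv ?_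
  rintro _ ⟨x, rfl⟩
  have hx : Sing H (bv x) :=
    Sing.of_aeval hsa (X - C (lam * v x)) (X_sub_C_ne_zero _)
      (((sn _).add hsa (sp _)).smul hsa _) (hH.aeval_factor x)
  obtain ⟨μ, hμ⟩ := exists_isSpectralMeasure hsa (bv x)
  exact ⟨μ, hμ, hx μ hμ⟩

end Pool.Agent.W_MP_b6e843_mp
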