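import Pool.Agent.W_MP_b6e843_mp.Cocycle

/-! # Boundary values of the transfer matrices -/

namespace Pool.Agent.W_MP_b6e843_mp

open Complex MeasureTheory Set Filter Polynomial
open scoped Topology Real

/-- The complex Green's function average of the `j`-th shell. -/
noncomputable def cavg (s : ℕ → ℕ) (lam : ℝ) (v : Vertex s → ℝ) (z : ℂ) (j : ℕ) : ℂ :=
  (1 / (s j : ℂ)) * ∑ i : Fin (s j), (z - (lam * v ⟨j, i⟩ : ℝ))⁻¹

/-- The real Green's function average of the `j`-th shell. -/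
noncomputable def ravg (s : ℕ → ℕ) (lam : ℝ) (v : Vertex s → ℝ) (E : ℝ) (j : ℕ) : ℝ :=
  avg lam E (s j) (fun i => v ⟨j, i⟩)

/-- The real transfer matrix. -/
noncomputable def rtm (s : ℕ → ℕ) (lam : ℝ) (v : Vertex s → ℝ) (E : ℝ) (i m : ℕ) :
    Matrix (Fin 2) (Fin 2) ℝ :=
  tm (fun j => (ravg s lam v E j)⁻¹) i m

/-- The complex transfer matrix. -/
noncomputable def ctm (s : ℕ → ℕ) (lam : ℝ) (v : Vertex s → ℝ) (z : ℂ) (i m : ℕ) :
    Matrix (Fin 2) (Fin 2) ℂ :=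
  tm (fun j => (cavg s lam v z j)⁻¹) i m

variable {s : ℕ → ℕ} {lam : ℝ} {v : Vertex s → ℝ}

lemma cavg_ofReal (E : ℝ) (j : ℕ) : cavg s lam v (E : ℂ) j = (ravg s lam v E j : ℂ) := by
  simp [cavg, ravg, avg]

lemma tm_ofReal (b : ℕ → ℝ) (i m : ℕ) :
    tm (fun j => (b j : ℂ)) i m = (tm b i m).map (fun x : ℝ => (x : ℂ)) := by
  induction m with
  | zero =>
    ext a c
    fin_cases a <;> fin_cases c <;> simp
  | succ m ih =>
    ext a c
    fin_cases a <;> fin_cases c <;>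
      simp [tm_succ_00, tm_succ_01, tm_succ_10, tm_succ_11, ih]

lemma ctm_ofReal (E : ℝ) (i m : ℕ) (a c : Fin 2) :
    ctm s lam v (E : ℂ) i m a c = (rtm s lam v E i m a c : ℂ) := by
  have : ctm s lam v (E : ℂ) i m = tm (fun j => (((ravg s lam v E j)⁻¹ : ℝ) : ℂ)) i m := by
    unfold ctm
    congr 1
    funext j
    rw [cavg_ofReal, ofReal_inv]
  rw [this, tm_ofReal]
  rfl

section UpperHalf

variable {j : ℕ}

lemma sub_ne {z : ℂ} (hz : 0 < z.im) (x : ℝ) : z - (x : ℂ) ≠ 0 := by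
  intro h
  have := congrArg Complex.im h
  simp at this
  linarith

lemma im_inv_sub (z : ℂ) (x : ℝ) : ((z - (x : ℂ))⁻¹).im = - z.im * ‖(z - (x : ℂ))⁻¹‖ ^ 2 := by
  rw [inv_im, norm_inv, inv_pow, ← normSq_eq_norm_sq]
  simp
  ring

lemma cavg_im (z : ℂ) (j : ℕ) : (cavg s lam v z j).im
    = - z.im * ((1 / (s j : ℝ)) * ∑ i : Fin (s j), ‖(z - ((lam * v ⟨j, i⟩ : ℝ) : ℂ))⁻¹‖ ^ 2) := by
  unfold cavg
  rw [show (1 / (s j : ℂ)) = ((1 / (s j : ℝ) : ℝ) : ℂ) by push_cast; rfl, im_ofReal_mul,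
    im_sum]
  simp_rw [im_inv_sub]
  rw [← Finset.mul_sum]
  ring

lemma norm_cavg_sq_le (hs : 0 < s j) (z : ℂ) : ‖cavg s lam v z j‖ ^ 2
    ≤ (1 / (s j : ℝ)) * ∑ i : Fin (s j), ‖(z - ((lam * v ⟨j, i⟩ : ℝ) : ℂ))⁻¹‖ ^ 2 := by
  have hs' : (0:ℝ) < s j := by exact_mod_cast hs
  have h1 : ‖cavg s lam v z j‖ ≤ (1 / (s j : ℝ)) *
      ∑ i : Fin (s j), ‖(z - ((lam * v ⟨j, i⟩ : ℝ) : ℂ))⁻¹‖ := by
    unfold cavg
    rw [norm_mul]
    gcongr
    · simp
    · exact norm_sum_le _ _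
  have h2 := sq_sum_le_card_mul_sum_sq (s := (Finset.univ : Finset (Fin (s j))))
    (f := fun i => ‖(z - ((lam * v ⟨j, i⟩ : ℝ) : ℂ))⁻¹‖)
  simp only [Finset.card_univ, Fintype.card_fin] at h2
  calc ‖cavg s lam v z j‖ ^ 2 ≤ ((1 / (s j : ℝ)) *
      ∑ i : Fin (s j), ‖(z - ((lam * v ⟨j, i⟩ : ℝ) : ℂ))⁻¹‖) ^ 2 :=
        pow_le_pow_left₀ (norm_nonneg _) h1 2
    _ = (1 / (s j : ℝ)) ^ 2 * (∑ i : Fin (s j), ‖(z - ((lam * v ⟨j, i⟩ : ℝ) : ℂ))⁻¹‖) ^ 2 := by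
        ring
    _ ≤ (1 / (s j : ℝ)) ^ 2 *
        (s j * ∑ i : Fin (s j), ‖(z - ((lam * v ⟨j, i⟩ : ℝ) : ℂ))⁻¹‖ ^ 2) := by gcongr
    _ = _ := by field_simp

lemma cavg_im_neg (hs : 0 < s j) {z : ℂ} (hz : 0 < z.im) : (cavg s lam v z j).im < 0 := by
  have hs' : (0:ℝ) < s j := by exact_mod_cast hs
  rw [cavg_im]
  have : 0 < (1 / (s j : ℝ)) * ∑ i : Fin (s j), ‖(z - ((lam * v ⟨j, i⟩ : ℝ) : ℂ))⁻¹‖ ^ 2 := by
    apply mul_pos (by positivity)
    apply Finset.sum_pos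
    · intro i _
      exact pow_pos (norm_pos_iff.mpr (inv_ne_zero (sub_ne hz (lam * v ⟨j, i⟩)))) 2
    · have : Nonempty (Fin (s j)) := ⟨⟨0, hs⟩⟩
      exact Finset.univ_nonempty
  nlinarith

lemma cavg_ne_zero (hs : 0 < s j) {z : ℂ} (hz : 0 < z.im) : cavg s lam v z j ≠ 0 := by
  intro h
  have := cavg_im_neg (lam := lam) (v := v) hs hz
  rw [h] at this
  simp at this

lemma im_cavg_inv (hs : 0 < s j) {z : ℂ} (hz : 0 < z.im) :
    z.im ≤ ((cavg s lam v z j)⁻¹).im := by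
  have h0 := cavg_ne_zero (lam := lam) (v := v) hs hz
  have h1 : 0 < ‖cavg s lam v z j‖ ^ 2 := by positivity
  rw [inv_im, normSq_eq_norm_sq, le_div_iff₀ h1, cavg_im, neg_mul, neg_neg]
  gcongr
  exact norm_cavg_sq_le hs z

lemma norm_cavg_le (hs : 0 < s j) {z : ℂ} (hz : 0 < z.im) : ‖cavg s lam v z j‖ ≤ (z.im)⁻¹ := by
  have h := im_cavg_inv (lam := lam) (v := v) hs hz
  have := norm_inv_le_of_im hz h
  rwa [inv_inv] at this

lemma norm_cavg_inv_le (hs : 0 < s j) (hv : ∀ x, |v x| ≤ 1) :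
    ‖(cavg s lam v I j)⁻¹‖ ≤ 1 + lam ^ 2 := by
  have hs' : (0:ℝ) < s j := by exact_mod_cast hs
  have h1 : (1 + lam ^ 2)⁻¹ ≤ ‖cavg s lam v I j‖ := by
    have h2 : |(cavg s lam v I j).im| ≤ ‖cavg s lam v I j‖ := abs_im_le_norm _
    refine le_trans ?_ h2
    have h3 := cavg_im_neg (lam := lam) (v := v) hs (z := I) (by simp)
    rw [abs_of_neg h3, cavg_im]
    simp only [I_im]
    have h4 : ∀ i : Fin (s j), (1 + lam ^ 2)⁻¹ ≤ ‖(I - ((lam * v ⟨j, i⟩ : ℝ) : ℂ))⁻¹‖ ^ 2 := by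
      intro i
      rw [norm_inv, inv_pow]
      have h6 : ‖I - ((lam * v ⟨j, i⟩ : ℝ) : ℂ)‖ ^ 2 = 1 + (lam * v ⟨j, i⟩) ^ 2 := by
        rw [← normSq_eq_norm_sq, normSq_apply]
        simp
        ring
      rw [h6]
      apply inv_anti₀ (by positivity)
      have h5 : (v ⟨j, i⟩) ^ 2 ≤ 1 := by
        rw [← sq_abs]
        have := hv ⟨j, i⟩
        nlinarith [abs_nonneg (v ⟨j, i⟩)]
      rw [mul_pow]
      nlinarith [sq_nonneg lam]
    have h7 : (s j : ℝ) * (1 + lam ^ 2)⁻¹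
        ≤ ∑ i : Fin (s j), ‖(I - ((lam * v ⟨j, i⟩ : ℝ) : ℂ))⁻¹‖ ^ 2 := by
      have := Finset.card_nsmul_le_sum Finset.univ
        (fun i : Fin (s j) => ‖(I - ((lam * v ⟨j, i⟩ : ℝ) : ℂ))⁻¹‖ ^ 2) _ (fun i _ => h4 i)
      simpa using this
    calc (1 + lam ^ 2)⁻¹ = (1 / (s j : ℝ)) * ((s j : ℝ) * (1 + lam ^ 2)⁻¹) := by field_simp
      _ ≤ (1 / (s j : ℝ)) * ∑ i : Fin (s j), ‖(I - ((lam * v ⟨j, i⟩ : ℝ) : ℂ))⁻¹‖ ^ 2 := by gcongr
      _ = _ := by ring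
  rw [norm_inv]
  have h8 : (0:ℝ) < (1 + lam ^ 2)⁻¹ := by positivity
  calc ‖cavg s lam v I j‖⁻¹ ≤ ((1 + lam ^ 2)⁻¹)⁻¹ := inv_anti₀ h8 h1
    _ = _ := inv_inv _

end UpperHalf

section Regular

/-- A regular point: no pole and no zero of the averages. -/
def Reg (s : ℕ → ℕ) (lam : ℝ) (v : Vertex s → ℝ) (z : ℂ) : Prop :=
  (∀ j, ∀ i : Fin (s j), z - ((lam * v ⟨j, i⟩ : ℝ) : ℂ) ≠ 0) ∧ ∀ j, cavg s lam v z j ≠ 0

lemma reg_of_im_pos (hs : ∀ n, 0 < s n) {z : ℂ} (hz : 0 < z.im) : Reg s lam v z :=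
  ⟨fun _ _ => sub_ne hz _, fun j => cavg_ne_zero (hs j) hz⟩

lemma Reg.differentiableAt_cavg {z : ℂ} (h : Reg s lam v z) (j : ℕ) :
    DifferentiableAt ℂ (fun z => cavg s lam v z j) z := by
  unfold cavg
  apply DifferentiableAt.const_mul
  apply DifferentiableAt.fun_sum
  intro i _
  exact DifferentiableAt.fun_inv (by fun_prop) (h.1 j i)

lemma Reg.differentiableAt_ctm {z : ℂ} (h : Reg s lam v z) (i m : ℕ) (a c : Fin 2) :
    DifferentiableAt ℂ (fun z => ctm s lam v z i m a c) z := by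
  unfold ctm
  have hb : ∀ j, DifferentiableAt ℂ (fun z => (cavg s lam v z j)⁻¹) z := fun j =>
    DifferentiableAt.fun_inv (h.differentiableAt_cavg j) (h.2 j)
  have main : ∀ m, ∀ a c : Fin 2, DifferentiableAt ℂ
      (fun z => tm (fun j => (cavg s lam v z j)⁻¹) i m a c) z := by
    intro m
    induction m with
    | zero =>
      intro a c
      simp only [tm_zero]
      exact differentiableAt_const _
    | succ m ih =>
      intro a c
      fin_cases a <;> fin_cases c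
      · simp only [Fin.zero_eta, tm_succ_00]
        exact ((hb _).mul (ih 0 0)).sub (ih 1 0)
      · simp only [Fin.zero_eta, Fin.mk_one, tm_succ_01]
        exact ((hb _).mul (ih 0 1)).sub (ih 1 1)
      · simp only [Fin.zero_eta, Fin.mk_one, tm_succ_10]
        exact ih 0 0
      · simp only [Fin.mk_one, tm_succ_11]
        exact ih 0 1
  exact main m a c

lemma aeval_polD (z : ℂ) (j : ℕ) : aeval z (polD s lam v j)
    = ∏ i : Fin (s j), (z - ((lam * v ⟨j, i⟩ : ℝ) : ℂ)) := by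
  simp [polD, map_prod]

lemma aeval_polN (z : ℂ) (j : ℕ) : aeval z (polN s lam v j)
    = (1 / (s j : ℂ)) * ∑ i : Fin (s j), ∏ k ∈ Finset.univ.erase i,
        (z - ((lam * v ⟨j, k⟩ : ℝ) : ℂ)) := by
  simp [polN, map_prod, map_sum]

lemma cavg_mul_polD {z : ℂ} {j : ℕ} (h : ∀ i : Fin (s j), z - ((lam * v ⟨j, i⟩ : ℝ) : ℂ) ≠ 0) :
    cavg s lam v z j * aeval z (polD s lam v j) = aeval z (polN s lam v j) := by
  rw [aeval_polD, aeval_polN]
  unfold cavg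
  rw [mul_assoc, Finset.sum_mul]
  congr 1
  apply Finset.sum_congr rfl
  intro i _
  rw [← Finset.mul_prod_erase Finset.univ _ (Finset.mem_univ i), ← mul_assoc,
    inv_mul_cancel₀ (h i), one_mul]

lemma Reg.polD_ne {z : ℂ} (h : Reg s lam v z) (j : ℕ) : aeval z (polD s lam v j) ≠ 0 := by
  rw [aeval_polD]
  exact Finset.prod_ne_zero_iff.mpr (fun i _ => h.1 j i)

lemma Reg.polN_ne {z : ℂ} (h : Reg s lam v z) (j : ℕ) : aeval z (polN s lam v j) ≠ 0 := by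
  rw [← cavg_mul_polD (h.1 j)]
  exact mul_ne_zero (h.2 j) (h.polD_ne j)

lemma Reg.inv_cavg {z : ℂ} (h : Reg s lam v z) (j : ℕ) :
    (cavg s lam v z j)⁻¹ = aeval z (polD s lam v j) / aeval z (polN s lam v j) := by
  rw [← cavg_mul_polD (h.1 j)]
  have h1 := h.2 j
  have h2 := h.polD_ne j
  field_simp

lemma Reg.ctm_00 {z : ℂ} (h : Reg s lam v z) (i m : ℕ) :
    ctm s lam v z i m 0 0 = aeval z (polP s lam v i m) /
      ∏ j ∈ Finset.range m, aeval z (polN s lam v (i + j)) := by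
  have key : ∀ m, (ctm s lam v z i m 0 0 = aeval z (polP s lam v i m) /
      ∏ j ∈ Finset.range m, aeval z (polN s lam v (i + j))) ∧
      (ctm s lam v z i (m + 1) 0 0 = aeval z (polP s lam v i (m + 1)) /
      ∏ j ∈ Finset.range (m + 1), aeval z (polN s lam v (i + j))) := by
    intro m
    induction m with
    | zero =>
      constructor
      · simp [ctm, polP]
      · unfold ctm
        rw [tm_succ_00]
        simp [polP, h.inv_cavg]
    | succ m ih =>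
      refine ⟨ih.2, ?_⟩
      have h1 : ctm s lam v z i (m + 1 + 1) 0 0
          = (cavg s lam v z (i + (m + 1)))⁻¹ * ctm s lam v z i (m + 1) 0 0
            - ctm s lam v z i m 0 0 := by
        unfold ctm
        rw [tm_succ_00, tm_succ_10]
      have h2 := h.polN_ne (i + m)
      have h3 := h.polN_ne (i + (m + 1))
      have h4 : ∏ j ∈ Finset.range m, aeval z (polN s lam v (i + j)) ≠ 0 :=
        Finset.prod_ne_zero_iff.mpr (fun j _ => h.polN_ne _)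
      rw [h1, ih.1, ih.2, h.inv_cavg, Finset.prod_range_succ _ (m + 1), Finset.prod_range_succ _ m,
        show polP s lam v i (m + 1 + 1) = polD s lam v (i + m + 1) * polP s lam v i (m + 1)
          - polN s lam v (i + m + 1) * polN s lam v (i + m) * polP s lam v i m from rfl,
        map_sub, map_mul, map_mul, map_mul, ← add_assoc]
      rw [← add_assoc] at h3
      field_simp
  exact (key m).1

lemma ctm_00_ne (hs : ∀ n, 0 < s n) {z : ℂ} (hz : 0 < z.im) (i m : ℕ) :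
    ctm s lam v z i m 0 0 ≠ 0 :=
  tm_00_ne_zero hz (fun j => im_cavg_inv (hs j) hz) i m

lemma polN_ne_zero (hs : ∀ n, 0 < s n) (j : ℕ) : polN s lam v j ≠ 0 := by
  intro h
  have := (reg_of_im_pos (lam := lam) (v := v) hs (z := I) (by simp)).polN_ne j
  rw [h] at this
  simp at this

lemma polD_ne_zero (hs : ∀ n, 0 < s n) (j : ℕ) : polD s lam v j ≠ 0 := by
  intro h
  have := (reg_of_im_pos (lam := lam) (v := v) hs (z := I) (by simp)).polD_ne j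
  rw [h] at this
  simp at this

lemma polP_ne_zero (hs : ∀ n, 0 < s n) (i m : ℕ) : polP s lam v i m ≠ 0 := by
  intro h
  have h1 := ctm_00_ne (lam := lam) (v := v) hs (z := I) (by simp) i m
  rw [(reg_of_im_pos hs (z := I) (by simp)).ctm_00, h] at h1
  simp at h1

lemma ae_eval_ne_zero {p : ℝ[X]} (hp : p ≠ 0) : ∀ᵐ E : ℝ, p.eval E ≠ 0 := by
  rw [ae_iff]
  simp only [not_not]
  have : {E : ℝ | p.eval E = 0} = (p.roots.toFinset : Set ℝ) := by
    ext E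
    simp [hp]
  rw [this]
  exact Finset.measure_zero _ _

lemma aeval_ofReal (p : ℝ[X]) (E : ℝ) : aeval (E : ℂ) p = ((p.eval E : ℝ) : ℂ) := by
  rw [← Complex.coe_algebraMap, Polynomial.aeval_algebraMap_apply]
  simp

lemma ae_reg (hs : ∀ n, 0 < s n) (lam : ℝ) (v : Vertex s → ℝ) :
    ∀ᵐ E : ℝ, Reg s lam v (E : ℂ) := by
  have h1 : ∀ᵐ E : ℝ, ∀ j, (polD s lam v j).eval E ≠ 0 :=
    ae_all_iff.mpr (fun j => ae_eval_ne_zero (polD_ne_zero hs j))
  have h2 : ∀ᵐ E : ℝ, ∀ j, (polN s lam v j).eval E ≠ 0 :=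
    ae_all_iff.mpr (fun j => ae_eval_ne_zero (polN_ne_zero hs j))
  filter_upwards [h1, h2] with E hD hN
  have hD' : ∀ j, aeval (E : ℂ) (polD s lam v j) ≠ 0 := by
    intro j
    rw [aeval_ofReal]
    exact_mod_cast hD j
  have hN' : ∀ j, aeval (E : ℂ) (polN s lam v j) ≠ 0 := by
    intro j
    rw [aeval_ofReal]
    exact_mod_cast hN j
  have h3 : ∀ j, ∀ i : Fin (s j), (E : ℂ) - ((lam * v ⟨j, i⟩ : ℝ) : ℂ) ≠ 0 := by
    intro j i
    have := hD' j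
    rw [aeval_polD] at this
    exact Finset.prod_ne_zero_iff.mp this i (Finset.mem_univ i)
  refine ⟨h3, fun j hj => ?_⟩
  have := cavg_mul_polD (h3 j)
  rw [hj, zero_mul] at this
  exact hN' j this.symm

lemma ae_ctm_ne (hs : ∀ n, 0 < s n) (lam : ℝ) (v : Vertex s → ℝ) :
    ∀ᵐ E : ℝ, ∀ i m, rtm s lam v E i m 0 0 ≠ 0 := by
  have h1 : ∀ᵐ E : ℝ, ∀ i m, (polP s lam v i m).eval E ≠ 0 :=
    ae_all_iff.mpr (fun i => ae_all_iff.mpr (fun m => ae_eval_ne_zero (polP_ne_zero hs i m)))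
  filter_upwards [h1, ae_reg hs lam v] with E hP hR i m h
  have h2 := hR.ctm_00 i m
  rw [ctm_ofReal, h, ofReal_zero] at h2
  have h3 : aeval (E : ℂ) (polP s lam v i m) ≠ 0 := by
    rw [aeval_ofReal]
    exact_mod_cast hP i m
  have h4 : ∏ j ∈ Finset.range m, aeval (E : ℂ) (polN s lam v (i + j)) ≠ 0 :=
    Finset.prod_ne_zero_iff.mpr (fun j _ => hR.polN_ne _)
  exact (div_ne_zero h3 h4) h2.symm

end Regular

end Pool.Agent.W_MP_b6e843_mp
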