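import Mathlib

/-! # Weak type estimate for Herglotz functions -/

namespace Pool.Agent.W_MP_b6e843_mp

open Complex MeasureTheory Set Filter
open scoped Topology Real

lemma integrable_inv_one_add_sq' : Integrable (fun x : ℝ => (1 + x ^ 2)⁻¹) :=
  integrable_inv_one_add_sq

/-- The Poisson formula at `i` for bounded functions holomorphic near the closed upper half
plane. -/
theorem integral_poisson {Θ : ℂ → ℂ} (hd : ∀ z : ℂ, 0 ≤ z.im → DifferentiableAt ℂ Θ z)
    (hb : ∀ z : ℂ, 0 ≤ z.im → ‖Θ z‖ ≤ 1) :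
    ∫ x : ℝ, ((1 + x ^ 2)⁻¹ : ℝ) * Θ x = π * Θ I := by
  set f : ℂ → ℂ := fun z => dslope Θ I z / (z + I) with hf
  have hI : (0:ℝ) ≤ I.im := by simp
  have hne : ∀ z : ℂ, 0 ≤ z.im → z + I ≠ 0 := by
    intro z hz h
    have := congrArg Complex.im h
    simp at this
    linarith
  -- continuity
  have hcont : ∀ z : ℂ, 0 ≤ z.im → ContinuousAt f z := by
    intro z hz
    have h1 : ContinuousAt (dslope Θ I) z := by
      by_cases h : z = I
      · rw [h]
        exact continuousAt_dslope_same.mpr (hd I hI)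
      · exact (continuousAt_dslope_of_ne h).mpr (hd z hz).continuousAt
    have h2 : ContinuousAt (fun z : ℂ => z + I) z := by fun_prop
    exact ContinuousAt.div h1 h2 (hne z hz)
  have hdiff : ∀ z : ℂ, 0 ≤ z.im → z ≠ I → DifferentiableAt ℂ f z := by
    intro z hz h
    have h1 : DifferentiableAt ℂ (dslope Θ I) z :=
      (differentiableAt_dslope_of_ne h).mpr (hd z hz)
    have h2 : DifferentiableAt ℂ (fun z : ℂ => z + I) z := by fun_prop
    exact DifferentiableAt.div h1 h2 (hne z hz)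
  -- explicit bound
  have hbound : ∀ z : ℂ, 0 ≤ z.im → z ≠ I → ‖f z‖ ≤ 2 / (‖z - I‖ * ‖z + I‖) := by
    intro z hz h
    have hzI : z - I ≠ 0 := sub_ne_zero.mpr h
    simp only [hf]
    rw [norm_div, dslope_of_ne _ h, slope_def_field, norm_div, div_div]
    apply div_le_div_of_nonneg_right _ (by positivity)
    calc ‖Θ z - Θ I‖ ≤ ‖Θ z‖ + ‖Θ I‖ := norm_sub_le _ _
      _ ≤ 1 + 1 := add_le_add (hb z hz) (hb I hI)
      _ = 2 := by norm_num
  have hbig : ∀ R : ℝ, 2 ≤ R → ∀ z : ℂ, 0 ≤ z.im → R ≤ ‖z‖ → ‖f z‖ ≤ 8 / R ^ 2 := by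
    intro R hR z hz hzR
    have h1 : z ≠ I := by
      intro h
      rw [h] at hzR
      simp at hzR
      linarith
    have h2 : R / 2 ≤ ‖z - I‖ := by
      have := norm_sub_norm_le z I
      simp at this
      linarith
    have h3 : R / 2 ≤ ‖z + I‖ := by
      have := norm_sub_norm_le z (-I)
      simp at this
      linarith
    refine (hbound z hz h1).trans ?_
    have h4 : 0 < ‖z - I‖ := by linarith
    have h5 : 0 < ‖z + I‖ := by linarith
    rw [div_le_div_iff₀ (by positivity) (by positivity)]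
    nlinarith [mul_le_mul h2 h3 (by positivity) (by positivity)]
  -- the rectangle
  have hrect : ∀ R : ℝ, 2 ≤ R → ‖∫ x in (-R)..R, f x‖ ≤ 32 / R := by
    intro R hR
    have hR0 : 0 < R := by linarith
    have key := Complex.integral_boundary_rect_eq_zero_of_differentiable_on_off_countable f
      (-R : ℂ) (R + R * I) {I} (countable_singleton I) ?_ ?_
    · simp only [neg_re, ofReal_re, add_re, mul_re, I_re, mul_zero, ofReal_im, I_im, mul_one,
        sub_self, add_zero, neg_im, neg_zero, ofReal_zero, zero_mul, add_im, mul_im, zero_add,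
        smul_eq_mul] at key
      have e1 : ∫ x in (-R)..R, f x = (∫ x in (-R)..R, f (x + R * I))
          - I * (∫ y in (0:ℝ)..R, f (R + y * I)) + I * (∫ y in (0:ℝ)..R, f ((-R : ℝ) + y * I)) := by
        linear_combination key
      have b1 : ‖∫ x in (-R)..R, f (x + R * I)‖ ≤ 8 / R ^ 2 * |R - -R| := by
        apply intervalIntegral.norm_integral_le_of_norm_le_const
        intro x _
        apply hbig R hR
        · simp; linarith
        · calc R = |(x + R * I : ℂ).im| := by simp [abs_of_pos hR0]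
            _ ≤ ‖(x + R * I : ℂ)‖ := abs_im_le_norm _
      have b2 : ‖∫ y in (0:ℝ)..R, f (R + y * I)‖ ≤ 8 / R ^ 2 * |R - 0| := by
        apply intervalIntegral.norm_integral_le_of_norm_le_const
        intro y hy
        rw [uIoc_of_le hR0.le] at hy
        apply hbig R hR
        · simp; linarith [hy.1]
        · calc R = |(R + y * I : ℂ).re| := by simp [abs_of_pos hR0]
            _ ≤ ‖(R + y * I : ℂ)‖ := abs_re_le_norm _
      have b3 : ‖∫ y in (0:ℝ)..R, f ((-R : ℝ) + y * I)‖ ≤ 8 / R ^ 2 * |R - 0| := by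
        apply intervalIntegral.norm_integral_le_of_norm_le_const
        intro y hy
        rw [uIoc_of_le hR0.le] at hy
        apply hbig R hR
        · simp; linarith [hy.1]
        · calc R = |(((-R : ℝ) : ℂ) + y * I : ℂ).re| := by simp [abs_of_pos hR0]
            _ ≤ ‖(((-R : ℝ) : ℂ) + y * I : ℂ)‖ := abs_re_le_norm _
      rw [e1]
      calc _ ≤ ‖(∫ x in (-R)..R, f (x + R * I)) - I * (∫ y in (0:ℝ)..R, f (R + y * I))‖
            + ‖I * (∫ y in (0:ℝ)..R, f ((-R : ℝ) + y * I))‖ := norm_add_le _ _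
        _ ≤ ‖(∫ x in (-R)..R, f (x + R * I))‖ + ‖I * (∫ y in (0:ℝ)..R, f (R + y * I))‖
            + ‖I * (∫ y in (0:ℝ)..R, f ((-R : ℝ) + y * I))‖ := by
              gcongr
              exact norm_sub_le _ _
        _ ≤ 8 / R ^ 2 * |R - -R| + 8 / R ^ 2 * |R - 0| + 8 / R ^ 2 * |R - 0| := by
              rw [norm_mul, norm_mul, norm_I, one_mul, one_mul]
              gcongr
        _ = 32 / R := by
              rw [abs_of_pos (by linarith : 0 < R - -R), abs_of_pos (by linarith : 0 < R - 0)]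
              field_simp
              ring
    · intro z hz
      apply (hcont z _).continuousWithinAt
      have h1 := hz.2
      simp only [neg_im, ofReal_im, neg_zero, add_im, mul_im, ofReal_re, I_im, mul_one, I_re,
        mul_zero, add_zero, zero_add, mem_preimage, uIcc_of_le hR0.le] at h1
      exact h1.1
    · intro z hz
      have h1 := hz.1.2
      simp only [neg_im, ofReal_im, neg_zero, add_im, mul_im, ofReal_re, I_im, mul_one, I_re,
        mul_zero, add_zero, zero_add, mem_preimage, min_eq_left hR0.le, max_eq_right hR0.le] at h1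
      exact hdiff z h1.1.le (by simpa using hz.2)
  -- values on the real axis
  have hreal : ∀ x : ℝ, f x = ((1 + x ^ 2)⁻¹ : ℝ) * (Θ x - Θ I) := by
    intro x
    have hxI : (x : ℂ) ≠ I := by
      intro h
      have := congrArg Complex.im h
      simp at this
    have h1 : (x : ℂ) - I ≠ 0 := sub_ne_zero.mpr hxI
    have h2 : (x : ℂ) + I ≠ 0 := hne x (by simp)
    have h3 : (1 + (x:ℂ) ^ 2) = ((x : ℂ) - I) * ((x : ℂ) + I) := by
      have := I_sq
      linear_combination this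
    simp only [hf]
    rw [dslope_of_ne _ hxI, slope_def_field]
    push_cast
    rw [h3]
    field_simp
  have hint : Integrable (fun x : ℝ => f x) := by
    have hm : Continuous (fun x : ℝ => f x) := by
      rw [continuous_iff_continuousAt]
      intro x
      exact (hcont x (by simp)).comp continuous_ofReal.continuousAt
    apply (integrable_inv_one_add_sq'.mul_const 2).mono' hm.aestronglyMeasurable
    refine Eventually.of_forall (fun x => ?_)
    rw [hreal, norm_mul, norm_real, Real.norm_eq_abs, abs_of_pos (by positivity)]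
    apply mul_le_mul_of_nonneg_left _ (by positivity)
    calc ‖Θ x - Θ I‖ ≤ ‖Θ x‖ + ‖Θ I‖ := norm_sub_le _ _
      _ ≤ 1 + 1 := add_le_add (hb x (by simp)) (hb I hI)
      _ = 2 := by norm_num
  have hzero : ∫ x : ℝ, f x = 0 := by
    have h1 := intervalIntegral_tendsto_integral hint tendsto_neg_atTop_atBot tendsto_id
    have h2 : Tendsto (fun R : ℝ => ∫ x in (-R)..(id R), f x) atTop (𝓝 0) := by
      apply squeeze_zero_norm' (a := fun R => 32 / R)
      · filter_upwards [eventually_ge_atTop 2] with R hR using hrect R hR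
      · exact tendsto_const_nhds.div_atTop tendsto_id
    exact tendsto_nhds_unique h1 h2
  have hint2 : Integrable (fun x : ℝ => ((1 + x ^ 2)⁻¹ : ℝ) * Θ I) :=
    integrable_inv_one_add_sq'.ofReal.mul_const _
  have e : (fun x : ℝ => (((1 + x ^ 2)⁻¹ : ℝ) : ℂ) * Θ x)
      = fun x : ℝ => f x + ((1 + x ^ 2)⁻¹ : ℝ) * Θ I := by
    funext x
    rw [hreal]
    ring
  rw [e, integral_add hint hint2, hzero, zero_add, integral_mul_const]
  congr 1
  have := integral_ofReal (𝕜 := ℂ) (f := fun x : ℝ => (1 + x ^ 2)⁻¹) (μ := volume)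
  rw [integral_univ_inv_one_add_sq] at this
  exact this

/-- Real part and norm of `1 + (i/t) w` for `Im w ≤ 0`. -/
lemma one_le_re_aux {t : ℝ} (ht : 0 < t) {w : ℂ} (hw : w.im ≤ 0) : 1 ≤ (1 + I / t * w).re := by
  have h : (1 + I / t * w).re = 1 - w.im / t := by
    rw [show I / (t:ℂ) * w = (I * w) / t by ring, add_re, div_ofReal_re]
    simp
    ring
  rw [h]
  have := div_nonpos_of_nonpos_of_nonneg hw ht.le
  linarith

lemma one_le_norm_aux {t : ℝ} (ht : 0 < t) {w : ℂ} (hw : w.im ≤ 0) : 1 ≤ ‖1 + I / t * w‖ :=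
  (one_le_re_aux ht hw).trans (re_le_norm _)

/-- The boundary identity behind the weak type estimate. -/
theorem integral_boundary {G : ℂ → ℂ} (hd : ∀ z : ℂ, 0 < z.im → DifferentiableAt ℂ G z)
    (him : ∀ z : ℂ, 0 < z.im → (G z).im ≤ 0) {g : ℝ → ℝ}
    (hg : ∀ᵐ x : ℝ, Tendsto (fun ε : ℝ => G (x + ε * I)) (𝓝[>] 0) (𝓝 (g x : ℂ)))
    {t : ℝ} (ht : 0 < t) :
    ∫ x : ℝ, ((1 + x ^ 2)⁻¹ : ℝ) * (1 + I / t * (g x : ℂ))⁻¹ = π * (1 + I / t * G I)⁻¹ := by
  set ε : ℕ → ℝ := fun n => 1 / ((n : ℝ) + 1) with hε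
  have hεpos : ∀ n, 0 < ε n := fun n => Nat.one_div_pos_of_nat
  have hεlim : Tendsto ε atTop (𝓝 0) := tendsto_one_div_add_atTop_nhds_zero_nat
  have hεlim' : Tendsto ε atTop (𝓝[>] 0) :=
    tendsto_nhdsWithin_iff.mpr ⟨hεlim, Eventually.of_forall hεpos⟩
  have him2 : ∀ n, ∀ z : ℂ, 0 ≤ z.im → 0 < (z + ε n * I).im := by
    intro n z hz
    have := hεpos n
    simp
    linarith
  set Θ : ℕ → ℂ → ℂ := fun n z => (1 + I / t * G (z + ε n * I))⁻¹ with hΘ
  have hne : ∀ n, ∀ z : ℂ, 0 ≤ z.im → (1 + I / t * G (z + ε n * I)) ≠ 0 := by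
    intro n z hz h
    have := one_le_norm_aux ht (him _ (him2 n z hz))
    rw [h] at this
    simp at this
    linarith
  have hΘd : ∀ n, ∀ z : ℂ, 0 ≤ z.im → DifferentiableAt ℂ (Θ n) z := by
    intro n z hz
    have h1 : DifferentiableAt ℂ (fun z : ℂ => z + ε n * I) z := by fun_prop
    have h2 : DifferentiableAt ℂ (fun z : ℂ => G (z + ε n * I)) z :=
      DifferentiableAt.comp z (hd _ (him2 n z hz)) h1
    have h3 : DifferentiableAt ℂ (fun z : ℂ => 1 + I / t * G (z + ε n * I)) z :=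
      (h2.const_mul _).const_add _
    exact DifferentiableAt.fun_inv h3 (hne n z hz)
  have hΘb : ∀ n, ∀ z : ℂ, 0 ≤ z.im → ‖Θ n z‖ ≤ 1 := by
    intro n z hz
    simp only [hΘ]
    rw [norm_inv]
    exact inv_le_one_of_one_le₀ (one_le_norm_aux ht (him _ (him2 n z hz)))
  have hP : ∀ n, ∫ x : ℝ, ((1 + x ^ 2)⁻¹ : ℝ) * Θ n x = π * Θ n I := fun n =>
    integral_poisson (hΘd n) (hΘb n)
  have hlimI : Tendsto (fun n => (π : ℂ) * Θ n I) atTop (𝓝 (π * (1 + I / t * G I)⁻¹)) := by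
    apply Tendsto.const_mul
    have hI : (0:ℝ) < I.im := by simp
    have hG : Tendsto (fun n => G (I + ε n * I)) atTop (𝓝 (G I)) := by
      have hc : ContinuousAt G I := (hd I hI).continuousAt
      apply hc.tendsto.comp
      have : Tendsto (fun n => (I : ℂ) + ε n * I) atTop (𝓝 (I + (0:ℝ) * I)) :=
        tendsto_const_nhds.add
          (((continuous_ofReal.tendsto 0).comp hεlim).mul tendsto_const_nhds)
      simpa using this
    apply Tendsto.inv₀ ((hG.const_mul _).const_add _)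
    intro h
    have := one_le_norm_aux ht (him _ hI)
    rw [h] at this
    simp at this
    linarith
  have hlim : Tendsto (fun n => ∫ x : ℝ, ((1 + x ^ 2)⁻¹ : ℝ) * Θ n x) atTop
      (𝓝 (∫ x : ℝ, ((1 + x ^ 2)⁻¹ : ℝ) * (1 + I / t * (g x : ℂ))⁻¹)) := by
    apply tendsto_integral_of_dominated_convergence (fun x : ℝ => (1 + x ^ 2)⁻¹)
    · intro n
      have hc : Continuous (fun x : ℝ => Θ n x) := by
        rw [continuous_iff_continuousAt]
        intro x
        exact (hΘd n x (by simp)).continuousAt.comp continuous_ofReal.continuousAt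
      have hc2 : Continuous (fun x : ℝ => (((1 + x ^ 2)⁻¹ : ℝ) : ℂ)) := by
        apply continuous_ofReal.comp
        apply Continuous.inv₀ (by fun_prop)
        intro x
        positivity
      exact (hc2.mul hc).aestronglyMeasurable
    · exact integrable_inv_one_add_sq'
    · intro n
      refine Eventually.of_forall (fun x => ?_)
      rw [norm_mul, norm_real, Real.norm_eq_abs, abs_of_pos (by positivity)]
      exact mul_le_of_le_one_right (by positivity) (hΘb n x (by simp))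
    · filter_upwards [hg] with x hx
      apply Tendsto.const_mul
      have h1 : Tendsto (fun n => G (x + ε n * I)) atTop (𝓝 (g x : ℂ)) := hx.comp hεlim'
      apply Tendsto.inv₀ ((h1.const_mul _).const_add _)
      intro h
      have := one_le_norm_aux ht (w := (g x : ℂ)) (by simp)
      rw [h] at this
      simp at this
      linarith
  simp_rw [hP] at hlim
  exact tendsto_nhds_unique hlim hlimI

lemma re_inv_aux {t : ℝ} (ht : 0 < t) (y : ℝ) :
    ((1 + I / t * (y : ℂ))⁻¹).re = 1 - y ^ 2 / (t ^ 2 + y ^ 2) := by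
  have h1 : (1 + I / t * (y : ℂ)).re = 1 := by
    rw [show I / (t:ℂ) * y = (I * y) / t by ring, add_re, div_ofReal_re]
    simp
  have h2 : (1 + I / t * (y : ℂ)).im = y / t := by
    rw [show I / (t:ℂ) * y = (I * y) / t by ring, add_im, div_ofReal_im]
    simp
  rw [inv_re, normSq_apply, h1, h2]
  have : 0 < t ^ 2 + y ^ 2 := by positivity
  field_simp
  ring

/-- Weak type estimate, integrated form. -/
theorem integral_weak {G : ℂ → ℂ} (hd : ∀ z : ℂ, 0 < z.im → DifferentiableAt ℂ G z)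
    (him : ∀ z : ℂ, 0 < z.im → (G z).im ≤ 0) {g : ℝ → ℝ} (hgm : Measurable g)
    (hg : ∀ᵐ x : ℝ, Tendsto (fun ε : ℝ => G (x + ε * I)) (𝓝[>] 0) (𝓝 (g x : ℂ)))
    {t : ℝ} (ht : 0 < t) :
    Integrable (fun x : ℝ => (1 + x ^ 2)⁻¹ * (g x ^ 2 / (t ^ 2 + g x ^ 2))) ∧
    ∫ x : ℝ, (1 + x ^ 2)⁻¹ * (g x ^ 2 / (t ^ 2 + g x ^ 2)) ≤ π * ‖G I‖ / t := by
  have hint : Integrable (fun x : ℝ => (1 + x ^ 2)⁻¹ * (g x ^ 2 / (t ^ 2 + g x ^ 2))) := by
    apply integrable_inv_one_add_sq'.mono' (by fun_prop)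
    refine Eventually.of_forall (fun x => ?_)
    have h1 : 0 < t ^ 2 + g x ^ 2 := by positivity
    rw [Real.norm_eq_abs, abs_of_nonneg (by positivity)]
    apply mul_le_of_le_one_right (by positivity)
    rw [div_le_one h1]
    nlinarith [sq_nonneg t]
  refine ⟨hint, ?_⟩
  have h0 := integral_boundary hd him hg ht
  have hint2 : Integrable
      (fun x : ℝ => (((1 + x ^ 2)⁻¹ : ℝ) : ℂ) * (1 + I / t * (g x : ℂ))⁻¹) := by
    apply integrable_inv_one_add_sq'.mono'
    · apply Measurable.aestronglyMeasurable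
      fun_prop
    · refine Eventually.of_forall (fun x => ?_)
      rw [norm_mul, norm_real, Real.norm_eq_abs, abs_of_pos (by positivity), norm_inv]
      apply mul_le_of_le_one_right (by positivity)
      exact inv_le_one_of_one_le₀ (one_le_norm_aux ht (by simp))
  have h1 := congrArg Complex.re h0
  rw [← integral_re_add_im hint2] at h1
  have hre : ∀ x : ℝ, RCLike.re ((((1 + x ^ 2)⁻¹ : ℝ) : ℂ) * (1 + I / t * (g x : ℂ))⁻¹)
      = (1 + x ^ 2)⁻¹ - (1 + x ^ 2)⁻¹ * (g x ^ 2 / (t ^ 2 + g x ^ 2)) := by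
    intro x
    rw [RCLike.re_eq_complex_re, re_ofReal_mul, re_inv_aux ht]
    ring
  simp_rw [hre] at h1
  rw [integral_sub integrable_inv_one_add_sq' hint, integral_univ_inv_one_add_sq] at h1
  have h2 : ((π:ℂ) * (1 + I / t * G I)⁻¹).re = π * ((1 + I / t * G I)⁻¹).re := by
    rw [re_ofReal_mul]
  rw [h2] at h1
  have h3 : 1 - ‖G I‖ / t ≤ ((1 + I / t * G I)⁻¹).re := by
    have hI : (0:ℝ) < I.im := by simp
    have hn := one_le_norm_aux ht (him _ hI)
    have hn0 : (1 + I / t * G I) ≠ 0 := by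
      intro h
      rw [h] at hn
      simp at hn
      linarith
    have e : (1 + I / t * G I)⁻¹ = 1 - (I / t * G I) * (1 + I / t * G I)⁻¹ := by
      have := mul_inv_cancel₀ hn0
      rw [add_mul, one_mul] at this
      linear_combination this
    have h4 : ((I / t * G I) * (1 + I / t * G I)⁻¹).re ≤ ‖G I‖ / t := by
      refine (re_le_norm _).trans ?_
      rw [norm_mul, norm_inv, norm_mul, norm_div, norm_I, norm_real, Real.norm_eq_abs,
        abs_of_pos ht]
      have : ‖1 + I / t * G I‖⁻¹ ≤ 1 := inv_le_one_of_one_le₀ hn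
      calc 1 / t * ‖G I‖ * ‖1 + I / t * G I‖⁻¹ ≤ 1 / t * ‖G I‖ * 1 := by gcongr
        _ = ‖G I‖ / t := by ring
    rw [e, sub_re, one_re]
    linarith
  have h5 : π * (1 - ‖G I‖ / t) ≤ π * ((1 + I / t * G I)⁻¹).re :=
    mul_le_mul_of_nonneg_left h3 Real.pi_pos.le
  have h6 : π - ∫ x : ℝ, (1 + x ^ 2)⁻¹ * (g x ^ 2 / (t ^ 2 + g x ^ 2))
      = π * ((1 + I / t * G I)⁻¹).re := by
    rw [← h1]
    simp
  have h7 : π * (1 - ‖G I‖ / t) = π - π * ‖G I‖ / t := by ring
  linarith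

/-- Weak type estimate on bounded sets. -/
theorem weak_type {G : ℂ → ℂ} (hd : ∀ z : ℂ, 0 < z.im → DifferentiableAt ℂ G z)
    (him : ∀ z : ℂ, 0 < z.im → (G z).im ≤ 0) {g : ℝ → ℝ} (hgm : Measurable g)
    (hg : ∀ᵐ x : ℝ, Tendsto (fun ε : ℝ => G (x + ε * I)) (𝓝[>] 0) (𝓝 (g x : ℂ)))
    {t : ℝ} (ht : 0 < t) {C : ℝ} (hC : ‖G I‖ ≤ C) (L : ℝ) :
    volume {x : ℝ | |x| ≤ L ∧ t ≤ |g x|} ≤ ENNReal.ofReal ((1 + L ^ 2) * (2 * π * C / t)) := by
  obtain ⟨hint, hle⟩ := integral_weak hd him hgm hg ht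
  have hC0 : 0 ≤ C := (norm_nonneg _).trans hC
  set f : ℝ → ℝ := fun x => (1 + x ^ 2)⁻¹ * (g x ^ 2 / (t ^ 2 + g x ^ 2)) with hf
  have hsub : {x : ℝ | |x| ≤ L ∧ t ≤ |g x|} ⊆ {x : ℝ | (1 + L ^ 2)⁻¹ / 2 ≤ f x} := by
    rintro x ⟨h1, h2⟩
    simp only [mem_ofPred_eq, hf]
    have h3 : t ^ 2 ≤ g x ^ 2 := by
      rw [← sq_abs (g x)]
      exact pow_le_pow_left₀ ht.le h2 2
    have h4 : (1:ℝ) / 2 ≤ g x ^ 2 / (t ^ 2 + g x ^ 2) := by
      rw [div_le_div_iff₀ (by norm_num) (by positivity)]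
      linarith
    have h5 : (1 + L ^ 2)⁻¹ ≤ (1 + x ^ 2)⁻¹ := by
      apply inv_anti₀ (by positivity)
      have : x ^ 2 ≤ L ^ 2 := by
        rw [← sq_abs x]
        exact pow_le_pow_left₀ (abs_nonneg x) h1 2
      linarith
    calc (1 + L ^ 2)⁻¹ / 2 = (1 + L ^ 2)⁻¹ * (1 / 2) := by ring
      _ ≤ (1 + x ^ 2)⁻¹ * (g x ^ 2 / (t ^ 2 + g x ^ 2)) := by gcongr
  have hnn : 0 ≤ᵐ[volume] f := Eventually.of_forall (fun x => by
    simp only [hf, Pi.zero_apply]
    positivity)
  have hM := mul_meas_ge_le_integral_of_nonneg hnn hint ((1 + L ^ 2)⁻¹ / 2)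
  have hpos : 0 < (1 + L ^ 2)⁻¹ / 2 := by positivity
  have hfin : volume {x : ℝ | (1 + L ^ 2)⁻¹ / 2 ≤ f x} ≠ ⊤ :=
    (hint.measure_ge_lt_top hpos).ne
  have hreal : volume.real {x : ℝ | (1 + L ^ 2)⁻¹ / 2 ≤ f x} ≤ (1 + L ^ 2) * (2 * π * C / t) := by
    have h6 : (1 + L ^ 2)⁻¹ / 2 * volume.real {x : ℝ | (1 + L ^ 2)⁻¹ / 2 ≤ f x} ≤ π * C / t := by
      refine hM.trans (hle.trans ?_)
      gcongr
    have h7 : volume.real {x : ℝ | (1 + L ^ 2)⁻¹ / 2 ≤ f x}
        = (2 * (1 + L ^ 2)) *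
          ((1 + L ^ 2)⁻¹ / 2 * volume.real {x : ℝ | (1 + L ^ 2)⁻¹ / 2 ≤ f x}) := by
      field_simp
    rw [h7]
    calc _ ≤ (2 * (1 + L ^ 2)) * (π * C / t) := by gcongr
      _ = _ := by ring
  calc volume {x : ℝ | |x| ≤ L ∧ t ≤ |g x|} ≤ volume {x : ℝ | (1 + L ^ 2)⁻¹ / 2 ≤ f x} :=
        measure_mono hsub
    _ = ENNReal.ofReal (volume.real {x : ℝ | (1 + L ^ 2)⁻¹ / 2 ≤ f x}) :=
        (ofReal_measureReal hfin).symm
    _ ≤ _ := ENNReal.ofReal_le_ofReal hreal

end Pool.Agent.W_MP_b6e843_mp
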