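import Pool.Agent.W_MP_b6e843_mp.Poly
import Pool.Agent.W_MP_b6e843_mp.Herglotz

/-! # Transfer matrices: deterministic facts -/

namespace Pool.Agent.W_MP_b6e843_mp

open Complex MeasureTheory Set Filter Polynomial
open scoped Topology Real

section Matrices

variable {K : Type*} [Field K]

/-- One step transfer matrix. -/
def tmat (b : K) : Matrix (Fin 2) (Fin 2) K := !![b, -1; 1, 0]

/-- Product of `m` transfer matrices, starting at `i`. -/
def tm (b : ℕ → K) (i : ℕ) : ℕ → Matrix (Fin 2) (Fin 2) K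
  | 0 => 1
  | (m + 1) => tmat (b (i + m)) * tm b i m

@[simp] lemma tm_zero (b : ℕ → K) (i : ℕ) : tm b i 0 = 1 := rfl

lemma tm_succ (b : ℕ → K) (i m : ℕ) : tm b i (m + 1) = tmat (b (i + m)) * tm b i m := rfl

lemma det_tmat (b : K) : (tmat b).det = 1 := by
  simp [tmat, Matrix.det_fin_two]

lemma det_tm (b : ℕ → K) (i m : ℕ) : (tm b i m).det = 1 := by
  induction m with
  | zero => simp
  | succ m ih => rw [tm_succ, Matrix.det_mul, det_tmat, ih, one_mul]

lemma tm_add (b : ℕ → K) (i m m' : ℕ) : tm b i (m + m') = tm b (i + m) m' * tm b i m := by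
  induction m' with
  | zero => simp
  | succ m' ih =>
    rw [← add_assoc, tm_succ, tm_succ, ih, Matrix.mul_assoc, add_assoc]

lemma tm_succ' (b : ℕ → K) (i m : ℕ) : tm b i (m + 1) = tm b (i + 1) m * tmat (b i) := by
  rw [add_comm, tm_add, tm_succ]
  simp

lemma tm_succ_00 (b : ℕ → K) (i m : ℕ) :
    tm b i (m + 1) 0 0 = b (i + m) * tm b i m 0 0 - tm b i m 1 0 := by
  rw [tm_succ, Matrix.mul_apply, Fin.sum_univ_two]
  simp [tmat]
  ring

lemma tm_succ_01 (b : ℕ → K) (i m : ℕ) :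
    tm b i (m + 1) 0 1 = b (i + m) * tm b i m 0 1 - tm b i m 1 1 := by
  rw [tm_succ, Matrix.mul_apply, Fin.sum_univ_two]
  simp [tmat]
  ring

lemma tm_succ_10 (b : ℕ → K) (i m : ℕ) : tm b i (m + 1) 1 0 = tm b i m 0 0 := by
  rw [tm_succ, Matrix.mul_apply, Fin.sum_univ_two]
  simp [tmat]

lemma tm_succ_11 (b : ℕ → K) (i m : ℕ) : tm b i (m + 1) 1 1 = tm b i m 0 1 := by
  rw [tm_succ, Matrix.mul_apply, Fin.sum_univ_two]
  simp [tmat]

lemma tm_succ'_00 (b : ℕ → K) (i m : ℕ) :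
    tm b i (m + 1) 0 0 = tm b (i + 1) m 0 0 * b i + tm b (i + 1) m 0 1 := by
  rw [tm_succ', Matrix.mul_apply, Fin.sum_univ_two]
  simp [tmat]

lemma tm_succ'_01 (b : ℕ → K) (i m : ℕ) :
    tm b i (m + 1) 0 1 = - tm b (i + 1) m 0 0 := by
  rw [tm_succ', Matrix.mul_apply, Fin.sum_univ_two]
  simp [tmat]

end Matrices

section Upper

variable {b : ℕ → ℂ} {y : ℝ}

lemma im_sub_inv {w c : ℂ} (hy : 0 < y) (hc : y ≤ c.im) (hw : y ≤ w.im) : y ≤ (c - w⁻¹).im := by
  have hw0 : w ≠ 0 := by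
    intro h
    rw [h] at hw
    simp at hw
    linarith
  have h1 : (w⁻¹).im ≤ 0 := by
    rw [inv_im]
    apply div_nonpos_of_nonpos_of_nonneg _ (normSq_nonneg _)
    linarith
  rw [sub_im]
  linarith

lemma norm_inv_le_of_im {w : ℂ} (hy : 0 < y) (hw : y ≤ w.im) : ‖w⁻¹‖ ≤ y⁻¹ := by
  rw [norm_inv]
  apply inv_anti₀ hy
  exact hw.trans ((le_abs_self _).trans (abs_im_le_norm _))

/-- The Herglotz ratio `u_m/u_{m-1}`. -/
lemma tm_ratio (hy : 0 < y) (hb : ∀ j, y ≤ (b j).im) (i m : ℕ) :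
    tm b i (m + 1) 1 0 ≠ 0 ∧ y ≤ (tm b i (m + 1) 0 0 / tm b i (m + 1) 1 0).im := by
  induction m with
  | zero =>
    have h0 : tm b i 1 1 0 = 1 := by rw [tm_succ_10]; simp
    have h1 : tm b i 1 0 0 = b i := by rw [tm_succ_00]; simp
    rw [zero_add, h0, h1]
    simpa using hb i
  | succ m ih =>
    obtain ⟨h1, h2⟩ := ih
    have h3 : tm b i (m + 1) 0 0 ≠ 0 := by
      intro h
      rw [h] at h2
      simp at h2
      linarith
    rw [tm_succ_10 b i (m + 1)]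
    refine ⟨h3, ?_⟩
    have h4 : tm b i (m + 1 + 1) 0 0 / tm b i (m + 1) 0 0
        = b (i + (m + 1)) - (tm b i (m + 1) 0 0 / tm b i (m + 1) 1 0)⁻¹ := by
      rw [tm_succ_00]
      field_simp
    rw [h4]
    exact im_sub_inv hy (hb _) h2

lemma tm_00_ne_zero (hy : 0 < y) (hb : ∀ j, y ≤ (b j).im) (i m : ℕ) : tm b i m 0 0 ≠ 0 := by
  have := (tm_ratio hy hb i m).1
  rwa [tm_succ_10] at this

lemma norm_tm_ratio_le (hy : 0 < y) (hb : ∀ j, y ≤ (b j).im) {B : ℝ} (hB : ∀ j, ‖b j‖ ≤ B)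
    (i m : ℕ) : ‖tm b i (m + 1) 0 0 / tm b i (m + 1) 1 0‖ ≤ B + y⁻¹ := by
  cases m with
  | zero =>
    have h0 : tm b i 1 1 0 = 1 := by rw [tm_succ_10]; simp
    have h1 : tm b i 1 0 0 = b i := by rw [tm_succ_00]; simp
    rw [zero_add, h0, h1, div_one]
    have := hB i
    have := inv_pos.mpr hy
    linarith
  | succ m =>
    obtain ⟨h1, h2⟩ := tm_ratio hy hb i m
    have h3 : tm b i (m + 1) 0 0 ≠ 0 := by
      intro h
      rw [h] at h2
      simp at h2
      linarith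
    have h4 : tm b i (m + 1 + 1) 0 0 / tm b i (m + 1 + 1) 1 0
        = b (i + (m + 1)) - (tm b i (m + 1) 0 0 / tm b i (m + 1) 1 0)⁻¹ := by
      rw [tm_succ_00 b i (m + 1), tm_succ_10 b i (m + 1)]
      field_simp
    rw [h4]
    exact (norm_sub_le _ _).trans (add_le_add (hB _) (norm_inv_le_of_im hy h2))

/-- The Herglotz ratio `q_m/u_m`. -/
lemma tm_quot (hy : 0 < y) (hb : ∀ j, y ≤ (b j).im) (m : ℕ) : ∀ i : ℕ,
    (-(tm b i m 0 1 / tm b i m 0 0)).im ≤ 0 ∧ ‖tm b i m 0 1 / tm b i m 0 0‖ ≤ y⁻¹ := by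
  induction m with
  | zero =>
    intro i
    simp [hy.le]
  | succ m ih =>
    intro i
    obtain ⟨h1, h2⟩ := ih (i + 1)
    have h3 : tm b (i + 1) m 0 0 ≠ 0 := tm_00_ne_zero hy hb _ _
    have h5 : y ≤ (b i + tm b (i + 1) m 0 1 / tm b (i + 1) m 0 0).im := by
      rw [add_im]
      rw [neg_im] at h1
      have := hb i
      linarith
    have h6 : tm b i (m + 1) 0 1 / tm b i (m + 1) 0 0
        = - (b i + tm b (i + 1) m 0 1 / tm b (i + 1) m 0 0)⁻¹ := by
      have h7 : tm b i (m + 1) 0 0 ≠ 0 := tm_00_ne_zero hy hb _ _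
      rw [tm_succ'_00] at h7 ⊢
      rw [tm_succ'_01]
      have h8 : b i + tm b (i + 1) m 0 1 / tm b (i + 1) m 0 0 ≠ 0 := by
        intro h
        apply h7
        field_simp at h
        linear_combination h
      field_simp
    rw [h6, neg_neg, norm_neg]
    refine ⟨?_, norm_inv_le_of_im hy h5⟩
    rw [inv_im]
    apply div_nonpos_of_nonpos_of_nonneg _ (normSq_nonneg _)
    linarith

end Upper

end Pool.Agent.W_MP_b6e843_mp
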