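import Pool.Agent.W_MP_b6e843_mp.Integrate

/-! # Choice of parameters -/

namespace Pool.Agent.W_MP_b6e843_mp

open MeasureTheory Set Filter Matrix ProbabilityTheory
open scoped Topology Real ENNReal

variable {Ω : Type*} [MeasurableSpace Ω] {P : Measure Ω} [IsProbabilityMeasure P]
  {s : ℕ → ℕ} {lam : ℝ} {v : Vertex s → Ω → ℝ} {ν : Measure ℝ}

lemma exists_nat_div_le {Y ε : ℝ} (hY : 0 ≤ Y) (hε : 0 < ε) : ∃ K : ℕ, 0 < K ∧ Y / K ≤ ε := by
  obtain ⟨K, hK⟩ := exists_nat_gt (Y / ε)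
  refine ⟨K + 1, Nat.succ_pos K, ?_⟩
  have h1 : (0:ℝ) < ((K + 1 : ℕ) : ℝ) := by positivity
  rw [div_le_iff₀ h1]
  rw [div_lt_iff₀ hε] at hK
  push_cast
  nlinarith

theorem main_small [IsProbabilityMeasure ν] (hs : ∀ n, 0 < s n)
    (hdiv : ¬ Summable (fun n => 1 / (s n : ℝ))) (hm : ∀ x, Measurable (v x))
    (hind : iIndepFun v P) (hlaw : ∀ x, P.map (v x) = ν) (hsupp : ν (Icc (-1) 1)ᶜ = 0)
    (hlam : 0 < lam) {τ p : ℝ} (hτ : 0 < τ) (hp : 0 < p)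
    (hpτ : p ≤ (ν.prod ν).real {q | τ ≤ |q.1 - q.2|}) {R L ε : ℝ} (hR : 1 ≤ R) (hL : 0 < L)
    (hε : 0 < ε) : ∃ (n K : ℕ) (Q : ℕ → ℕ → ℝ), 0 < K ∧ (∀ j j', 0 ≤ Q j j') ∧
      (∀ j j', Q j j' ≠ 0 → j < j' ∧ j' < n) ∧
      ∑ j ∈ Finset.range n, ∑ j' ∈ Finset.range n, Q j j' = K ∧
      ∫ E in Icc (-L) L, P.real (CSet (bE s lam v E) R n Q K) ≤ ε := by
  set α := ε / (16 * L) with hα
  have hα0 : 0 < α := by positivity
  have e1 : 2 * L * α = ε / 8 := by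
    rw [hα]
    field_simp
    norm_num
  set r := min 1 (ε * p / 64) with hr
  have hr0 : 0 < r := lt_min one_pos (by positivity)
  have hr1 : r ≤ 1 := min_le_left _ _
  have e2 : 8 * r / p ≤ ε / 8 := by
    have : r ≤ ε * p / 64 := min_le_right _ _
    rw [div_le_iff₀ hp]
    linarith
  set C0 := R ^ 2 / α ^ 2 with hC0
  have hC00 : 0 < C0 := by positivity
  set t := 16 * ((1 + L ^ 2) * (2 * π * (2 + lam ^ 2))) / ε with ht
  have hA : 0 < (1 + L ^ 2) * (2 * π * (2 + lam ^ 2)) := by positivity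
  have ht0 : 0 < t := by positivity
  have e3 : 2 * ((1 + L ^ 2) * (2 * π * (2 + lam ^ 2) / t)) = ε / 8 := by
    rw [ht]
    field_simp
    norm_num
  obtain ⟨k, hk, hkle⟩ := exists_nat_div_le (Y := 2 * L * C0 * 48) (ε := ε / 8)
    (by positivity) (by positivity)
  have e4 : 2 * L * C0 * (48 / k) ≤ ε / 8 := by
    refine le_trans (le_of_eq ?_) hkle
    ring
  set p2 := 1 - Real.exp (-(p * (lam * τ / (L + lam) ^ 2) ^ 2 * r ^ 2 / 4)) with hp2
  have hp20 : 0 < p2 := by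
    have : Real.exp (-(p * (lam * τ / (L + lam) ^ 2) ^ 2 * r ^ 2 / 4)) < 1 := by
      rw [Real.exp_lt_one_iff]
      have h0 : 0 < lam * τ / (L + lam) ^ 2 := by positivity
      have : 0 < p * (lam * τ / (L + lam) ^ 2) ^ 2 * r ^ 2 / 4 := by positivity
      linarith
    linarith
  set η := p2 / 8 with hη
  have hη0 : 0 < η := by positivity
  have hη4 : 4 * η < p2 := by
    rw [hη]
    linarith
  set R' := max 1 (24 * C0 * ((1 + L ^ 2) * (2 * π)) * 8 / (η * ε)) with hR'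
  have hR'1 : 1 ≤ R' := le_max_left _ _
  have hR'0 : 0 < R' := by linarith
  have e5 : 24 * C0 * ((1 + L ^ 2) * (2 * π * 1 / R')) / η ≤ ε / 8 := by
    have h1 : 24 * C0 * ((1 + L ^ 2) * (2 * π)) * 8 / (η * ε) ≤ R' := le_max_right _ _
    rw [div_le_iff₀ (by positivity)] at h1
    rw [div_le_iff₀ hη0]
    have e : 24 * C0 * ((1 + L ^ 2) * (2 * π * 1 / R'))
        = 24 * C0 * ((1 + L ^ 2) * (2 * π)) / R' := by ring
    rw [e, div_le_iff₀ hR'0]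
    linarith
  set cD := 1 / (2 * R' ^ 4) * (p2 - 4 * η) with hcD
  have hcD0 : 0 < cD := mul_pos (by positivity) (by linarith)
  obtain ⟨K, hK, hKle⟩ := exists_nat_div_le
    (Y := 2 * L * C0 * (16 + 96 * (k * (2 * aper R t + 1)) ^ 2 / cD)) (ε := ε / 8)
    (by positivity) (by positivity)
  obtain ⟨n, Q, hQ0, hQs, hQsum, hQ1, hQ2, hQJ⟩ := exists_windows
    (w := fun n => 1 / (s n : ℝ)) (fun n => by positivity) hdiv K
  refine ⟨n, K, Q, hK, hQ0, hQs, hQsum, ?_⟩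
  have h := integrated (P := P) hs hm hind hlaw hsupp hlam hR ht0 hα0 hL hr0 hr1 hτ hp hpτ hη0 hη4
    hR'1 hk hK hQ0 hQs hQsum hQ1 hQ2 hQJ
  rw [← hp2, ← hcD, ← hC0] at h
  linarith

end Pool.Agent.W_MP_b6e843_mp
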