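import Pool.Agent.W_MP_b6e843_mp.Density
import Pool.Agent.W_MP_b6e843_mp.Params

/-! # Conclusion -/

namespace Pool.Agent.W_MP_b6e843_mp

open MeasureTheory Set Filter ProbabilityTheory
open scoped Topology Real ENNReal

section Det

variable {s : ℕ → ℕ} {lam : ℝ} {u : Vertex s → ℝ} {H : L2 s →L[ℂ] L2 s} {μ : Measure ℝ}

/-- The averaged number of good pairs, as a function of the energy. -/
noncomputable def goodE (s : ℕ → ℕ) (lam : ℝ) (u : Vertex s → ℝ) (R : ℝ) (n : ℕ)
    (Q : ℕ → ℕ → ℝ) (E : ℝ) : ℝ :=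
  ∑ j ∈ Finset.range n, ∑ j' ∈ Finset.range n,
    Q j j' * (BdE s lam u R (j + 1) ∩ BdE s lam u R (j' + 1)).indicator (fun _ => (1:ℝ)) E

/-- Deterministic bound for the a.c. support. -/
theorem volume_Aset_le (hs : ∀ n, 0 < s n) (hH : IsAnderson s lam u H) (hsa : IsSelfAdjoint H)
    (hμ : IsSpectralMeasure H (shellVec s 0) μ) {L δ R : ℝ} (hδ : 0 < δ) (hR : 1 ≤ R)
    {n K : ℕ} {Q : ℕ → ℕ → ℝ} (hK : 0 < K) (hQ0 : ∀ j j', 0 ≤ Q j j')
    (hQsum : ∑ j ∈ Finset.range n, ∑ j' ∈ Finset.range n, Q j j' = K) :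
    volume (Aset μ L δ) ≤ volume {E : ℝ | |E| ≤ L ∧ E ∈ BdE s lam u R n ∧
        (K : ℝ) / 2 ≤ goodE s lam u R n Q E} + 5 * ENNReal.ofReal (eδ L δ R) := by
  have hK' : (0:ℝ) < K := by exact_mod_cast hK
  set A := Aset μ L δ with hA
  have hAm : MeasurableSet A := measurableSet_Aset μ L δ
  set e := ENNReal.ofReal (eδ L δ R) with he
  have hnot : ∀ i, volume (A ∩ (BdE s lam u R i)ᶜ) ≤ e := fun i =>
    volume_not_BdE hs hH hsa hμ i hδ hR
  have hBm : ∀ i, MeasurableSet (BdE s lam u R i) := measurableSet_BdE s lam u R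
  set G : ℕ → ℕ → Set ℝ := fun j j' => BdE s lam u R (j + 1) ∩ BdE s lam u R (j' + 1) with hG
  have hGm : ∀ j j', MeasurableSet (G j j') := fun j j' => (hBm _).inter (hBm _)
  set f : ℝ → ℝ≥0∞ := fun E => ∑ j ∈ Finset.range n, ∑ j' ∈ Finset.range n,
    ENNReal.ofReal (Q j j') * (A ∩ (G j j')ᶜ).indicator (fun _ => (1:ℝ≥0∞)) E with hf
  have hind : ∀ j j', Measurable ((A ∩ (G j j')ᶜ).indicator (fun _ => (1:ℝ≥0∞))) := fun j j' =>
    measurable_const.indicator (hAm.inter (hGm j j').compl)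
  have hterm : ∀ j j', Measurable (fun E => ENNReal.ofReal (Q j j') *
      (A ∩ (G j j')ᶜ).indicator (fun _ => (1:ℝ≥0∞)) E) := fun j j' => (hind j j').const_mul _
  have hfm : Measurable f := by
    apply Finset.measurable_fun_sum
    intro j _
    apply Finset.measurable_fun_sum
    intro j' _
    exact hterm j j'
  have hfint : ∫⁻ E, f E ≤ ENNReal.ofReal K * (2 * e) := by
    simp only [hf]
    rw [lintegral_finsetSum _ (fun j _ => Finset.measurable_fun_sum _ (fun j' _ => hterm j j'))]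
    have h1 : ∀ j, ∫⁻ E, ∑ j' ∈ Finset.range n, ENNReal.ofReal (Q j j') *
        (A ∩ (G j j')ᶜ).indicator (fun _ => (1:ℝ≥0∞)) E
        ≤ ∑ j' ∈ Finset.range n, ENNReal.ofReal (Q j j') * (2 * e) := by
      intro j
      rw [lintegral_finsetSum _ (fun j' _ => hterm j j')]
      apply Finset.sum_le_sum
      intro j' _
      rw [lintegral_const_mul _ (hind j j'), lintegral_indicator (hAm.inter (hGm j j').compl)]
      apply mul_le_mul_right
      simp only [lintegral_const, one_mul, Measure.restrict_apply MeasurableSet.univ, univ_inter]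
      have hsub : A ∩ (G j j')ᶜ ⊆ (A ∩ (BdE s lam u R (j + 1))ᶜ) ∪
          (A ∩ (BdE s lam u R (j' + 1))ᶜ) := by
        rintro E ⟨h1, h2⟩
        by_cases h3 : E ∈ BdE s lam u R (j + 1)
        · right
          exact ⟨h1, fun h4 => h2 ⟨h3, h4⟩⟩
        · exact Or.inl ⟨h1, h3⟩
      calc volume (A ∩ (G j j')ᶜ) ≤ _ := measure_mono hsub
        _ ≤ _ := measure_union_le _ _
        _ ≤ e + e := add_le_add (hnot _) (hnot _)
        _ = 2 * e := (two_mul e).symm
    calc _ ≤ ∑ j ∈ Finset.range n, ∑ j' ∈ Finset.range n, ENNReal.ofReal (Q j j') * (2 * e) :=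
          Finset.sum_le_sum (fun j _ => h1 j)
      _ = ENNReal.ofReal K * (2 * e) := by
          rw [← hQsum, ENNReal.ofReal_sum_of_nonneg
            (fun j _ => Finset.sum_nonneg (fun j' _ => hQ0 j j')), Finset.sum_mul]
          apply Finset.sum_congr rfl
          intro j _
          rw [ENNReal.ofReal_sum_of_nonneg (fun j' _ => hQ0 j j'), Finset.sum_mul]
  have hsub : A ⊆ ({E : ℝ | |E| ≤ L ∧ E ∈ BdE s lam u R n ∧ (K : ℝ) / 2 ≤ goodE s lam u R n Q E}
      ∪ (A ∩ (BdE s lam u R n)ᶜ)) ∪ {E | ENNReal.ofReal ((K : ℝ) / 2) ≤ f E} := by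
    intro E hE
    by_cases hbd : E ∈ BdE s lam u R n
    · by_cases hgood : (K : ℝ) / 2 ≤ goodE s lam u R n Q E
      · exact Or.inl (Or.inl ⟨hE.1, hbd, hgood⟩)
      · right
        have hlt := not_le.mp hgood
        simp only [mem_ofPred_eq]
        have hsum : ∑ j ∈ Finset.range n, ∑ j' ∈ Finset.range n,
            Q j j' * (G j j')ᶜ.indicator (fun _ => (1:ℝ)) E = K - goodE s lam u R n Q E := by
          rw [← hQsum]
          unfold goodE
          rw [← Finset.sum_sub_distrib]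
          apply Finset.sum_congr rfl
          intro j _
          rw [← Finset.sum_sub_distrib]
          apply Finset.sum_congr rfl
          intro j' _
          by_cases hc : E ∈ G j j'
          · rw [indicator_of_notMem (by simpa using hc), indicator_of_mem hc]
            ring
          · rw [indicator_of_mem (by simpa using hc), indicator_of_notMem hc]
            ring
        have hfE : f E = ENNReal.ofReal (∑ j ∈ Finset.range n, ∑ j' ∈ Finset.range n,
            Q j j' * (G j j')ᶜ.indicator (fun _ => (1:ℝ)) E) := by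
          have hnn : ∀ j j', 0 ≤ Q j j' * (G j j')ᶜ.indicator (fun _ => (1:ℝ)) E := fun j j' =>
            mul_nonneg (hQ0 j j') (indicator_nonneg (fun _ _ => zero_le_one) _)
          simp only [hf]
          rw [ENNReal.ofReal_sum_of_nonneg
            (fun j _ => Finset.sum_nonneg (fun j' _ => hnn j j'))]
          apply Finset.sum_congr rfl
          intro j _
          rw [ENNReal.ofReal_sum_of_nonneg (fun j' _ => hnn j j')]
          apply Finset.sum_congr rfl
          intro j' _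
          rw [ENNReal.ofReal_mul (hQ0 j j')]
          congr 1
          by_cases hc : E ∈ G j j'
          · rw [indicator_of_notMem (fun h => h.2 hc),
              indicator_of_notMem (by simpa using hc), ENNReal.ofReal_zero]
          · have hmem : E ∈ A ∩ (G j j')ᶜ := ⟨hE, hc⟩
            rw [indicator_of_mem hmem, indicator_of_mem (by simpa using hc),
              ENNReal.ofReal_one]
        rw [hfE, hsum]
        apply ENNReal.ofReal_le_ofReal
        linarith
    · exact Or.inl (Or.inr ⟨hE, hbd⟩)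
  have hMark : volume {E | ENNReal.ofReal ((K : ℝ) / 2) ≤ f E} ≤ 4 * e := by
    have h1 := mul_meas_ge_le_lintegral₀ hfm.aemeasurable (μ := volume)
      (ENNReal.ofReal ((K : ℝ) / 2))
    have h2 : ENNReal.ofReal ((K : ℝ) / 2) * volume {E | ENNReal.ofReal ((K : ℝ) / 2) ≤ f E}
        ≤ ENNReal.ofReal ((K : ℝ) / 2) * (4 * e) := by
      refine (h1.trans hfint).trans (le_of_eq ?_)
      have : ENNReal.ofReal (K : ℝ) = ENNReal.ofReal ((K : ℝ) / 2) * 2 := by
        have h2 : (2 : ℝ≥0∞) = ENNReal.ofReal 2 := by simp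
        rw [h2, ← ENNReal.ofReal_mul (by positivity)]
        congr 1
        ring
      rw [this]
      ring
    exact (ENNReal.mul_le_mul_iff_right (by
      rw [Ne, ENNReal.ofReal_eq_zero, not_le]
      positivity) ENNReal.ofReal_ne_top).mp h2
  calc volume A ≤ _ := measure_mono hsub
    _ ≤ _ := measure_union_le _ _
    _ ≤ (_ + _) + _ := by
        gcongr
        exact measure_union_le _ _
    _ ≤ (volume {E : ℝ | |E| ≤ L ∧ E ∈ BdE s lam u R n ∧ (K : ℝ) / 2 ≤ goodE s lam u R n Q E}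
        + e) + 4 * e := by
        gcongr
        exact hnot n
    _ = _ := by ring

lemma tendsto_eδ (L δ : ℝ) : Tendsto (fun i : ℕ => eδ L δ ((i : ℝ) + 1)) atTop (𝓝 0) := by
  have h1 : Tendsto (fun i : ℕ => (i : ℝ) + 1) atTop atTop :=
    tendsto_atTop_add_const_right _ _ tendsto_natCast_atTop_atTop
  have h2 : Tendsto (fun R : ℝ => eδ L δ R) atTop (𝓝 0) := by
    unfold eδ
    have a1 : Tendsto (fun R : ℝ => 1 / (δ * R ^ 2)) atTop (𝓝 0) := by
      have : Tendsto (fun R : ℝ => (1 / δ) * (R ^ 2)⁻¹) atTop (𝓝 ((1 / δ) * 0)) :=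
        ((tendsto_pow_atTop (two_ne_zero)).inv_tendsto_atTop).const_mul _
      rw [mul_zero] at this
      refine this.congr (fun R => ?_)
      rw [one_div, one_div, mul_inv]
    have a2 : Tendsto (fun R : ℝ => 1 / (δ * R)) atTop (𝓝 0) := by
      have : Tendsto (fun R : ℝ => (1 / δ) * R⁻¹) atTop (𝓝 ((1 / δ) * 0)) :=
        tendsto_inv_atTop_zero.const_mul _
      rw [mul_zero] at this
      refine this.congr (fun R => ?_)
      rw [one_div, one_div, mul_inv]
    have a3 : Tendsto (fun R : ℝ => (1 + L ^ 2) * (2 * π * 1 / √R)) atTop (𝓝 0) := by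
      have : Tendsto (fun R : ℝ => ((1 + L ^ 2) * (2 * π * 1)) * (√R)⁻¹) atTop
          (𝓝 (((1 + L ^ 2) * (2 * π * 1)) * 0)) :=
        (Real.tendsto_sqrt_atTop.inv_tendsto_atTop).const_mul _
      rw [mul_zero] at this
      refine this.congr (fun R => ?_)
      rw [div_eq_mul_inv]
      ring
    have := (a1.const_mul 2).add ((a2.add a3).const_mul 2)
    simpa using this
  exact h2.comp h1

/-- If the exceptional sets have measure tending to zero, the spectral measure at the root is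
singular. -/
theorem singular_of_tendsto (hs : ∀ n, 0 < s n) (hH : IsAnderson s lam u H)
    (hsa : IsSelfAdjoint H) (hμ : IsSpectralMeasure H (shellVec s 0) μ)
    {n K : ℕ → ℕ → ℕ} {Q : ℕ → ℕ → ℕ → ℕ → ℝ} (hK : ∀ L i, 0 < K L i)
    (hQ0 : ∀ L i j j', 0 ≤ Q L i j j')
    (hQsum : ∀ L i, ∑ j ∈ Finset.range (n L i), ∑ j' ∈ Finset.range (n L i), Q L i j j' = K L i)
    (hlim : ∀ L : ℕ, Tendsto (fun i : ℕ => volume {E : ℝ | |E| ≤ (L : ℝ) ∧
      E ∈ BdE s lam u ((i : ℝ) + 1) (n L i) ∧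
      (K L i : ℝ) / 2 ≤ goodE s lam u ((i : ℝ) + 1) (n L i) (Q L i) E}) atTop (𝓝 0)) :
    μ ⟂ₘ (volume : Measure ℝ) := by
  have hfin := hμ.1
  have hA : ∀ (L : ℕ) (δ : ℝ), 0 < δ → volume (Aset μ L δ) = 0 := by
    intro L δ hδ
    have h1 : ∀ i : ℕ, volume (Aset μ L δ) ≤ volume {E : ℝ | |E| ≤ (L : ℝ) ∧
      E ∈ BdE s lam u ((i : ℝ) + 1) (n L i) ∧
      (K L i : ℝ) / 2 ≤ goodE s lam u ((i : ℝ) + 1) (n L i) (Q L i) E}
        + 5 * ENNReal.ofReal (eδ L δ ((i : ℝ) + 1)) := fun i =>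
      volume_Aset_le hs hH hsa hμ hδ (by linarith [(Nat.cast_nonneg i : (0:ℝ) ≤ i)]) (hK L i)
        (hQ0 L i) (hQsum L i)
    have h2 : Tendsto (fun i : ℕ => 5 * ENNReal.ofReal (eδ L δ ((i : ℝ) + 1))) atTop (𝓝 0) := by
      have := (ENNReal.tendsto_ofReal (tendsto_eδ (L : ℝ) δ))
      rw [ENNReal.ofReal_zero] at this
      have h3 := ENNReal.Tendsto.const_mul (a := 5) this (Or.inr (by norm_num))
      simpa using h3
    have h3 := (hlim L).add h2
    rw [add_zero] at h3
    exact le_antisymm (ge_of_tendsto' h3 h1) zero_le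
  rw [← Measure.rnDeriv_eq_zero]
  have h4 : ∀ᵐ E : ℝ, ∀ (L m : ℕ), E ∉ Aset μ L (1 / ((m : ℝ) + 1)) := by
    rw [ae_all_iff]
    intro L
    rw [ae_all_iff]
    intro m
    exact measure_eq_zero_iff_ae_notMem.mp (hA L _ (by positivity))
  filter_upwards [h4] with E hE
  by_contra hne
  have hpos : 0 < μ.rnDeriv volume E := by
    rw [pos_iff_ne_zero]
    exact hne
  obtain ⟨L, hL⟩ := exists_nat_ge |E|
  obtain ⟨m, hm⟩ := ENNReal.exists_inv_nat_lt hpos.ne'
  apply hE L m
  refine ⟨hL, ?_⟩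
  refine le_trans ?_ hm.le
  have h5 : ENNReal.ofReal (1 / ((m : ℝ) + 1)) = ((m + 1 : ℕ) : ℝ≥0∞)⁻¹ := by
    rw [one_div, ENNReal.ofReal_inv_of_pos (by positivity)]
    congr 1
    rw [show (m : ℝ) + 1 = ((m + 1 : ℕ) : ℝ) by push_cast; ring, ENNReal.ofReal_natCast]
  rw [h5]
  apply ENNReal.inv_le_inv.mpr
  exact_mod_cast Nat.le_succ m

end Det

end Pool.Agent.W_MP_b6e843_mp
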