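import Pool.Agent.W_MP_b6e843_mp.Shear

/-! # Averaging over random unimodular matrices -/

namespace Pool.Agent.W_MP_b6e843_mp

open MeasureTheory Set Filter Matrix
open scoped Topology Real

variable {Ω : Type*} [MeasurableSpace Ω] {P : Measure Ω} [IsProbabilityMeasure P]

/-- Averages of a function over a random matrix. -/
noncomputable def avgOp (P : Measure Ω) (A : Ω → Matrix (Fin 2) (Fin 2) ℝ) (F : Pl → ℝ) (w : Pl) :
    ℝ := ∫ ω, F (A ω *ᵥ w) ∂P

/-- A measurable random unimodular matrix. -/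
structure IsRM (A : Ω → Matrix (Fin 2) (Fin 2) ℝ) : Prop where
  meas : ∀ i j, Measurable (fun ω => A ω i j)
  det : ∀ ω, (A ω).det = 1

/-- Admissible functions. -/
structure Adm (F : Pl → ℝ) : Prop where
  meas : Measurable F
  nonneg : ∀ w, 0 ≤ F w
  le_one : ∀ w, F w ≤ 1
  int : Integrable (fun w => F w ^ 2)

variable {A : Ω → Matrix (Fin 2) (Fin 2) ℝ} {F : Pl → ℝ}

lemma IsRM.measurable_mulVec {α : Type*} [MeasurableSpace α] (hA : IsRM A) {X : α → Ω}
    (hX : Measurable X) {Y : α → Pl} (hY : Measurable Y) :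
    Measurable (fun a => A (X a) *ᵥ Y a) := by
  rw [measurable_pi_iff]
  intro i
  simp only [Matrix.mulVec, dotProduct, Fin.sum_univ_two]
  exact (((hA.meas i 0).comp hX).mul ((measurable_pi_apply 0).comp hY)).add
    (((hA.meas i 1).comp hX).mul ((measurable_pi_apply 1).comp hY))

lemma IsRM.measurable_uncurry (hA : IsRM A) : Measurable (fun p : Ω × Pl => A p.1 *ᵥ p.2) :=
  hA.measurable_mulVec measurable_fst measurable_snd

lemma IsRM.measurable_left (hA : IsRM A) (w : Pl) : Measurable (fun ω => A ω *ᵥ w) :=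
  hA.measurable_mulVec measurable_id measurable_const

lemma Adm.abs_le (hF : Adm F) (w : Pl) : |F w| ≤ 1 := by
  rw [abs_of_nonneg (hF.nonneg w)]
  exact hF.le_one w

lemma Adm.integrable_left (hF : Adm F) (hA : IsRM A) (w : Pl) :
    Integrable (fun ω => F (A ω *ᵥ w)) P := by
  apply Integrable.of_bound (hF.meas.comp (hA.measurable_left w)).aestronglyMeasurable 1
  exact Eventually.of_forall (fun ω => hF.abs_le _)

lemma Adm.integrable_left_sq (hF : Adm F) (hA : IsRM A) (w : Pl) :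
    Integrable (fun ω => F (A ω *ᵥ w) ^ 2) P := by
  apply Integrable.of_bound ((hF.meas.comp (hA.measurable_left w)).pow_const 2).aestronglyMeasurable 1
  refine Eventually.of_forall (fun ω => ?_)
  rw [norm_pow]
  exact pow_le_one₀ (norm_nonneg _) (hF.abs_le _)

lemma Adm.integrable_prod (hF : Adm F) (hA : IsRM A) :
    Integrable (fun p : Ω × Pl => F (A p.1 *ᵥ p.2) ^ 2) (P.prod volume) := by
  have hm : Measurable (fun p : Ω × Pl => F (A p.1 *ᵥ p.2) ^ 2) :=
    (hF.meas.comp hA.measurable_uncurry).pow_const 2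
  rw [integrable_prod_iff hm.aestronglyMeasurable]
  refine ⟨Eventually.of_forall (fun ω => ?_), ?_⟩
  · exact integrable_mulVec (hA.det ω) hF.int
  · have : (fun ω => ∫ w, ‖F (A ω *ᵥ w) ^ 2‖) = fun _ => ∫ w, F w ^ 2 := by
      funext ω
      have := integral_mulVec (hA.det ω) (hF.meas.pow_const 2)
      rw [← this]
      congr 1
      funext w
      rw [Real.norm_eq_abs, abs_of_nonneg (sq_nonneg _)]
    rw [this]
    exact integrable_const _

lemma Adm.integral_integral (hF : Adm F) (hA : IsRM A) :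
    ∫ w, ∫ ω, F (A ω *ᵥ w) ^ 2 ∂P = ∫ w, F w ^ 2 := by
  rw [← integral_integral_swap (f := fun ω w => F (A ω *ᵥ w) ^ 2) (hF.integrable_prod hA)]
  have : (fun ω => ∫ w, F (A ω *ᵥ w) ^ 2) = fun _ => ∫ w, F w ^ 2 := by
    funext ω
    exact integral_mulVec (hA.det ω) (hF.meas.pow_const 2)
  rw [this]
  simp

lemma Adm.measurable_avgOp (hF : Adm F) (hA : IsRM A) : Measurable (avgOp P A F) := by
  have hm : StronglyMeasurable (fun p : Ω × Pl => F (A p.1 *ᵥ p.2)) :=
    (hF.meas.comp hA.measurable_uncurry).stronglyMeasurable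
  exact (StronglyMeasurable.integral_prod_left' (μ := P) hm).measurable

/-- Variance identity at a point. -/
lemma Adm.variance (hF : Adm F) (hA : IsRM A) (w : Pl) :
    ∫ ω, (F (A ω *ᵥ w) - avgOp P A F w) ^ 2 ∂P
      = ∫ ω, F (A ω *ᵥ w) ^ 2 ∂P - avgOp P A F w ^ 2 := by
  have h1 : ∀ ω, (F (A ω *ᵥ w) - avgOp P A F w) ^ 2
      = F (A ω *ᵥ w) ^ 2 - (2 * avgOp P A F w) * F (A ω *ᵥ w) + avgOp P A F w ^ 2 := by
    intro ω
    ring
  simp_rw [h1]
  have i1 := hF.integrable_left_sq (P := P) hA w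
  have i2 : Integrable (fun ω => (2 * avgOp P A F w) * F (A ω *ᵥ w)) P :=
    (hF.integrable_left hA w).const_mul _
  have i3 : Integrable (fun ω => F (A ω *ᵥ w) ^ 2 - (2 * avgOp P A F w) * F (A ω *ᵥ w)) P :=
    i1.sub i2
  rw [integral_add i3 (integrable_const _), integral_sub i1 i2, integral_const_mul]
  simp only [integral_const, probReal_univ, one_smul]
  unfold avgOp
  ring

lemma Adm.avgOp_sq_le (hF : Adm F) (hA : IsRM A) (w : Pl) :
    avgOp P A F w ^ 2 ≤ ∫ ω, F (A ω *ᵥ w) ^ 2 ∂P := by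
  have h1 := hF.variance (P := P) hA w
  have h2 : 0 ≤ ∫ ω, (F (A ω *ᵥ w) - avgOp P A F w) ^ 2 ∂P := integral_nonneg (fun _ => sq_nonneg _)
  linarith

lemma Adm.adm_avgOp (hF : Adm F) (hA : IsRM A) : Adm (avgOp P A F) where
  meas := hF.measurable_avgOp hA
  nonneg w := integral_nonneg (fun _ => hF.nonneg _)
  le_one w := by
    calc ∫ ω, F (A ω *ᵥ w) ∂P ≤ ∫ _, (1:ℝ) ∂P :=
          integral_mono (hF.integrable_left hA w) (integrable_const _) (fun _ => hF.le_one _)
      _ = 1 := by simp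
  int := by
    apply (hF.integrable_prod (P := P) hA).integral_prod_right.mono'
    · exact ((hF.measurable_avgOp hA).pow_const 2).aestronglyMeasurable
    · refine Eventually.of_forall (fun w => ?_)
      rw [Real.norm_eq_abs, abs_of_nonneg (sq_nonneg _)]
      exact hF.avgOp_sq_le hA w

/-- Total variance identity. -/
lemma Adm.total_variance (hF : Adm F) (hA : IsRM A) :
    Integrable (fun ω => ∫ w, (F (A ω *ᵥ w) - avgOp P A F w) ^ 2) P ∧
    ∫ ω, (∫ w, (F (A ω *ᵥ w) - avgOp P A F w) ^ 2) ∂P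
      = (∫ w, F w ^ 2) - ∫ w, avgOp P A F w ^ 2 := by
  have hG := hF.adm_avgOp (P := P) hA
  set G := avgOp P A F with hGdef
  have hG2 : Integrable (fun p : Ω × Pl => G p.2 ^ 2) (P.prod volume) := by
    exact hG.int.comp_snd P
  have hint : Integrable (fun p : Ω × Pl => (F (A p.1 *ᵥ p.2) - G p.2) ^ 2) (P.prod volume) := by
    apply (((hF.integrable_prod (P := P) hA).const_mul 2).add (hG2.const_mul 2)).mono'
    · exact (((hF.meas.comp hA.measurable_uncurry).sub
        (hG.meas.comp measurable_snd)).pow_const 2).aestronglyMeasurable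
    · refine Eventually.of_forall (fun p => ?_)
      rw [Real.norm_eq_abs, abs_of_nonneg (sq_nonneg _)]
      simp only [Pi.add_apply]
      nlinarith [sq_nonneg (F (A p.1 *ᵥ p.2) + G p.2)]
  refine ⟨hint.integral_prod_left, ?_⟩
  rw [integral_integral_swap (f := fun ω w => (F (A ω *ᵥ w) - G w) ^ 2) hint]
  simp_rw [hGdef, hF.variance hA]
  rw [integral_sub (hF.integrable_prod (P := P) hA).integral_prod_right hG.int,
    hF.integral_integral hA]

/-- Two-copy form of the variance. -/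
lemma Adm.two_copy (hF : Adm F) (hA : IsRM A) :
    Integrable (fun p : Ω × Ω => ∫ w, (F (A p.1 *ᵥ w) - F (A p.2 *ᵥ w)) ^ 2) (P.prod P) ∧
    ∫ p : Ω × Ω, (∫ w, (F (A p.1 *ᵥ w) - F (A p.2 *ᵥ w)) ^ 2) ∂(P.prod P)
      = 2 * ((∫ w, F w ^ 2) - ∫ w, avgOp P A F w ^ 2) := by
  have hA1 : IsRM (fun p : Ω × Ω => A p.1) :=
    ⟨fun i j => (hA.meas i j).comp measurable_fst, fun p => hA.det p.1⟩
  have hA2 : IsRM (fun p : Ω × Ω => A p.2) :=
    ⟨fun i j => (hA.meas i j).comp measurable_snd, fun p => hA.det p.2⟩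
  have hint : Integrable (fun p : (Ω × Ω) × Pl => (F (A p.1.1 *ᵥ p.2) - F (A p.1.2 *ᵥ p.2)) ^ 2)
      ((P.prod P).prod volume) := by
    apply (((hF.integrable_prod (P := P.prod P) hA1).const_mul 2).add
      ((hF.integrable_prod (P := P.prod P) hA2).const_mul 2)).mono'
    · exact (((hF.meas.comp hA1.measurable_uncurry).sub
        (hF.meas.comp hA2.measurable_uncurry)).pow_const 2).aestronglyMeasurable
    · refine Eventually.of_forall (fun p => ?_)
      rw [Real.norm_eq_abs, abs_of_nonneg (sq_nonneg _)]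
      simp only [Pi.add_apply]
      nlinarith [sq_nonneg (F (A p.1.1 *ᵥ p.2) + F (A p.1.2 *ᵥ p.2))]
  refine ⟨hint.integral_prod_left, ?_⟩
  rw [integral_integral_swap
    (f := fun (p : Ω × Ω) w => (F (A p.1 *ᵥ w) - F (A p.2 *ᵥ w)) ^ 2) hint]
  have hpt : ∀ w : Pl, ∫ p : Ω × Ω, (F (A p.1 *ᵥ w) - F (A p.2 *ᵥ w)) ^ 2 ∂(P.prod P)
      = 2 * (∫ ω, F (A ω *ᵥ w) ^ 2 ∂P) - 2 * avgOp P A F w ^ 2 := by
    intro w
    have e : ∀ p : Ω × Ω, (F (A p.1 *ᵥ w) - F (A p.2 *ᵥ w)) ^ 2
        = F (A p.1 *ᵥ w) ^ 2 + F (A p.2 *ᵥ w) ^ 2 - 2 * (F (A p.1 *ᵥ w) * F (A p.2 *ᵥ w)) := by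
      intro p
      ring
    simp_rw [e]
    have i1 : Integrable (fun p : Ω × Ω => F (A p.1 *ᵥ w) ^ 2) (P.prod P) :=
      hF.integrable_left_sq hA1 w
    have i2 : Integrable (fun p : Ω × Ω => F (A p.2 *ᵥ w) ^ 2) (P.prod P) :=
      hF.integrable_left_sq hA2 w
    have i12 : Integrable (fun p : Ω × Ω => F (A p.1 *ᵥ w) ^ 2 + F (A p.2 *ᵥ w) ^ 2)
        (P.prod P) := i1.add i2
    have i3 : Integrable (fun p : Ω × Ω => 2 * (F (A p.1 *ᵥ w) * F (A p.2 *ᵥ w))) (P.prod P) :=
      ((hF.integrable_left hA w).mul_prod (hF.integrable_left hA w)).const_mul 2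
    rw [integral_sub i12 i3, integral_add i1 i2, integral_const_mul,
      integral_prod_mul (fun ω => F (A ω *ᵥ w)) (fun ω => F (A ω *ᵥ w)),
      integral_fun_fst (fun ω => F (A ω *ᵥ w) ^ 2), integral_fun_snd (fun ω => F (A ω *ᵥ w) ^ 2)]
    simp only [probReal_univ, one_smul]
    unfold avgOp
    ring
  simp_rw [hpt]
  have i4 : Integrable (fun w => ∫ ω, F (A ω *ᵥ w) ^ 2 ∂P) :=
    (hF.integrable_prod (P := P) hA).integral_prod_right
  rw [integral_sub (i4.const_mul 2) ((hF.adm_avgOp (P := P) hA).int.const_mul 2),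
    integral_const_mul, integral_const_mul, hF.integral_integral hA]
  ring

end Pool.Agent.W_MP_b6e843_mp
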