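import Mathlib

/-! # Averaging over pairs of consecutive windows -/

namespace Pool.Agent.W_MP_b6e843_mp

open Finset Filter

lemma exists_block {w : ℕ → ℝ} (hw0 : ∀ j, 0 ≤ w j) (hw : ¬ Summable w) (n : ℕ) :
    ∃ m, n < m ∧ 1 ≤ ∑ j ∈ Ico n m, w j := by
  have h := (not_summable_iff_tendsto_nat_atTop_of_nonneg hw0).mp hw
  obtain ⟨m, h1, h2⟩ := ((tendsto_atTop.mp h (1 + ∑ j ∈ range n, w j)).and
    (eventually_gt_atTop n)).exists
  refine ⟨m, h2, ?_⟩
  rw [sum_Ico_eq_sub _ h2.le]
  linarith

lemma sum_sum_extend {Q : ℕ → ℕ → ℝ} {n m : ℕ} (hnm : n ≤ m)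
    (hQ : ∀ j j', Q j j' ≠ 0 → j < j' ∧ j' < n) (X : ℕ → ℕ → ℝ) :
    ∑ j ∈ range m, ∑ j' ∈ range m, Q j j' * X j j'
      = ∑ j ∈ range n, ∑ j' ∈ range n, Q j j' * X j j' := by
  have h1 : ∀ j, ∑ j' ∈ range m, Q j j' * X j j' = ∑ j' ∈ range n, Q j j' * X j j' := by
    intro j
    symm
    apply sum_subset (range_subset_range.mpr hnm)
    intro j' _ hj'
    have : Q j j' = 0 := by
      by_contra h
      exact hj' (mem_range.mpr (hQ j j' h).2)
    rw [this, zero_mul]
  simp_rw [h1]
  symm
  apply sum_subset (range_subset_range.mpr hnm)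
  intro j _ hj
  apply sum_eq_zero
  intro j' _
  have : Q j j' = 0 := by
    by_contra h
    have := hQ j j' h
    exact hj (mem_range.mpr (by omega))
  rw [this, zero_mul]

/-- Weights on pairs of indices in consecutive windows. -/
theorem exists_windows {w : ℕ → ℝ} (hw0 : ∀ j, 0 ≤ w j) (hw : ¬ Summable w) (K : ℕ) :
    ∃ n : ℕ, ∃ Q : ℕ → ℕ → ℝ, (∀ j j', 0 ≤ Q j j') ∧
      (∀ j j', Q j j' ≠ 0 → j < j' ∧ j' < n) ∧
      ∑ j ∈ range n, ∑ j' ∈ range n, Q j j' = K ∧
      (∀ j, ∑ j' ∈ range n, Q j j' ≤ w j) ∧ (∀ j', ∑ j ∈ range n, Q j j' ≤ w j') ∧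
      ∀ J : ℕ → ℝ, (∀ i j, i ≤ j → j ≤ n → J i ≤ J j) →
        ∑ j ∈ range n, ∑ j' ∈ range n, Q j j' * (J (j' + 1) - J (j + 1)) ≤ J n - J 0 := by
  induction K with
  | zero => exact ⟨0, fun _ _ => 0, by simp, by simp, by simp, by simpa using hw0,
      by simpa using hw0, by simp⟩
  | succ K ih =>
    obtain ⟨n, Q, hQ0, hQs, hQsum, hQ1, hQ2, hQJ⟩ := ih
    obtain ⟨m₁, hm₁, hW₁⟩ := exists_block hw0 hw n
    obtain ⟨m₂, hm₂, hW₂⟩ := exists_block hw0 hw m₁
    set W₁ := ∑ j ∈ Ico n m₁, w j with hW₁def
    set W₂ := ∑ j ∈ Ico m₁ m₂, w j with hW₂def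
    have hW₁pos : 0 < W₁ := by linarith
    have hW₂pos : 0 < W₂ := by linarith
    set α : ℕ → ℝ := fun j => if j ∈ Ico n m₁ then w j / W₁ else 0 with hα
    set β : ℕ → ℝ := fun j => if j ∈ Ico m₁ m₂ then w j / W₂ else 0 with hβ
    have hα0 : ∀ j, 0 ≤ α j := by
      intro j
      simp only [hα]
      split_ifs
      · exact div_nonneg (hw0 j) hW₁pos.le
      · exact le_rfl
    have hβ0 : ∀ j, 0 ≤ β j := by
      intro j
      simp only [hβ]
      split_ifs
      · exact div_nonneg (hw0 j) hW₂pos.le
      · exact le_rfl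
    have hαw : ∀ j, α j ≤ w j := by
      intro j
      simp only [hα]
      split_ifs
      · exact div_le_self (hw0 j) hW₁
      · exact hw0 j
    have hβw : ∀ j, β j ≤ w j := by
      intro j
      simp only [hβ]
      split_ifs
      · exact div_le_self (hw0 j) hW₂
      · exact hw0 j
    have hαsum : ∑ j ∈ range m₂, α j = 1 := by
      simp only [hα]
      rw [← sum_filter]
      have : (range m₂).filter (fun j => j ∈ Ico n m₁) = Ico n m₁ := by
        ext j
        simp only [mem_filter, mem_range, mem_Ico]
        omega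
      rw [this, ← sum_div, div_self hW₁pos.ne']
    have hβsum : ∑ j ∈ range m₂, β j = 1 := by
      simp only [hβ]
      rw [← sum_filter]
      have : (range m₂).filter (fun j => j ∈ Ico m₁ m₂) = Ico m₁ m₂ := by
        ext j
        simp only [mem_filter, mem_range, mem_Ico]
        omega
      rw [this, ← sum_div, div_self hW₂pos.ne']
    have hnm : n ≤ m₂ := by omega
    have hext := sum_sum_extend hnm hQs
    have hext1 : ∀ j, ∑ j' ∈ range m₂, Q j j' = ∑ j' ∈ range n, Q j j' := by
      intro j
      symm
      apply sum_subset (range_subset_range.mpr hnm)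
      intro j' _ hj'
      by_contra h
      exact hj' (mem_range.mpr (hQs j j' h).2)
    have hext2 : ∀ j', ∑ j ∈ range m₂, Q j j' = ∑ j ∈ range n, Q j j' := by
      intro j'
      symm
      apply sum_subset (range_subset_range.mpr hnm)
      intro j _ hj
      by_contra h
      have := hQs j j' h
      exact hj (mem_range.mpr (by omega))
    refine ⟨m₂, fun j j' => Q j j' + α j * β j', ?_, ?_, ?_, ?_, ?_, ?_⟩
    · intro j j'
      exact add_nonneg (hQ0 j j') (mul_nonneg (hα0 j) (hβ0 j'))
    · intro j j' h
      by_cases hq : Q j j' = 0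
      · simp only [hq, zero_add] at h
        have h1 : α j ≠ 0 := left_ne_zero_of_mul h
        have h2 : β j' ≠ 0 := right_ne_zero_of_mul h
        simp only [hα] at h1
        simp only [hβ] at h2
        have h3 : j ∈ Ico n m₁ := by
          by_contra hc
          rw [if_neg hc] at h1
          exact h1 rfl
        have h4 : j' ∈ Ico m₁ m₂ := by
          by_contra hc
          rw [if_neg hc] at h2
          exact h2 rfl
        rw [mem_Ico] at h3 h4
        omega
      · have := hQs j j' hq
        omega
    · simp_rw [sum_add_distrib]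
      have h1 := hext (fun _ _ => 1)
      simp only [mul_one] at h1
      rw [h1, hQsum]
      simp_rw [← mul_sum, hβsum, mul_one]
      rw [hαsum]
      push_cast
      ring
    · intro j
      rw [sum_add_distrib, ← mul_sum, hβsum, mul_one, hext1]
      by_cases hj : j ∈ Ico n m₁
      · have : ∑ j' ∈ range n, Q j j' = 0 := by
          apply sum_eq_zero
          intro j' _
          by_contra h
          have := hQs j j' h
          rw [mem_Ico] at hj
          omega
        rw [this, zero_add]
        exact hαw j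
      · have : α j = 0 := by
          simp only [hα]
          rw [if_neg hj]
        rw [this, add_zero]
        exact hQ1 j
    · intro j'
      rw [sum_add_distrib, ← sum_mul, hαsum, one_mul, hext2]
      by_cases hj : j' ∈ Ico m₁ m₂
      · have : ∑ j ∈ range n, Q j j' = 0 := by
          apply sum_eq_zero
          intro j _
          by_contra h
          have := hQs j j' h
          rw [mem_Ico] at hj
          omega
        rw [this, zero_add]
        exact hβw j'
      · have : β j' = 0 := by
          simp only [hβ]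
          rw [if_neg hj]
        rw [this, add_zero]
        exact hQ2 j'
    · intro J hJ
      simp_rw [add_mul, sum_add_distrib]
      rw [hext (fun j j' => J (j' + 1) - J (j + 1))]
      have h1 := hQJ J (fun i j h1 h2 => hJ i j h1 (by omega))
      have h2 : ∑ j ∈ range m₂, ∑ j' ∈ range m₂, α j * β j' * (J (j' + 1) - J (j + 1))
          ≤ ∑ j ∈ range m₂, ∑ j' ∈ range m₂, α j * β j' * (J m₂ - J n) := by
        apply sum_le_sum
        intro j hj
        apply sum_le_sum
        intro j' hj'
        by_cases hc : α j = 0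
        · rw [hc]
          simp
        · have h3 : j ∈ Ico n m₁ := by
            by_contra hcc
            simp only [hα] at hc
            rw [if_neg hcc] at hc
            exact hc rfl
          rw [mem_Ico] at h3
          rw [mem_range] at hj hj'
          apply mul_le_mul_of_nonneg_left _ (mul_nonneg (hα0 j) (hβ0 j'))
          have h4 := hJ (j' + 1) m₂ (by omega) le_rfl
          have h5 := hJ n (j + 1) (by omega) (by omega)
          linarith
      have h3 : ∑ j ∈ range m₂, ∑ j' ∈ range m₂, α j * β j' * (J m₂ - J n) = J m₂ - J n := by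
        simp_rw [← sum_mul, ← mul_sum, hβsum, mul_one]
        rw [hαsum, one_mul]
      linarith

end Pool.Agent.W_MP_b6e843_mp
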