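import Pool.Agent.W_MP_b6e843_mp.Pair
import Pool.Agent.W_MP_b6e843_mp.Windows

/-! # The core estimate for fixed energy -/

namespace Pool.Agent.W_MP_b6e843_mp

open MeasureTheory Set Filter Matrix ProbabilityTheory
open scoped Topology Real

section Deterministic

/-- The aperture of the cone. -/
noncomputable def aper (R t : ℝ) : ℝ := t + 2 * (2 * R ^ 2) ^ 2 * (t + 1) + 1

lemma one_le_aper {R t : ℝ} (ht : 0 ≤ t) : 1 ≤ aper R t := by
  unfold aper
  nlinarith [sq_nonneg (2 * R ^ 2)]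

/-- A unimodular matrix with bounded entries and bounded ratio maps the complement of the cone
into the cone. -/
lemma mapsCone_of_bounds {S : Matrix (Fin 2) (Fin 2) ℝ} {R t : ℝ} (hR : 1 ≤ R) (ht : 0 ≤ t)
    (hdet : S.det = 1) (hB : ∀ c d, |S c d| ≤ 2 * R ^ 2) (hr : |S 0 0| ≤ t * |S 1 0|) :
    MapsCone (aper R t) S := by
  set M := 2 * R ^ 2 with hM
  have hM1 : 1 ≤ M := by nlinarith
  have hM0 : 0 < M := by linarith
  set ρ := aper R t with hρ
  have hρdef : ρ = t + 2 * M ^ 2 * (t + 1) + 1 := rfl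
  have hρ1 : 1 ≤ ρ := one_le_aper ht
  have h10 : 1 ≤ M * (t + 1) * |S 1 0| := by
    rw [Matrix.det_fin_two] at hdet
    have h1 : (1:ℝ) ≤ |S 0 0| * |S 1 1| + |S 0 1| * |S 1 0| := by
      calc (1:ℝ) = |S 0 0 * S 1 1 - S 0 1 * S 1 0| := by rw [hdet, abs_one]
        _ ≤ |S 0 0 * S 1 1| + |S 0 1 * S 1 0| := abs_sub _ _
        _ = _ := by rw [abs_mul, abs_mul]
    have h2 : |S 0 0| * |S 1 1| ≤ (t * |S 1 0|) * M :=
      mul_le_mul hr (hB 1 1) (abs_nonneg _) (by positivity)
    have h3 : |S 0 1| * |S 1 0| ≤ M * |S 1 0| := by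
      gcongr
      exact hB 0 1
    nlinarith
  intro w hw hw0
  have hw' : ρ * |w 1| ≤ |w 0| := not_lt.mp hw
  have hw0pos : 0 < |w 0| := by
    by_contra hcon
    have h1 : |w 0| = 0 := le_antisymm (not_lt.mp hcon) (abs_nonneg _)
    have h2 : |w 1| = 0 := by
      apply le_antisymm _ (abs_nonneg _)
      rw [h1] at hw'
      nlinarith [abs_nonneg (w 1)]
    apply hw0
    funext i
    fin_cases i
    · exact abs_eq_zero.mp h1
    · exact abs_eq_zero.mp h2
  have e0 : (S *ᵥ w) 0 = S 0 0 * w 0 + S 0 1 * w 1 := by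
    simp [Matrix.mulVec, dotProduct, Fin.sum_univ_two]
  have e1 : (S *ᵥ w) 1 = S 1 0 * w 0 + S 1 1 * w 1 := by
    simp [Matrix.mulVec, dotProduct, Fin.sum_univ_two]
  show |(S *ᵥ w) 0| < ρ * |(S *ᵥ w) 1|
  have hu : |(S *ᵥ w) 0| ≤ t * |S 1 0| * |w 0| + M * |w 1| := by
    rw [e0]
    calc _ ≤ |S 0 0 * w 0| + |S 0 1 * w 1| := abs_add_le _ _
      _ = |S 0 0| * |w 0| + |S 0 1| * |w 1| := by rw [abs_mul, abs_mul]
      _ ≤ t * |S 1 0| * |w 0| + M * |w 1| := by
          gcongr
          exact hB 0 1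
  have hl : |S 1 0| * |w 0| - M * |w 1| ≤ |(S *ᵥ w) 1| := by
    rw [e1]
    have h1 : |S 1 0 * w 0| ≤ |S 1 0 * w 0 + S 1 1 * w 1| + |S 1 1 * w 1| := by
      calc |S 1 0 * w 0| = |(S 1 0 * w 0 + S 1 1 * w 1) - S 1 1 * w 1| := by congr 1; ring
        _ ≤ _ := abs_sub _ _
    rw [abs_mul, abs_mul (S 1 1)] at h1
    have h2 : |S 1 1| * |w 1| ≤ M * |w 1| := by
      gcongr
      exact hB 1 1
    linarith
  have hρpos : 0 < ρ := by linarith
  have hw1 : |w 1| ≤ |w 0| := by nlinarith [abs_nonneg (w 1)]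
  -- key inequality
  have key : t * |S 1 0| * |w 0| + M * |w 1| < ρ * (|S 1 0| * |w 0| - M * |w 1|) := by
    have h3 : ρ * (M * |w 1|) ≤ M * |w 0| := by nlinarith
    have h4 : M * |w 1| ≤ M * |w 0| := by gcongr
    have h5 : 2 * M < (ρ - t) * |S 1 0| := by
      have h6 : (ρ - t) * |S 1 0| = (2 * M) * (M * (t + 1) * |S 1 0|) + |S 1 0| := by
        rw [hρdef]
        ring
      have h7 : 0 < |S 1 0| := by
        by_contra hcon
        have : |S 1 0| = 0 := le_antisymm (not_lt.mp hcon) (abs_nonneg _)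
        rw [this, mul_zero] at h10
        linarith
      rw [h6]
      nlinarith
    have h8 : 2 * M * |w 0| < (ρ - t) * |S 1 0| * |w 0| := by gcongr
    nlinarith
  calc |(S *ᵥ w) 0| ≤ _ := hu
    _ < _ := key
    _ ≤ ρ * |(S *ᵥ w) 1| := by gcongr

/-- Entries of the transition between two bounded transfer matrices. -/
lemma entries_le {A B S : Matrix (Fin 2) (Fin 2) ℝ} {R : ℝ} (hR : 0 ≤ R) (hA : A.det = 1)
    (hS : B = S * A) (hAb : ∀ c d, |A c d| ≤ R) (hBb : ∀ c d, |B c d| ≤ R) :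
    ∀ c d, |S c d| ≤ 2 * R ^ 2 := by
  have h1 : S = B * A.adjugate := by
    rw [hS, Matrix.mul_assoc, Matrix.mul_adjugate, hA, one_smul, Matrix.mul_one]
  have h2 : ∀ c d, |A.adjugate c d| ≤ R := by
    intro c d
    rw [Matrix.adjugate_fin_two]
    fin_cases c <;> fin_cases d <;> simp [hAb]
  intro c d
  rw [h1, Matrix.mul_apply, Fin.sum_univ_two]
  calc _ ≤ |B c 0 * A.adjugate 0 d| + |B c 1 * A.adjugate 1 d| := abs_add_le _ _
    _ = |B c 0| * |A.adjugate 0 d| + |B c 1| * |A.adjugate 1 d| := by rw [abs_mul, abs_mul]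
    _ ≤ R * R + R * R := by
        gcongr
        · exact hBb _ _
        · exact h2 _ _
        · exact hBb _ _
        · exact h2 _ _
    _ = 2 * R ^ 2 := by ring

end Deterministic

variable {Ω : Type*} [MeasurableSpace Ω] {P : Measure Ω} [IsProbabilityMeasure P]

/-- Boundedness of the `i`-step transfer matrix. -/
def Bd (b : ℕ → Ω → ℝ) (R : ℝ) (i : ℕ) : Set Ω :=
  {ω | ∀ c d, |tm (fun j => b j ω) 0 i c d| ≤ R}

/-- Bad ratio event. -/
def BadR (b : ℕ → Ω → ℝ) (t : ℝ) (i m : ℕ) : Set Ω :=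
  {ω | t * |tm (fun j => b j ω) i m 1 0| < |tm (fun j => b j ω) i m 0 0|}

variable {b : ℕ → Ω → ℝ}

lemma measurableSet_Bd (hb : ∀ j, Measurable (b j)) (R : ℝ) (i : ℕ) : MeasurableSet (Bd b R i) := by
  unfold Bd
  simp only [Set.ofPred_forall]
  refine MeasurableSet.iInter (fun c => MeasurableSet.iInter (fun d => ?_))
  exact measurableSet_le ((isRM_tm hb 0 i).meas c d).abs measurable_const

lemma measurableSet_BadR (hb : ∀ j, Measurable (b j)) (t : ℝ) (i m : ℕ) :
    MeasurableSet (BadR b t i m) :=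
  measurableSet_lt (((isRM_tm hb i m).meas 1 0).abs.const_mul t) ((isRM_tm hb i m).meas 0 0).abs

/-- Lower bound for the norm at the start of the tower. -/
lemma Inorm_zero_ge (hb : ∀ j, Measurable (b j)) {R α : ℝ} (hR : 0 < R) (hα : 0 ≤ α) {n : ℕ}
    (h : α ≤ P.real (Bd b R n)) : α ^ 2 / R ^ 2 ≤ Inorm P b n 0 := by
  have hadm := adm_hfun (P := P) hb n 0
  have hpt : ∀ w ∈ box (1 / (2 * R)), α ^ 2 ≤ hfun P b n 0 w ^ 2 := by
    intro w hw
    have h1 : α ≤ hfun P b n 0 w := by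
      refine h.trans ?_
      unfold hfun avgOp
      rw [Nat.sub_zero]
      have e : P.real (Bd b R n) = ∫ ω, (Bd b R n).indicator (fun _ => (1:ℝ)) ω ∂P := by
        rw [integral_indicator (measurableSet_Bd hb R n)]
        simp
      rw [e]
      apply integral_mono
      · exact (integrable_const _).indicator (measurableSet_Bd hb R n)
      · exact adm_F0.integrable_left (isRM_tm hb 0 n) w
      · intro ω
        simp only
        by_cases hω : ω ∈ Bd b R n
        · rw [indicator_of_mem hω]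
          have hmem : (tm (fun j => b j ω) 0 n *ᵥ w) ∈ box 1 := by
            have hbd : ∀ c, |(tm (fun j => b j ω) 0 n *ᵥ w) c| ≤ 1 := by
              intro c
              have e2 : (tm (fun j => b j ω) 0 n *ᵥ w) c = tm (fun j => b j ω) 0 n c 0 * w 0
                  + tm (fun j => b j ω) 0 n c 1 * w 1 := by
                simp [Matrix.mulVec, dotProduct, Fin.sum_univ_two]
              rw [e2]
              calc _ ≤ |tm (fun j => b j ω) 0 n c 0 * w 0|
                    + |tm (fun j => b j ω) 0 n c 1 * w 1| := abs_add_le _ _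
                _ = |tm (fun j => b j ω) 0 n c 0| * |w 0|
                    + |tm (fun j => b j ω) 0 n c 1| * |w 1| := by rw [abs_mul, abs_mul]
                _ ≤ R * (1 / (2 * R)) + R * (1 / (2 * R)) := by
                    gcongr
                    · exact hω c 0
                    · exact hw.1
                    · exact hω c 1
                    · exact hw.2
                _ = 1 := by
                    field_simp
                    norm_num
            exact ⟨hbd 0, hbd 1⟩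
          unfold F0
          rw [indicator_of_mem hmem]
        · rw [indicator_of_notMem hω]
          exact adm_F0.nonneg _
    exact pow_le_pow_left₀ hα h1 2
  have hbox : MeasurableSet (box (1 / (2 * R))) := measurableSet_box _
  calc α ^ 2 / R ^ 2 = ∫ w in box (1 / (2 * R)), α ^ 2 := by
        rw [setIntegral_const, measureReal_def, volume_box (by positivity),
          ENNReal.toReal_ofReal (by positivity), smul_eq_mul]
        field_simp
    _ ≤ ∫ w in box (1 / (2 * R)), hfun P b n 0 w ^ 2 := by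
        have h1 : volume (box (1 / (2 * R))) ≠ ⊤ := by
          rw [volume_box (by positivity)]
          exact ENNReal.ofReal_ne_top
        have h2 : ‖α ^ 2‖ₑ ≠ ⊤ := enorm_ne_top
        have h3 : IntegrableOn (fun _ : Pl => α ^ 2) (box (1 / (2 * R))) :=
          integrableOn_const h1 h2
        exact setIntegral_mono_on h3 hadm.int.integrableOn hbox hpt
    _ ≤ Inorm P b n 0 :=
        setIntegral_le_integral hadm.int (Eventually.of_forall (fun _ => sq_nonneg _))

/-- Pair inequality in terms of the boundedness events. -/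
lemma pair_bound (hb : ∀ j, Measurable (b j)) (hind : iIndepFun b P) {R t : ℝ} (hR : 1 ≤ R)
    (ht : 0 ≤ t) {n i j : ℕ} (hij : i ≤ j) (hjn : j ≤ n) :
    Inorm P b n 0 * P.real (Bd b R i ∩ Bd b R j) ≤
      Mcone P b (aper R t) n i + 2 * Mcone P b (aper R t) n j
      + 2 * (Inorm P b n j - Inorm P b n i)
      + Inorm P b n 0 * P.real (BadR b t i (j - i)) := by
  have hm : MeasurableSet ((Bd b R i ∩ Bd b R j) \ BadR b t i (j - i)) :=
    ((measurableSet_Bd hb R i).inter (measurableSet_Bd hb R j)).diff (measurableSet_BadR hb t _ _)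
  have h := pair_ineq (P := P) hb hind (ρ := aper R t) hij hjn hm (by
    intro ω hω
    obtain ⟨⟨h1, h2⟩, h3⟩ := hω
    apply mapsCone_of_bounds hR ht (det_tm _ _ _)
    · apply entries_le (by linarith) (det_tm (fun j => b j ω) 0 i) _ h1 h2
      have := tm_add (fun j => b j ω) 0 i (j - i)
      rw [zero_add, show i + (j - i) = j by omega] at this
      exact this
    · exact not_lt.mp h3)
  have h4 : P.real (Bd b R i ∩ Bd b R j) ≤
      P.real ((Bd b R i ∩ Bd b R j) \ BadR b t i (j - i)) + P.real (BadR b t i (j - i)) := by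
    refine le_trans (measureReal_mono ?_) (measureReal_union_le _ _)
    intro ω hω
    by_cases hc : ω ∈ BadR b t i (j - i)
    · exact Or.inr hc
    · exact Or.inl ⟨hω, hc⟩
  have h5 := mul_le_mul_of_nonneg_left h4 (Inorm_nonneg (P := P) (b := b) n 0)
  linarith

/-- Bound for the averaged cone masses against a marginal. -/
lemma marginal_bound (hb : ∀ j, Measurable (b j)) (hind : iIndepFun b P) {ρ : ℝ} (hρ : 0 ≤ ρ)
    {k : ℕ} (hk : 0 < k) {n : ℕ} {w q D : ℕ → ℝ} {cD : ℝ} (hcD : 0 < cD) (hq0 : ∀ j, 0 ≤ q j)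
    (hqw : ∀ j, q j ≤ w j) {T : Set ℕ} [DecidablePred (· ∈ T)]
    (hD : ∀ j, D j = ∫ p : Ω × Ω, min 1 ((b j p.1 - b j p.2) ^ 2) ∂(P.prod P))
    (hT : ∀ j ∈ T, cD * w j ≤ D j) :
    ∑ j ∈ Finset.range n, q j * Mcone P b ρ n (j + 1) ≤
      8 / k * ∑ j ∈ Finset.range n, q j + 16 * (k * (2 * ρ + 1)) ^ 2 / cD
      + 4 * ∑ j ∈ Finset.range n, (if j ∈ T then 0 else q j) := by
  have hk' : (0:ℝ) < k := by exact_mod_cast hk
  set CA : ℝ := 4 * (k * (2 * ρ + 1)) ^ 2 with hCA
  have hCA0 : 0 ≤ CA := by positivity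
  have hterm : ∀ j ∈ Finset.range n, q j * Mcone P b ρ n (j + 1) ≤
      8 / k * q j + CA / cD * (Inorm P b n (j + 1) - Inorm P b n j)
        + 4 * (if j ∈ T then 0 else q j) := by
    intro j hj
    have hjn := Finset.mem_range.mp hj
    have hmono : 0 ≤ Inorm P b n (j + 1) - Inorm P b n j := by
      have := Inorm_mono (P := P) hb hind (n := n) (Nat.le_succ j) hjn
      linarith
    have hM4 : Mcone P b ρ n (j + 1) ≤ 4 :=
      (Mcone_le hb ρ n (j + 1)).trans (Inorm_le hb hind hjn)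
    by_cases hjT : j ∈ T
    · rw [if_pos hjT, mul_zero, add_zero]
      by_cases hM : Mcone P b ρ n (j + 1) ≤ 8 / k
      · have h1 : q j * Mcone P b ρ n (j + 1) ≤ q j * (8 / k) :=
          mul_le_mul_of_nonneg_left hM (hq0 j)
        have h2 : 0 ≤ CA / cD * (Inorm P b n (j + 1) - Inorm P b n j) := by positivity
        linarith
      · have hM' : 0 < Mcone P b ρ n (j + 1) - 8 / k := by
          linarith [not_le.mp hM]
        have h1 := step_tower (P := P) hb hind hρ hk hjn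
        rw [← hD j, ← hCA] at h1
        have h2 : cD * (q j * (Mcone P b ρ n (j + 1) - 8 / k)) ≤
            CA * (Inorm P b n (j + 1) - Inorm P b n j) := by
          calc cD * (q j * (Mcone P b ρ n (j + 1) - 8 / k))
              ≤ cD * (w j * (Mcone P b ρ n (j + 1) - 8 / k)) := by
                gcongr
                exact hqw j
            _ = (cD * w j) * (Mcone P b ρ n (j + 1) - 8 / k) := by ring
            _ ≤ D j * (Mcone P b ρ n (j + 1) - 8 / k) := by
                gcongr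
                exact hT j hjT
            _ ≤ _ := h1
        have h3 : q j * (Mcone P b ρ n (j + 1) - 8 / k) ≤
            CA / cD * (Inorm P b n (j + 1) - Inorm P b n j) := by
          rw [div_mul_eq_mul_div, le_div_iff₀ hcD]
          linarith
        linarith
    · rw [if_neg hjT]
      have h1 : q j * Mcone P b ρ n (j + 1) ≤ q j * 4 := mul_le_mul_of_nonneg_left hM4 (hq0 j)
      have h2 : 0 ≤ CA / cD * (Inorm P b n (j + 1) - Inorm P b n j) := by positivity
      have h3 : 0 ≤ 8 / k * q j := mul_nonneg (by positivity) (hq0 j)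
      linarith
  refine (Finset.sum_le_sum hterm).trans ?_
  rw [Finset.sum_add_distrib, Finset.sum_add_distrib, ← Finset.mul_sum, ← Finset.mul_sum,
    ← Finset.mul_sum, Finset.sum_range_sub (fun j => Inorm P b n j), Inorm_self]
  have h0 := Inorm_nonneg (P := P) (b := b) n 0
  have h1 : CA / cD * (4 - Inorm P b n 0) ≤ CA / cD * 4 := by
    gcongr
    linarith
  have h2 : CA / cD * 4 = 16 * (k * (2 * ρ + 1)) ^ 2 / cD := by
    rw [hCA]
    ring
  linarith

/-- The core estimate. -/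
theorem core_estimate (hb : ∀ j, Measurable (b j)) (hind : iIndepFun b P) {R t α : ℝ}
    (hR : 1 ≤ R) (ht : 0 ≤ t) (hα : 0 < α) {k : ℕ} (hk : 0 < k) {n : ℕ}
    (hBd : α ≤ P.real (Bd b R n)) {w D : ℕ → ℝ} {cD : ℝ} (hcD : 0 < cD)
    {T : Set ℕ} [DecidablePred (· ∈ T)]
    (hD : ∀ j, D j = ∫ p : Ω × Ω, min 1 ((b j p.1 - b j p.2) ^ 2) ∂(P.prod P))
    (hT : ∀ j ∈ T, cD * w j ≤ D j) {K : ℕ} {Q : ℕ → ℕ → ℝ} (hQ0 : ∀ j j', 0 ≤ Q j j')
    (hQs : ∀ j j', Q j j' ≠ 0 → j < j' ∧ j' < n)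
    (hQsum : ∑ j ∈ Finset.range n, ∑ j' ∈ Finset.range n, Q j j' = K)
    (hQ1 : ∀ j, ∑ j' ∈ Finset.range n, Q j j' ≤ w j)
    (hQ2 : ∀ j', ∑ j ∈ Finset.range n, Q j j' ≤ w j')
    (hQJ : ∀ J : ℕ → ℝ, (∀ i j, i ≤ j → j ≤ n → J i ≤ J j) →
        ∑ j ∈ Finset.range n, ∑ j' ∈ Finset.range n, Q j j' * (J (j' + 1) - J (j + 1))
          ≤ J n - J 0) :
    ∑ j ∈ Finset.range n, ∑ j' ∈ Finset.range n,
        Q j j' * P.real (Bd b R (j + 1) ∩ Bd b R (j' + 1)) ≤
      R ^ 2 / α ^ 2 * (8 + 24 * K / k + 48 * (k * (2 * aper R t + 1)) ^ 2 / cD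
        + 4 * ∑ j ∈ Finset.range n, ∑ j' ∈ Finset.range n, Q j j' * (if j ∈ T then 0 else 1)
        + 8 * ∑ j ∈ Finset.range n, ∑ j' ∈ Finset.range n, Q j j' * (if j' ∈ T then 0 else 1))
      + ∑ j ∈ Finset.range n, ∑ j' ∈ Finset.range n,
          Q j j' * P.real (BadR b t (j + 1) (j' - j)) := by
  set ρ := aper R t with hρdef
  have hρ : 0 ≤ ρ := by
    have := one_le_aper (R := R) ht
    linarith
  set I0 := Inorm P b n 0 with hI0
  have hI0pos : α ^ 2 / R ^ 2 ≤ I0 := Inorm_zero_ge hb (by linarith) hα.le hBd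
  have hRα : 0 < α ^ 2 / R ^ 2 := by positivity
  -- termwise pair inequality
  have hterm : ∀ j ∈ Finset.range n, ∀ j' ∈ Finset.range n,
      I0 * (Q j j' * P.real (Bd b R (j + 1) ∩ Bd b R (j' + 1))) ≤
      Q j j' * Mcone P b ρ n (j + 1) + 2 * (Q j j' * Mcone P b ρ n (j' + 1))
      + 2 * (Q j j' * (Inorm P b n (j' + 1) - Inorm P b n (j + 1)))
      + I0 * (Q j j' * P.real (BadR b t (j + 1) (j' - j))) := by
    intro j _ j' _
    by_cases hq : Q j j' = 0
    · rw [hq]
      simp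
    · obtain ⟨h1, h2⟩ := hQs j j' hq
      have h3 := pair_bound (P := P) hb hind hR ht (n := n) (i := j + 1) (j := j' + 1)
        (by omega) (by omega)
      rw [show j' + 1 - (j + 1) = j' - j by omega] at h3
      have h4 := mul_le_mul_of_nonneg_left h3 (hQ0 j j')
      rw [← hρdef, ← hI0] at h4
      linarith
  have hsum := Finset.sum_le_sum (fun j hj => Finset.sum_le_sum (fun j' hj' => hterm j hj j' hj'))
  simp_rw [Finset.sum_add_distrib, ← Finset.mul_sum] at hsum
  -- marginals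
  have hm1 := marginal_bound (P := P) hb hind hρ hk (n := n) (w := w) (D := D)
    (q := fun j => ∑ j' ∈ Finset.range n, Q j j') hcD
    (fun j => Finset.sum_nonneg (fun j' _ => hQ0 j j')) hQ1 hD hT
  have hm2 := marginal_bound (P := P) hb hind hρ hk (n := n) (w := w) (D := D)
    (q := fun j' => ∑ j ∈ Finset.range n, Q j j') hcD
    (fun j' => Finset.sum_nonneg (fun j _ => hQ0 j j')) hQ2 hD hT
  have hmono := hQJ (fun i => Inorm P b n i) (fun i j hij hjn => Inorm_mono hb hind hij hjn)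
  simp only [Inorm_self] at hmono
  have e1 : ∑ j ∈ Finset.range n, ∑ j' ∈ Finset.range n, Q j j' * Mcone P b ρ n (j + 1)
      = ∑ j ∈ Finset.range n, (∑ j' ∈ Finset.range n, Q j j') * Mcone P b ρ n (j + 1) := by
    simp_rw [Finset.sum_mul]
  have e2 : ∑ j ∈ Finset.range n, ∑ j' ∈ Finset.range n, Q j j' * Mcone P b ρ n (j' + 1)
      = ∑ j' ∈ Finset.range n, (∑ j ∈ Finset.range n, Q j j') * Mcone P b ρ n (j' + 1) := by
    rw [Finset.sum_comm]
    simp_rw [Finset.sum_mul]
  have e3 : ∑ j ∈ Finset.range n, (if j ∈ T then 0 else ∑ j' ∈ Finset.range n, Q j j')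
      = ∑ j ∈ Finset.range n, ∑ j' ∈ Finset.range n, Q j j' * (if j ∈ T then 0 else 1) := by
    apply Finset.sum_congr rfl
    intro j _
    split_ifs <;> simp
  have e4 : ∑ j' ∈ Finset.range n, (if j' ∈ T then 0 else ∑ j ∈ Finset.range n, Q j j')
      = ∑ j ∈ Finset.range n, ∑ j' ∈ Finset.range n, Q j j' * (if j' ∈ T then 0 else 1) := by
    rw [Finset.sum_comm (f := fun j j' => Q j j' * (if j' ∈ T then 0 else 1))]
    apply Finset.sum_congr rfl
    intro j _
    split_ifs <;> simp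
  have e5 : ∑ j' ∈ Finset.range n, ∑ j ∈ Finset.range n, Q j j' = K := by
    rw [Finset.sum_comm]
    exact hQsum
  rw [hQsum, e3] at hm1
  rw [e5, e4] at hm2
  rw [← e1] at hm1
  rw [← e2] at hm2
  set A := ∑ j ∈ Finset.range n, ∑ j' ∈ Finset.range n,
        Q j j' * P.real (Bd b R (j + 1) ∩ Bd b R (j' + 1)) with hA
  set Z := ∑ j ∈ Finset.range n, ∑ j' ∈ Finset.range n,
          Q j j' * P.real (BadR b t (j + 1) (j' - j)) with hZ
  set N1 := ∑ j ∈ Finset.range n, ∑ j' ∈ Finset.range n, Q j j' * (if j ∈ T then (0:ℝ) else 1)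
    with hN1
  set N2 := ∑ j ∈ Finset.range n, ∑ j' ∈ Finset.range n, Q j j' * (if j' ∈ T then (0:ℝ) else 1)
    with hN2
  have hN1nn : 0 ≤ N1 := Finset.sum_nonneg (fun j _ => Finset.sum_nonneg (fun j' _ =>
    mul_nonneg (hQ0 j j') (by split_ifs <;> norm_num)))
  have hN2nn : 0 ≤ N2 := Finset.sum_nonneg (fun j _ => Finset.sum_nonneg (fun j' _ =>
    mul_nonneg (hQ0 j j') (by split_ifs <;> norm_num)))
  have hk' : (0:ℝ) < k := by exact_mod_cast hk
  set X := 8 + 24 * K / k + 48 * (k * (2 * ρ + 1)) ^ 2 / cD + 4 * N1 + 8 * N2 with hX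
  have hXnn : 0 ≤ X := by positivity
  have hfin : I0 * A ≤ X + I0 * Z := by
    have h0 : 0 ≤ I0 := Inorm_nonneg _ _
    have e6 : 24 * (K:ℝ) / k = 8 / k * K + 2 * (8 / k * K) := by ring
    have e7 : 48 * (k * (2 * ρ + 1)) ^ 2 / cD = 16 * (k * (2 * ρ + 1)) ^ 2 / cD
        + 2 * (16 * (k * (2 * ρ + 1)) ^ 2 / cD) := by ring
    rw [hX, e6, e7]
    linarith
  have hI0' : 0 < I0 := lt_of_lt_of_le hRα hI0pos
  have h1 : A - Z ≤ X / I0 := by
    rw [le_div_iff₀ hI0']
    linarith
  have h2 : X / I0 ≤ R ^ 2 / α ^ 2 * X := by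
    rw [div_le_iff₀ hI0']
    calc X = R ^ 2 / α ^ 2 * X * (α ^ 2 / R ^ 2) := by field_simp
      _ ≤ R ^ 2 / α ^ 2 * X * I0 := by gcongr
  linarith

end Pool.Agent.W_MP_b6e843_mp
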