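import Mathlib

/-! # Definitions for the Anderson model on antitrees -/

namespace Pool.Agent.W_MP_b6e843_mp

open MeasureTheory
open scoped InnerProductSpace

/-- The vertex set of the antitree with shells of sizes `s 0, s 1, …`: the vertex `⟨n, i⟩`
(with `i < s n`) is the `i`-th vertex of the `n`-th shell. -/
abbrev Vertex (s : ℕ → ℕ) : Type := Σ n : ℕ, Fin (s n)

/-- The edge weight `a(x,y)`: it is `1/√(s_n s_{n+1})` for vertices in adjacent shells `n`, `n+1`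
and `0` for all other pairs. -/
noncomputable def weight (s : ℕ → ℕ) (x y : Vertex s) : ℝ :=
  if y.1 = x.1 + 1 ∨ x.1 = y.1 + 1 then 1 / √((s x.1 : ℝ) * (s y.1 : ℝ)) else 0

/-- The Hilbert space `ℓ²` of complex functions on the vertices of the antitree. -/
abbrev L2 (s : ℕ → ℕ) : Type := lp (fun _ : Vertex s => ℂ) 2

/-- The bounded operator `H` is the Anderson Hamiltonian `A_s + lam V` on the antitree with
potential `v`: `(Hψ)(x) = ∑_y a(x,y) ψ(y) + lam v(x) ψ(x)`. -/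
def IsAnderson (s : ℕ → ℕ) (lam : ℝ) (v : Vertex s → ℝ) (H : L2 s →L[ℂ] L2 s) : Prop :=
  ∀ (ψ : L2 s) (x : Vertex s),
    H ψ x = (∑' y : Vertex s, (weight s x y : ℂ) * ψ y) + ((lam * v x : ℝ) : ℂ) * ψ x

section Spectral

variable {𝓗 : Type*} [NormedAddCommGroup 𝓗] [InnerProductSpace ℂ 𝓗] [CompleteSpace 𝓗]

/-- `μ` is the spectral measure of the bounded (self-adjoint) operator `H` at the vector `ψ`:
the finite Borel measure on the line, carried by `[-‖H‖, ‖H‖]`, whose moments are the numbers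
`⟨ψ, H^k ψ⟩`. -/
def IsSpectralMeasure (H : 𝓗 →L[ℂ] 𝓗) (ψ : 𝓗) (μ : Measure ℝ) : Prop :=
  IsFiniteMeasure μ ∧ μ (Set.Icc (-‖H‖) ‖H‖)ᶜ = 0 ∧
    ∀ k : ℕ, ((∫ x, x ^ k ∂μ : ℝ) : ℂ) = ⟪ψ, (H ^ k) ψ⟫_ℂ

/-- The operator `H` has singular spectrum: every vector has a spectral measure, and every
spectral measure of `H` is singular with respect to Lebesgue measure. -/
def HasSingularSpectrum (H : 𝓗 →L[ℂ] 𝓗) : Prop :=
  ∀ ψ : 𝓗, (∃ μ : Measure ℝ, IsSpectralMeasure H ψ μ) ∧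
    ∀ μ : Measure ℝ, IsSpectralMeasure H ψ μ → μ ⟂ₘ (volume : Measure ℝ)

end Spectral

end Pool.Agent.W_MP_b6e843_mp
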