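import Pool.Agent.W_MP_b6e843_mp.Model

/-! # The estimate for fixed energy in the model -/

namespace Pool.Agent.W_MP_b6e843_mp

open MeasureTheory Set Filter Matrix ProbabilityTheory
open scoped Topology Real

variable {Ω : Type*} [MeasurableSpace Ω] {P : Measure Ω} [IsProbabilityMeasure P]
  {s : ℕ → ℕ} {lam : ℝ} {v : Vertex s → Ω → ℝ} {ν : Measure ℝ}

/-- The averaged number of good pairs. -/
noncomputable def good (b : ℕ → Ω → ℝ) (R : ℝ) (n : ℕ) (Q : ℕ → ℕ → ℝ) (ω : Ω) : ℝ :=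
  ∑ j ∈ Finset.range n, ∑ j' ∈ Finset.range n,
    Q j j' * (Bd b R (j + 1) ∩ Bd b R (j' + 1)).indicator (fun _ => (1:ℝ)) ω

/-- The exceptional event. -/
def CSet (b : ℕ → Ω → ℝ) (R : ℝ) (n : ℕ) (Q : ℕ → ℕ → ℝ) (K : ℕ) : Set Ω :=
  {ω | ω ∈ Bd b R n ∧ (K : ℝ) / 2 ≤ good b R n Q ω}

lemma good_nonneg {b : ℕ → Ω → ℝ} {R : ℝ} {n : ℕ} {Q : ℕ → ℕ → ℝ} (hQ0 : ∀ j j', 0 ≤ Q j j')
    (ω : Ω) : 0 ≤ good b R n Q ω :=
  Finset.sum_nonneg (fun j _ => Finset.sum_nonneg (fun j' _ =>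
    mul_nonneg (hQ0 j j') (indicator_nonneg (fun _ _ => zero_le_one) _)))

lemma integrable_good {b : ℕ → Ω → ℝ} (hb : ∀ j, Measurable (b j)) (R : ℝ) (n : ℕ)
    (Q : ℕ → ℕ → ℝ) : Integrable (good b R n Q) P := by
  unfold good
  apply integrable_finsetSum
  intro j _
  apply integrable_finsetSum
  intro j' _
  apply Integrable.const_mul
  exact (integrable_const _).indicator ((measurableSet_Bd hb R _).inter (measurableSet_Bd hb R _))

lemma integral_good {b : ℕ → Ω → ℝ} (hb : ∀ j, Measurable (b j)) (R : ℝ) (n : ℕ)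
    (Q : ℕ → ℕ → ℝ) : ∫ ω, good b R n Q ω ∂P = ∑ j ∈ Finset.range n, ∑ j' ∈ Finset.range n,
        Q j j' * P.real (Bd b R (j + 1) ∩ Bd b R (j' + 1)) := by
  have hms : ∀ j j', MeasurableSet (Bd b R (j + 1) ∩ Bd b R (j' + 1)) := fun j j' =>
    (measurableSet_Bd hb R _).inter (measurableSet_Bd hb R _)
  have hi : ∀ j j', Integrable (fun ω => Q j j' *
      (Bd b R (j + 1) ∩ Bd b R (j' + 1)).indicator (fun _ => (1:ℝ)) ω) P := fun j j' =>
    ((integrable_const _).indicator (hms j j')).const_mul _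
  unfold good
  rw [integral_finsetSum _ (fun j _ => integrable_finsetSum _ (fun j' _ => hi j j'))]
  apply Finset.sum_congr rfl
  intro j _
  rw [integral_finsetSum _ (fun j' _ => hi j j')]
  apply Finset.sum_congr rfl
  intro j' _
  rw [integral_const_mul, integral_indicator (hms j j')]
  simp

/-- Markov inequality for the exceptional event. -/
lemma CSet_le {b : ℕ → Ω → ℝ} (hb : ∀ j, Measurable (b j)) (R : ℝ) (n : ℕ)
    {Q : ℕ → ℕ → ℝ} (hQ0 : ∀ j j', 0 ≤ Q j j') {K : ℕ} (hK : 0 < K) :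
    P.real (CSet b R n Q K) ≤ 2 / K * ∑ j ∈ Finset.range n, ∑ j' ∈ Finset.range n,
        Q j j' * P.real (Bd b R (j + 1) ∩ Bd b R (j' + 1)) := by
  have hK' : (0:ℝ) < K := by exact_mod_cast hK
  rw [← integral_good (P := P) hb]
  have h1 := mul_meas_ge_le_integral_of_nonneg
    (Eventually.of_forall (fun ω => good_nonneg (b := b) (R := R) (n := n) hQ0 ω))
    (integrable_good (P := P) hb R n Q) ((K : ℝ) / 2)
  have h2 : P.real (CSet b R n Q K) ≤ P.real {ω | (K : ℝ) / 2 ≤ good b R n Q ω} :=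
    measureReal_mono (fun ω hω => hω.2)
  calc P.real (CSet b R n Q K) ≤ P.real {ω | (K : ℝ) / 2 ≤ good b R n Q ω} := h2
    _ = 2 / K * (K / 2 * P.real {ω | (K : ℝ) / 2 ≤ good b R n Q ω}) := by field_simp
    _ ≤ 2 / K * ∫ ω, good b R n Q ω ∂P := by gcongr

/-- The per-energy estimate. -/
theorem perE [IsProbabilityMeasure ν] (hs : ∀ n, 0 < s n) (hm : ∀ x, Measurable (v x))
    (hind : iIndepFun v P) (hlaw : ∀ x, P.map (v x) = ν) (hsupp : ν (Icc (-1) 1)ᶜ = 0)
    (hlam : 0 < lam) {R t α L r τ p η R' : ℝ} (hR : 1 ≤ R) (ht : 0 ≤ t) (hα : 0 < α)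
    (hL : 0 < L) (hr : 0 < r) (hr1 : r ≤ 1) (hτ : 0 < τ) (hp : 0 < p)
    (hpτ : p ≤ (ν.prod ν).real {q | τ ≤ |q.1 - q.2|}) (hη0 : 0 < η)
    (hη : 4 * η < 1 - Real.exp (-(p * (lam * τ / (L + lam) ^ 2) ^ 2 * r ^ 2 / 4)))
    (hR' : 1 ≤ R') {k : ℕ} (hk : 0 < k) {n : ℕ} {K : ℕ} (hK : 0 < K) {Q : ℕ → ℕ → ℝ}
    (hQ0 : ∀ j j', 0 ≤ Q j j') (hQs : ∀ j j', Q j j' ≠ 0 → j < j' ∧ j' < n)
    (hQsum : ∑ j ∈ Finset.range n, ∑ j' ∈ Finset.range n, Q j j' = K)
    (hQ1 : ∀ j, ∑ j' ∈ Finset.range n, Q j j' ≤ 1 / (s j : ℝ))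
    (hQ2 : ∀ j', ∑ j ∈ Finset.range n, Q j j' ≤ 1 / (s j' : ℝ))
    (hQJ : ∀ J : ℕ → ℝ, (∀ i j, i ≤ j → j ≤ n → J i ≤ J j) →
        ∑ j ∈ Finset.range n, ∑ j' ∈ Finset.range n, Q j j' * (J (j' + 1) - J (j + 1))
          ≤ J n - J 0) {E : ℝ} (hE : |E| ≤ L) :
    P.real (CSet (bE s lam v E) R n Q K) ≤
      α + 4 / p * ν.real {x | |E - lam * x| < r}
      + 2 / K * (R ^ 2 / α ^ 2 * (8 + 24 * K / k + 48 * (k * (2 * aper R t + 1)) ^ 2 /
          (1 / (2 * R' ^ 4) *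
            ((1 - Real.exp (-(p * (lam * τ / (L + lam) ^ 2) ^ 2 * r ^ 2 / 4))) - 4 * η))
        + ∑ j ∈ Finset.range n, ∑ j' ∈ Finset.range n,
            Q j j' * (4 / η * tail P s lam v E R' j + 8 / η * tail P s lam v E R' j')))
      + 2 / K * ∑ j ∈ Finset.range n, ∑ j' ∈ Finset.range n,
          Q j j' * P.real (BadR (bE s lam v E) t (j + 1) (j' - j)) := by
  classical
  set b := bE s lam v E with hb
  have hbm : ∀ j, Measurable (b j) := measurable_bE hm E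
  have hbi : iIndepFun b P := iIndepFun_bE hm hind E
  set p2 := 1 - Real.exp (-(p * (lam * τ / (L + lam) ^ 2) ^ 2 * r ^ 2 / 4)) with hp2
  set cD := 1 / (2 * R' ^ 4) * (p2 - 4 * η) with hcD
  have hcD0 : 0 < cD := by
    apply mul_pos (by positivity)
    linarith
  have hK' : (0:ℝ) < K := by exact_mod_cast hK
  have hk' : (0:ℝ) < k := by exact_mod_cast hk
  have htail : ∀ j, 0 ≤ tail P s lam v E R' j := fun j => measureReal_nonneg
  have hS1 : 0 ≤ ∑ j ∈ Finset.range n, ∑ j' ∈ Finset.range n,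
      Q j j' * (4 / η * tail P s lam v E R' j + 8 / η * tail P s lam v E R' j') :=
    Finset.sum_nonneg (fun j _ => Finset.sum_nonneg (fun j' _ => mul_nonneg (hQ0 j j')
      (add_nonneg (mul_nonneg (by positivity) (htail _)) (mul_nonneg (by positivity) (htail _)))))
  have hS2 : 0 ≤ ∑ j ∈ Finset.range n, ∑ j' ∈ Finset.range n,
      Q j j' * P.real (BadR b t (j + 1) (j' - j)) :=
    Finset.sum_nonneg (fun j _ => Finset.sum_nonneg (fun j' _ => mul_nonneg (hQ0 j j')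
      measureReal_nonneg))
  have hX1 : 0 ≤ 2 / K * (R ^ 2 / α ^ 2 * (8 + 24 * K / k + 48 * (k * (2 * aper R t + 1)) ^ 2 / cD
        + ∑ j ∈ Finset.range n, ∑ j' ∈ Finset.range n,
            Q j j' * (4 / η * tail P s lam v E R' j + 8 / η * tail P s lam v E R' j'))) := by
    positivity
  have hX2 : 0 ≤ 2 / K * ∑ j ∈ Finset.range n, ∑ j' ∈ Finset.range n,
          Q j j' * P.real (BadR b t (j + 1) (j' - j)) := by positivity
  have hν0 : 0 ≤ 4 / p * ν.real {x | |E - lam * x| < r} := by positivity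
  by_cases hcase1 : P.real (Bd b R n) < α
  · have h1 : P.real (CSet b R n Q K) ≤ P.real (Bd b R n) := measureReal_mono (fun ω hω => hω.1)
    linarith
  by_cases hcase2 : p / 4 < ν.real {x | |E - lam * x| < r}
  · have h1 : P.real (CSet b R n Q K) ≤ 1 := measureReal_le_one
    have h2 : 1 ≤ 4 / p * ν.real {x | |E - lam * x| < r} := by
      calc (1:ℝ) = 4 / p * (p / 4) := by field_simp
        _ ≤ _ := by gcongr
    linarith
  have hBd : α ≤ P.real (Bd b R n) := not_lt.mp hcase1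
  have hEr : ν.real {x | |E - lam * x| < r} ≤ p / 4 := not_lt.mp hcase2
  -- tight shells
  set T : Set ℕ := {j | tail P s lam v E R' j ≤ η} with hTdef
  have hT : ∀ j ∈ T, cD * (1 / (s j : ℝ)) ≤
      ∫ q : Ω × Ω, min 1 ((b j q.1 - b j q.2) ^ 2) ∂(P.prod P) := by
    intro j hj
    have h1 := noise_lower_bound ν hsupp hlam hL hr hr1 hτ hp hpτ hE hEr (hs j) hR'
      (η := η) (by
        rw [tail_eq hm hind hlaw]
        exact hj)
    rw [integral_min_bE hm hind hlaw]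
    refine le_trans (le_of_eq ?_) h1
    rw [hcD, hp2]
    have : (0:ℝ) < s j := by exact_mod_cast hs j
    field_simp
  have hcore := core_estimate (P := P) hbm hbi hR ht hα hk (n := n) hBd
    (w := fun j => 1 / (s j : ℝ)) (D := fun j => ∫ q : Ω × Ω, min 1 ((b j q.1 - b j q.2) ^ 2)
      ∂(P.prod P)) hcD0 (T := T) (fun j => rfl) hT hQ0 hQs hQsum hQ1 hQ2 hQJ
  have hC := CSet_le (P := P) hbm R n hQ0 hK
  -- nontight shells
  have hnt : ∀ j, (if j ∈ T then (0:ℝ) else 1) ≤ 1 / η * tail P s lam v E R' j := by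
    intro j
    split_ifs with h
    · exact mul_nonneg (by positivity) (htail j)
    · have h2 : η < tail P s lam v E R' j := not_le.mp h
      calc (1:ℝ) = 1 / η * η := by field_simp
        _ ≤ _ := by gcongr
  have hN : 4 * ∑ j ∈ Finset.range n, ∑ j' ∈ Finset.range n, Q j j' * (if j ∈ T then 0 else 1)
      + 8 * ∑ j ∈ Finset.range n, ∑ j' ∈ Finset.range n, Q j j' * (if j' ∈ T then 0 else 1)
      ≤ ∑ j ∈ Finset.range n, ∑ j' ∈ Finset.range n,
            Q j j' * (4 / η * tail P s lam v E R' j + 8 / η * tail P s lam v E R' j') := by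
    rw [Finset.mul_sum, Finset.mul_sum, ← Finset.sum_add_distrib]
    apply Finset.sum_le_sum
    intro j _
    rw [Finset.mul_sum, Finset.mul_sum, ← Finset.sum_add_distrib]
    apply Finset.sum_le_sum
    intro j' _
    have h1 := mul_le_mul_of_nonneg_left (hnt j) (hQ0 j j')
    have h2 := mul_le_mul_of_nonneg_left (hnt j') (hQ0 j j')
    have e : Q j j' * (4 / η * tail P s lam v E R' j + 8 / η * tail P s lam v E R' j')
        = 4 * (Q j j' * (1 / η * tail P s lam v E R' j))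
          + 8 * (Q j j' * (1 / η * tail P s lam v E R' j')) := by ring
    rw [e]
    linarith
  have hfin : 2 / K * ∑ j ∈ Finset.range n, ∑ j' ∈ Finset.range n,
        Q j j' * P.real (Bd b R (j + 1) ∩ Bd b R (j' + 1)) ≤
      2 / K * (R ^ 2 / α ^ 2 * (8 + 24 * K / k + 48 * (k * (2 * aper R t + 1)) ^ 2 / cD
        + ∑ j ∈ Finset.range n, ∑ j' ∈ Finset.range n,
            Q j j' * (4 / η * tail P s lam v E R' j + 8 / η * tail P s lam v E R' j')))
      + 2 / K * ∑ j ∈ Finset.range n, ∑ j' ∈ Finset.range n,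
          Q j j' * P.real (BadR b t (j + 1) (j' - j)) := by
    rw [← mul_add]
    apply mul_le_mul_of_nonneg_left _ (by positivity)
    refine hcore.trans ?_
    apply add_le_add _ le_rfl
    apply mul_le_mul_of_nonneg_left _ (by positivity)
    linarith
  linarith

end Pool.Agent.W_MP_b6e843_mp
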