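import Pool.Agent.W_MP_b6e843_mp.Boundary

/-! # Weak type bounds for the averages and the transfer matrices -/

namespace Pool.Agent.W_MP_b6e843_mp

open Complex MeasureTheory Set Filter
open scoped Topology Real

variable {s : ℕ → ℕ} {lam : ℝ}

section Meas

variable {α : Type*} [MeasurableSpace α]

lemma measurable_ravg {f : α → ℝ} (hf : Measurable f) {V : α → Vertex s → ℝ}
    (hV : ∀ x, Measurable (fun a => V a x)) (j : ℕ) :
    Measurable (fun a => ravg s lam (V a) (f a) j) := by
  unfold ravg avg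
  apply Measurable.const_mul
  apply Finset.measurable_fun_sum
  intro i _
  exact (hf.sub ((hV _).const_mul lam)).inv

lemma measurable_tm {b : α → ℕ → ℝ} (hb : ∀ j, Measurable (fun a => b a j)) (i m : ℕ) :
    ∀ c d : Fin 2, Measurable (fun a => tm (b a) i m c d) := by
  induction m with
  | zero =>
    intro c d
    simp only [tm_zero]
    exact measurable_const
  | succ m ih =>
    intro c d
    fin_cases c <;> fin_cases d
    · simp only [Fin.zero_eta, tm_succ_00]
      exact ((hb _).mul (ih 0 0)).sub (ih 1 0)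
    · simp only [Fin.zero_eta, Fin.mk_one, tm_succ_01]
      exact ((hb _).mul (ih 0 1)).sub (ih 1 1)
    · simp only [Fin.zero_eta, Fin.mk_one, tm_succ_10]
      exact ih 0 0
    · simp only [Fin.mk_one, tm_succ_11]
      exact ih 0 1

lemma measurable_rtm {f : α → ℝ} (hf : Measurable f) {V : α → Vertex s → ℝ}
    (hV : ∀ x, Measurable (fun a => V a x)) (i m : ℕ) (c d : Fin 2) :
    Measurable (fun a => rtm s lam (V a) (f a) i m c d) := by
  unfold rtm
  exact measurable_tm (fun j => (measurable_ravg hf hV j).inv) i m c d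

end Meas

lemma tendsto_vertical (x : ℝ) : Tendsto (fun ε : ℝ => (x : ℂ) + ε * I) (𝓝[>] 0) (𝓝 (x : ℂ)) := by
  have h1 : Continuous (fun ε : ℝ => (x : ℂ) + ε * I) := by fun_prop
  have h2 := h1.tendsto 0
  simp only [ofReal_zero, zero_mul, add_zero] at h2
  exact h2.mono_left nhdsWithin_le_nhds

variable {v : Vertex s → ℝ}

theorem weak_avg (hs : ∀ n, 0 < s n) (lam : ℝ) (v : Vertex s → ℝ) (j : ℕ) {R : ℝ} (hR : 0 < R)
    (L : ℝ) : volume {E : ℝ | |E| ≤ L ∧ R ≤ |ravg s lam v E j|}
      ≤ ENNReal.ofReal ((1 + L ^ 2) * (2 * π * 1 / R)) := by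
  apply weak_type (G := fun z => cavg s lam v z j)
  · intro z hz
    exact (reg_of_im_pos hs hz).differentiableAt_cavg j
  · intro z hz
    exact (cavg_im_neg (hs j) hz).le
  · exact measurable_ravg (V := fun _ : ℝ => v) measurable_id (fun x => measurable_const) j
  · filter_upwards [ae_reg hs lam v] with x hx
    rw [← cavg_ofReal]
    exact (hx.differentiableAt_cavg j).continuousAt.tendsto.comp (tendsto_vertical x)
  · exact hR
  · have := norm_cavg_le (lam := lam) (v := v) (hs j) (z := I) (by simp)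
    simpa using this

theorem weak_ratio (hs : ∀ n, 0 < s n) (hv : ∀ x, |v x| ≤ 1) (i m : ℕ) {t : ℝ} (ht : 0 < t)
    (L : ℝ) : volume {E : ℝ | |E| ≤ L ∧
        t ≤ |rtm s lam v E i (m + 1) 0 0 / rtm s lam v E i (m + 1) 1 0|}
      ≤ ENNReal.ofReal ((1 + L ^ 2) * (2 * π * (2 + lam ^ 2) / t)) := by
  have e : {E : ℝ | |E| ≤ L ∧ t ≤ |rtm s lam v E i (m + 1) 0 0 / rtm s lam v E i (m + 1) 1 0|}
      = {E : ℝ | |E| ≤ L ∧
        t ≤ |(fun E => -(rtm s lam v E i (m + 1) 0 0 / rtm s lam v E i (m + 1) 1 0)) E|} := by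
    simp
  rw [e]
  apply weak_type
    (G := fun z => -(ctm s lam v z i (m + 1) 0 0 / ctm s lam v z i (m + 1) 1 0))
  · intro z hz
    have hr := reg_of_im_pos (lam := lam) (v := v) hs hz
    apply DifferentiableAt.fun_neg
    apply DifferentiableAt.fun_div (hr.differentiableAt_ctm _ _ _ _)
      (hr.differentiableAt_ctm _ _ _ _)
    exact (tm_ratio hz (fun j => im_cavg_inv (hs j) hz) i m).1
  · intro z hz
    have := (tm_ratio (b := fun j => (cavg s lam v z j)⁻¹) hz
      (fun j => im_cavg_inv (hs j) hz) i m).2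
    rw [neg_im]
    unfold ctm
    linarith
  · have := fun c d => measurable_rtm (s := s) (lam := lam) (V := fun _ : ℝ => v) measurable_id
      (fun x => measurable_const) i (m + 1) c d
    exact ((this 0 0).div (this 1 0)).neg
  · filter_upwards [ae_reg hs lam v, ae_ctm_ne hs lam v] with x hx hx2
    have h10 : rtm s lam v x i (m + 1) 1 0 ≠ 0 := by
      have := hx2 i m
      unfold rtm at this ⊢
      rwa [tm_succ_10]
    have h1 : ContinuousAt (fun z => -(ctm s lam v z i (m + 1) 0 0 / ctm s lam v z i (m + 1) 1 0))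
        (x : ℂ) := by
      apply ContinuousAt.neg
      apply ContinuousAt.div (hx.differentiableAt_ctm _ _ _ _).continuousAt
        (hx.differentiableAt_ctm _ _ _ _).continuousAt
      rw [ctm_ofReal]
      exact_mod_cast h10
    have h2 := h1.tendsto.comp (tendsto_vertical x)
    simp only [ctm_ofReal] at h2
    push_cast
    exact h2
  · exact ht
  · have h1 : ∀ j, (1:ℝ) ≤ ((cavg s lam v I j)⁻¹).im := by
      intro j
      have := im_cavg_inv (lam := lam) (v := v) (hs j) (z := I) (by simp)
      simpa using this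
    have := norm_tm_ratio_le (y := 1) one_pos h1 (B := 1 + lam ^ 2)
      (fun j => norm_cavg_inv_le (hs j) hv) i m
    rw [norm_neg]
    unfold ctm
    refine this.trans (by norm_num; linarith)

theorem weak_quot (hs : ∀ n, 0 < s n) (lam : ℝ) (v : Vertex s → ℝ) (i m : ℕ) {t : ℝ} (ht : 0 < t)
    (L : ℝ) : volume {E : ℝ | |E| ≤ L ∧
        t ≤ |rtm s lam v E i m 0 1 / rtm s lam v E i m 0 0|}
      ≤ ENNReal.ofReal ((1 + L ^ 2) * (2 * π * 1 / t)) := by
  have e : {E : ℝ | |E| ≤ L ∧ t ≤ |rtm s lam v E i m 0 1 / rtm s lam v E i m 0 0|}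
      = {E : ℝ | |E| ≤ L ∧
        t ≤ |(fun E => -(rtm s lam v E i m 0 1 / rtm s lam v E i m 0 0)) E|} := by
    simp
  rw [e]
  apply weak_type
    (G := fun z => -(ctm s lam v z i m 0 1 / ctm s lam v z i m 0 0))
  · intro z hz
    have hr := reg_of_im_pos (lam := lam) (v := v) hs hz
    apply DifferentiableAt.fun_neg
    apply DifferentiableAt.fun_div (hr.differentiableAt_ctm _ _ _ _)
      (hr.differentiableAt_ctm _ _ _ _)
    exact ctm_00_ne hs hz i m
  · intro z hz
    exact (tm_quot (b := fun j => (cavg s lam v z j)⁻¹) hz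
      (fun j => im_cavg_inv (hs j) hz) m i).1
  · have := fun c d => measurable_rtm (s := s) (lam := lam) (V := fun _ : ℝ => v) measurable_id
      (fun x => measurable_const) i m c d
    exact ((this 0 1).div (this 0 0)).neg
  · filter_upwards [ae_reg hs lam v, ae_ctm_ne hs lam v] with x hx hx2
    have h1 : ContinuousAt (fun z => -(ctm s lam v z i m 0 1 / ctm s lam v z i m 0 0))
        (x : ℂ) := by
      apply ContinuousAt.neg
      apply ContinuousAt.div (hx.differentiableAt_ctm _ _ _ _).continuousAt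
        (hx.differentiableAt_ctm _ _ _ _).continuousAt
      rw [ctm_ofReal]
      exact_mod_cast hx2 i m
    have h2 := h1.tendsto.comp (tendsto_vertical x)
    simp only [ctm_ofReal] at h2
    push_cast
    exact h2
  · exact ht
  · have h1 : ∀ j, (1:ℝ) ≤ ((cavg s lam v I j)⁻¹).im := by
      intro j
      have := im_cavg_inv (lam := lam) (v := v) (hs j) (z := I) (by simp)
      simpa using this
    have := (tm_quot (y := 1) one_pos h1 m i).2
    rw [norm_neg]
    unfold ctm
    simpa using this

end Pool.Agent.W_MP_b6e843_mp
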