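import Pool.Agent.W_MP_b6e843_mp.Antitree
import Pool.Agent.W_MP_b6e843_mp.Weak
import Pool.Agent.W_MP_b6e843_mp.PerE

/-! # Bounds for the transfer matrices on the absolutely continuous support -/

namespace Pool.Agent.W_MP_b6e843_mp

open MeasureTheory Set Filter Polynomial
open scoped Topology Real ENNReal

variable {s : ℕ → ℕ} {lam : ℝ} {u : Vertex s → ℝ} {H : L2 s →L[ℂ] L2 s} {μ : Measure ℝ}

/-- The product of the denominators. -/
noncomputable def polQ (s : ℕ → ℕ) (lam : ℝ) (u : Vertex s → ℝ) (n : ℕ) : ℝ[X] :=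
  ∏ j ∈ Finset.range n, polN s lam u j

lemma polQ_ne_zero (hs : ∀ n, 0 < s n) (n : ℕ) : polQ s lam u n ≠ 0 :=
  Finset.prod_ne_zero_iff.mpr (fun j _ => polN_ne_zero hs j)

lemma ae_rtm_eq (hs : ∀ n, 0 < s n) (lam : ℝ) (u : Vertex s → ℝ) (n : ℕ) :
    ∀ᵐ E : ℝ, (polQ s lam u n).eval E ≠ 0 ∧
      rtm s lam u E 0 n 0 0 = (polP s lam u 0 n).eval E / (polQ s lam u n).eval E := by
  filter_upwards [ae_reg hs lam u, ae_eval_ne_zero (polQ_ne_zero (lam := lam) (u := u) hs n)]
    with E hE hQ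
  refine ⟨hQ, ?_⟩
  have h1 := hE.ctm_00 0 n
  rw [ctm_ofReal, aeval_ofReal] at h1
  have h2 : ∏ j ∈ Finset.range n, aeval (E : ℂ) (polN s lam u (0 + j))
      = (((polQ s lam u n).eval E : ℝ) : ℂ) := by
    unfold polQ
    rw [eval_prod]
    push_cast
    apply Finset.prod_congr rfl
    intro j _
    rw [zero_add, aeval_ofReal]
  rw [h2, ← Complex.ofReal_div] at h1
  exact_mod_cast h1

/-- The energy bound `∫ u_n² w ≤ 1`. -/
theorem lintegral_sq_le (hs : ∀ n, 0 < s n) (hH : IsAnderson s lam u H) (hsa : IsSelfAdjoint H)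
    (hμ : IsSpectralMeasure H (shellVec s 0) μ) (n : ℕ) :
    ∫⁻ E, ENNReal.ofReal (rtm s lam u E 0 n 0 0 ^ 2) * μ.rnDeriv volume E ≤ 1 := by
  have hfin := hμ.1
  obtain ⟨μn, hμn⟩ := exists_isSpectralMeasure hsa (shellVec s n)
  have heq := hμ.withDensity_poly hsa hμn (polP s lam u 0 n) (polQ s lam u n)
    (hH.aeval_shellVec hs n).symm
  set p := polP s lam u 0 n with hp
  set q := polQ s lam u n with hq
  have hpm : Measurable (fun x : ℝ => ENNReal.ofReal ((p.eval x) ^ 2)) := by fun_prop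
  have hqm : Measurable (fun x : ℝ => ENNReal.ofReal ((q.eval x) ^ 2)) := by fun_prop
  set S : Set ℝ := {x | q.eval x ≠ 0} with hS
  have hSm : MeasurableSet S := by
    have : MeasurableSet {x : ℝ | q.eval x = 0} :=
      measurableSet_eq_fun (by fun_prop) measurable_const
    exact this.compl
  set g : ℝ → ℝ≥0∞ := S.indicator (fun x => ENNReal.ofReal (((q.eval x) ^ 2)⁻¹)) with hg
  have hgm : Measurable g := by
    apply Measurable.indicator _ hSm
    fun_prop
  have h1 : ∫⁻ x, ENNReal.ofReal ((p.eval x) ^ 2) * g x ∂μ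
      = ∫⁻ x, ENNReal.ofReal ((q.eval x) ^ 2) * g x ∂μn := by
    have a := lintegral_withDensity_eq_lintegral_mul μ hpm hgm
    have b := lintegral_withDensity_eq_lintegral_mul μn hqm hgm
    rw [heq, b] at a
    exact a.symm
  have h2 : ∫⁻ x, ENNReal.ofReal ((q.eval x) ^ 2) * g x ∂μn ≤ 1 := by
    calc ∫⁻ x, ENNReal.ofReal ((q.eval x) ^ 2) * g x ∂μn ≤ ∫⁻ _, 1 ∂μn := by
          apply lintegral_mono
          intro x
          simp only [hg]
          by_cases hx : x ∈ S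
          · rw [indicator_of_mem hx, ← ENNReal.ofReal_mul (sq_nonneg _),
              mul_inv_cancel₀ (pow_ne_zero 2 hx), ENNReal.ofReal_one]
          · rw [indicator_of_notMem hx, mul_zero]
            exact zero_le
      _ = μn Set.univ := by simp
      _ = 1 := by
          rw [hμn.univ, norm_shellVec hs]
          norm_num
  have h3 : ∫⁻ E, ENNReal.ofReal (rtm s lam u E 0 n 0 0 ^ 2) * μ.rnDeriv volume E
      = ∫⁻ E, μ.rnDeriv volume E * (ENNReal.ofReal ((p.eval E) ^ 2) * g E) := by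
    apply lintegral_congr_ae
    filter_upwards [ae_rtm_eq hs lam u n] with E hE
    obtain ⟨hE1, hE2⟩ := hE
    have hxS : E ∈ S := hE1
    simp only [hg]
    rw [hE2, indicator_of_mem hxS, ← ENNReal.ofReal_mul (sq_nonneg _), mul_comm, div_pow,
      div_eq_mul_inv]
  have h4 : ∫⁻ E, μ.rnDeriv volume E * (ENNReal.ofReal ((p.eval E) ^ 2) * g E)
      = ∫⁻ E, ENNReal.ofReal ((p.eval E) ^ 2) * g E ∂(volume.withDensity (μ.rnDeriv volume)) := by
    have hpg : Measurable (fun E => ENNReal.ofReal ((p.eval E) ^ 2) * g E) := hpm.mul hgm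
    exact (lintegral_withDensity_eq_lintegral_mul _ (Measure.measurable_rnDeriv _ _) hpg).symm
  rw [h3, h4]
  calc ∫⁻ E, ENNReal.ofReal ((p.eval E) ^ 2) * g E ∂(volume.withDensity (μ.rnDeriv volume))
      ≤ ∫⁻ E, ENNReal.ofReal ((p.eval E) ^ 2) * g E ∂μ :=
        lintegral_mono' (Measure.withDensity_rnDeriv_le _ _) le_rfl
    _ = _ := h1
    _ ≤ 1 := h2

/-- The part of the interval where the density is at least `δ`. -/
def Aset (μ : Measure ℝ) (L δ : ℝ) : Set ℝ :=
  {E | |E| ≤ L ∧ ENNReal.ofReal δ ≤ μ.rnDeriv volume E}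

lemma measurableSet_Aset (μ : Measure ℝ) (L δ : ℝ) : MeasurableSet (Aset μ L δ) :=
  (measurableSet_le measurable_id.abs measurable_const).inter
    (measurableSet_le measurable_const (Measure.measurable_rnDeriv _ _))

lemma volume_u_gt (hs : ∀ n, 0 < s n) (hH : IsAnderson s lam u H) (hsa : IsSelfAdjoint H)
    (hμ : IsSpectralMeasure H (shellVec s 0) μ) (n : ℕ) {L δ ρ : ℝ} (hδ : 0 < δ) (hρ : 0 < ρ) :
    volume {E | E ∈ Aset μ L δ ∧ ρ < |rtm s lam u E 0 n 0 0|}
      ≤ ENNReal.ofReal (1 / (δ * ρ ^ 2)) := by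
  have h := lintegral_sq_le hs hH hsa hμ n
  set f : ℝ → ℝ≥0∞ := fun E => ENNReal.ofReal (rtm s lam u E 0 n 0 0 ^ 2) * μ.rnDeriv volume E
    with hf
  have hfm : AEMeasurable f := by
    apply Measurable.aemeasurable
    apply Measurable.mul _ (Measure.measurable_rnDeriv _ _)
    exact ((measurable_rtm (s := s) (lam := lam) (V := fun _ : ℝ => u) measurable_id
      (fun x => measurable_const) 0 n 0 0).pow_const 2).ennreal_ofReal
  have hM := mul_meas_ge_le_lintegral₀ hfm (ENNReal.ofReal (δ * ρ ^ 2))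
  have hsub : {E | E ∈ Aset μ L δ ∧ ρ < |rtm s lam u E 0 n 0 0|}
      ⊆ {E | ENNReal.ofReal (δ * ρ ^ 2) ≤ f E} := by
    rintro E ⟨⟨_, h1⟩, h2⟩
    simp only [mem_ofPred_eq, hf]
    rw [mul_comm δ, ENNReal.ofReal_mul (by positivity)]
    apply mul_le_mul' _ h1
    apply ENNReal.ofReal_le_ofReal
    rw [← sq_abs (rtm s lam u E 0 n 0 0)]
    exact pow_le_pow_left₀ hρ.le h2.le 2
  have hpos : ENNReal.ofReal (δ * ρ ^ 2) ≠ 0 := by
    rw [Ne, ENNReal.ofReal_eq_zero, not_le]
    positivity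
  calc volume {E | E ∈ Aset μ L δ ∧ ρ < |rtm s lam u E 0 n 0 0|}
      ≤ volume {E | ENNReal.ofReal (δ * ρ ^ 2) ≤ f E} := measure_mono hsub
    _ ≤ 1 / ENNReal.ofReal (δ * ρ ^ 2) := by
        rw [ENNReal.le_div_iff_mul_le (Or.inl hpos) (Or.inl ENNReal.ofReal_ne_top), mul_comm]
        exact hM.trans h
    _ = ENNReal.ofReal (1 / (δ * ρ ^ 2)) := by
        rw [ENNReal.ofReal_div_of_pos (by positivity), ENNReal.ofReal_one]

lemma volume_q_gt (hs : ∀ n, 0 < s n) (hH : IsAnderson s lam u H) (hsa : IsSelfAdjoint H)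
    (hμ : IsSpectralMeasure H (shellVec s 0) μ) (n : ℕ) {L δ R : ℝ} (hδ : 0 < δ) (hR : 0 < R) :
    volume {E | E ∈ Aset μ L δ ∧ R < |rtm s lam u E 0 n 0 1|}
      ≤ ENNReal.ofReal (1 / (δ * R) + (1 + L ^ 2) * (2 * π * 1 / √R)) := by
  have hsq : 0 < √R := Real.sqrt_pos.mpr hR
  have h1 := volume_u_gt (L := L) hs hH hsa hμ n hδ hsq
  have h2 := weak_quot hs lam u 0 n hsq L
  rw [Real.sq_sqrt hR.le] at h1
  have h0 : volume {E : ℝ | rtm s lam u E 0 n 0 0 = 0} = 0 := by
    have := ae_ctm_ne hs lam u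
    rw [ae_iff] at this
    refine measure_mono_null ?_ this
    intro E hE
    simp only [mem_ofPred_eq] at hE ⊢
    push Not
    exact ⟨0, n, hE⟩
  rw [ENNReal.ofReal_add (by positivity) (by positivity)]
  calc volume {E | E ∈ Aset μ L δ ∧ R < |rtm s lam u E 0 n 0 1|}
      ≤ volume (({E | E ∈ Aset μ L δ ∧ √R < |rtm s lam u E 0 n 0 0|}
        ∪ {E : ℝ | |E| ≤ L ∧ √R ≤ |rtm s lam u E 0 n 0 1 / rtm s lam u E 0 n 0 0|})
        ∪ {E : ℝ | rtm s lam u E 0 n 0 0 = 0}) := by
        apply measure_mono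
        rintro E ⟨hE1, hE2⟩
        by_cases hz : rtm s lam u E 0 n 0 0 = 0
        · exact Or.inr hz
        left
        by_cases hu : √R < |rtm s lam u E 0 n 0 0|
        · exact Or.inl ⟨hE1, hu⟩
        · right
          refine ⟨hE1.1, ?_⟩
          rw [abs_div, le_div_iff₀ (abs_pos.mpr hz)]
          calc √R * |rtm s lam u E 0 n 0 0| ≤ √R * √R := by
                gcongr
                exact not_lt.mp hu
            _ = R := Real.mul_self_sqrt hR.le
            _ ≤ _ := hE2.le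
    _ ≤ volume ({E | E ∈ Aset μ L δ ∧ √R < |rtm s lam u E 0 n 0 0|}
        ∪ {E : ℝ | |E| ≤ L ∧ √R ≤ |rtm s lam u E 0 n 0 1 / rtm s lam u E 0 n 0 0|})
        + volume {E : ℝ | rtm s lam u E 0 n 0 0 = 0} := measure_union_le _ _
    _ ≤ (volume {E | E ∈ Aset μ L δ ∧ √R < |rtm s lam u E 0 n 0 0|}
        + volume {E : ℝ | |E| ≤ L ∧ √R ≤ |rtm s lam u E 0 n 0 1 / rtm s lam u E 0 n 0 0|})
        + volume {E : ℝ | rtm s lam u E 0 n 0 0 = 0} := by
        gcongr
        exact measure_union_le _ _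
    _ ≤ _ := by
        rw [h0, add_zero]
        exact add_le_add h1 h2

/-- The exceptional size. -/
noncomputable def eδ (L δ R : ℝ) : ℝ :=
  2 * (1 / (δ * R ^ 2)) + 2 * (1 / (δ * R) + (1 + L ^ 2) * (2 * π * 1 / √R))

lemma eδ_nonneg {L δ R : ℝ} (hδ : 0 < δ) (hR : 0 < R) : 0 ≤ eδ L δ R := by
  unfold eδ
  positivity

/-- The boundedness event, as a set of energies. -/
def BdE (s : ℕ → ℕ) (lam : ℝ) (u : Vertex s → ℝ) (R : ℝ) (i : ℕ) : Set ℝ :=
  {E | ∀ c d, |rtm s lam u E 0 i c d| ≤ R}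

lemma measurableSet_BdE (s : ℕ → ℕ) (lam : ℝ) (u : Vertex s → ℝ) (R : ℝ) (i : ℕ) :
    MeasurableSet (BdE s lam u R i) := by
  unfold BdE
  simp only [Set.ofPred_forall]
  refine MeasurableSet.iInter (fun c => MeasurableSet.iInter (fun d => ?_))
  exact measurableSet_le (measurable_rtm (s := s) (lam := lam) (V := fun _ : ℝ => u) measurable_id
      (fun x => measurable_const) 0 i c d).abs measurable_const

lemma volume_not_BdE (hs : ∀ n, 0 < s n) (hH : IsAnderson s lam u H) (hsa : IsSelfAdjoint H)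
    (hμ : IsSpectralMeasure H (shellVec s 0) μ) (i : ℕ) {L δ R : ℝ} (hδ : 0 < δ) (hR : 1 ≤ R) :
    volume (Aset μ L δ ∩ (BdE s lam u R i)ᶜ) ≤ ENNReal.ofReal (eδ L δ R) := by
  have hR0 : 0 < R := by linarith
  cases i with
  | zero =>
    have : Aset μ L δ ∩ (BdE s lam u R 0)ᶜ = ∅ := by
      apply eq_empty_of_forall_notMem
      rintro E ⟨_, h⟩
      apply h
      intro c d
      have e : rtm s lam u E 0 0 = 1 := rfl
      rw [e]
      fin_cases c <;> fin_cases d <;> simp <;> linarith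
    rw [this, measure_empty]
    exact zero_le
  | succ m =>
    have hu1 := volume_u_gt (L := L) hs hH hsa hμ (m + 1) hδ hR0
    have hu2 := volume_u_gt (L := L) hs hH hsa hμ m hδ hR0
    have hq1 := volume_q_gt (L := L) hs hH hsa hμ (m + 1) hδ hR0
    have hq2 := volume_q_gt (L := L) hs hH hsa hμ m hδ hR0
    have hsub : Aset μ L δ ∩ (BdE s lam u R (m + 1))ᶜ ⊆
        (({E | E ∈ Aset μ L δ ∧ R < |rtm s lam u E 0 (m + 1) 0 0|}
        ∪ {E | E ∈ Aset μ L δ ∧ R < |rtm s lam u E 0 m 0 0|})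
        ∪ ({E | E ∈ Aset μ L δ ∧ R < |rtm s lam u E 0 (m + 1) 0 1|}
        ∪ {E | E ∈ Aset μ L δ ∧ R < |rtm s lam u E 0 m 0 1|})) := by
      rintro E ⟨hE1, hE2⟩
      by_contra hcon
      simp only [mem_union, mem_ofPred_eq, not_or, not_and, not_lt] at hcon
      obtain ⟨⟨a, b⟩, c, d⟩ := hcon
      apply hE2
      intro x y
      fin_cases x <;> fin_cases y
      · exact a hE1
      · exact c hE1
      · have := b hE1
        unfold rtm at this ⊢
        simp only [Fin.zero_eta, Fin.mk_one]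
        rw [tm_succ_10]
        exact this
      · have := d hE1
        unfold rtm at this ⊢
        simp only [Fin.mk_one]
        rw [tm_succ_11]
        exact this
    calc volume (Aset μ L δ ∩ (BdE s lam u R (m + 1))ᶜ) ≤ _ := measure_mono hsub
      _ ≤ _ := measure_union_le _ _
      _ ≤ (_ + _) + (_ + _) := add_le_add (measure_union_le _ _) (measure_union_le _ _)
      _ ≤ (ENNReal.ofReal (1 / (δ * R ^ 2)) + ENNReal.ofReal (1 / (δ * R ^ 2)))
          + (ENNReal.ofReal (1 / (δ * R) + (1 + L ^ 2) * (2 * π * 1 / √R))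
          + ENNReal.ofReal (1 / (δ * R) + (1 + L ^ 2) * (2 * π * 1 / √R))) := by
          gcongr
      _ = ENNReal.ofReal (eδ L δ R) := by
          rw [← ENNReal.ofReal_add (by positivity) (by positivity),
            ← ENNReal.ofReal_add (by positivity) (by positivity),
            ← ENNReal.ofReal_add (by positivity) (by positivity)]
          congr 1
          unfold eδ
          ring

end Pool.Agent.W_MP_b6e843_mp
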