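import Pool.Agent.W_MP_b6e843_mp.Conclude

/-! # The main theorem -/

namespace Pool.Agent.W_MP_b6e843_mp

open MeasureTheory Set Filter ProbabilityTheory
open scoped Topology Real ENNReal

variable {Ω : Type*} [MeasurableSpace Ω] {P : Measure Ω} [IsProbabilityMeasure P]

lemma lintegral_section_le {S : Set (ℝ × Ω)} (hS : MeasurableSet S) {L ε : ℝ}
    (h : ∫ E in Icc (-L) L, P.real {ω | (E, ω) ∈ S} ≤ ε) :
    ∫⁻ ω, volume {E : ℝ | |E| ≤ L ∧ (E, ω) ∈ S} ∂P ≤ ENNReal.ofReal ε := by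
  have h2 : ∫⁻ E in Icc (-L) L, P {ω | (E, ω) ∈ S}
      = ((volume.restrict (Icc (-L) L)).prod P) S := (Measure.prod_apply hS).symm
  have h3 : ((volume.restrict (Icc (-L) L)).prod P) S
      = ∫⁻ ω, (volume.restrict (Icc (-L) L)) {E | (E, ω) ∈ S} ∂P := Measure.prod_apply_symm hS
  have h4 : ∀ ω, (volume.restrict (Icc (-L) L)) {E | (E, ω) ∈ S}
      = volume {E : ℝ | |E| ≤ L ∧ (E, ω) ∈ S} := by
    intro ω
    have hr : (volume.restrict (Icc (-L) L)) {E | (E, ω) ∈ S}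
        = volume ({E | (E, ω) ∈ S} ∩ Icc (-L) L) :=
      Measure.restrict_apply (measurable_prodMk_right hS)
    rw [hr]
    congr 1
    ext E
    simp only [mem_inter_iff, mem_ofPred_eq, mem_Icc, abs_le]
    tauto
  simp_rw [h4] at h3
  rw [← h3, ← h2]
  have h5 : ENNReal.ofReal (∫ E in Icc (-L) L, P.real {ω | (E, ω) ∈ S})
      = ∫⁻ E in Icc (-L) L, ENNReal.ofReal (P.real {ω | (E, ω) ∈ S}) :=
    ofReal_integral_eq_lintegral_ofReal (integrable_section hS L)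
      (Eventually.of_forall (fun _ => measureReal_nonneg))
  have h6 : ∫⁻ E in Icc (-L) L, P {ω | (E, ω) ∈ S}
      = ∫⁻ E in Icc (-L) L, ENNReal.ofReal (P.real {ω | (E, ω) ∈ S}) := by
    congr 1
    funext E
    rw [ofReal_measureReal (measure_ne_top _ _)]
  rw [h6, ← h5]
  exact ENNReal.ofReal_le_ofReal h

lemma measurable_section_volume {S : Set (ℝ × Ω)} (hS : MeasurableSet S) (L : ℝ) :
    Measurable (fun ω => volume {E : ℝ | |E| ≤ L ∧ (E, ω) ∈ S}) := by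
  have hS' : MeasurableSet ({q : ℝ × Ω | |q.1| ≤ L} ∩ S) :=
    (measurableSet_le measurable_fst.abs measurable_const).inter hS
  exact measurable_measure_prodMk_right hS'

/-- Borel–Cantelli. -/
lemma ae_tendsto_of_summable {g : ℕ → Ω → ℝ≥0∞} (hg : ∀ i, Measurable (g i))
    (h : ∀ i, ∫⁻ ω, g i ω ∂P ≤ ENNReal.ofReal ((1 / 2) ^ i)) :
    ∀ᵐ ω ∂P, Tendsto (fun i => g i ω) atTop (𝓝 0) := by
  have h1 : ∫⁻ ω, ∑' i, g i ω ∂P ≠ ⊤ := by
    rw [lintegral_tsum (fun i => (hg i).aemeasurable)]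
    have h2 : ∑' i, ∫⁻ ω, g i ω ∂P ≤ ∑' i : ℕ, ENNReal.ofReal ((1 / 2) ^ i) :=
      ENNReal.tsum_le_tsum h
    have h3 : ∑' i : ℕ, ENNReal.ofReal ((1 / 2) ^ i) ≠ ⊤ := by
      rw [← ENNReal.ofReal_tsum_of_nonneg (fun i => by positivity)
        (summable_geometric_of_lt_one (by norm_num) (by norm_num))]
      exact ENNReal.ofReal_ne_top
    exact ne_top_of_le_ne_top h3 h2
  have h4 := ae_lt_top (Measurable.ennreal_tsum hg) h1
  filter_upwards [h4] with ω hω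
  exact ENNReal.tendsto_atTop_zero_of_tsum_ne_top hω.ne

/-- Nondegenerate laws put mass on separated pairs. -/
lemma exists_separated {ν : Measure ℝ} [IsProbabilityMeasure ν] (hsupp : ν (Icc (-1) 1)ᶜ = 0)
    (hmean : ∫ t, t ∂ν = 0) (hvar : 0 < ∫ t, t ^ 2 ∂ν) :
    ∃ τ p : ℝ, 0 < τ ∧ 0 < p ∧ p ≤ (ν.prod ν).real {q | τ ≤ |q.1 - q.2|} := by
  by_contra hcon
  push Not at hcon
  have hae : ∀ᵐ t ∂ν, |t| ≤ 1 := by
    rw [ae_iff]
    refine measure_mono_null ?_ hsupp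
    intro y hy
    simp only [mem_ofPred_eq] at hy
    rw [mem_compl_iff, mem_Icc, ← abs_le]
    exact hy
  have hi1 : Integrable (fun t : ℝ => t) ν := by
    apply Integrable.of_bound (C := 1) measurable_id.aestronglyMeasurable
    filter_upwards [hae] with t ht using ht
  have hi2 : Integrable (fun t : ℝ => t ^ 2) ν := by
    apply Integrable.of_bound (C := 1) (measurable_id.pow_const 2).aestronglyMeasurable
    filter_upwards [hae] with t ht
    simp only [id_eq, norm_pow, Real.norm_eq_abs]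
    exact pow_le_one₀ (abs_nonneg _) ht
  have hnull : ∀ n : ℕ, (ν.prod ν) {q | 1 / ((n : ℝ) + 1) ≤ |q.1 - q.2|} = 0 := by
    intro n
    by_contra hne
    have hpos : 0 < (ν.prod ν).real {q : ℝ × ℝ | 1 / ((n : ℝ) + 1) ≤ |q.1 - q.2|} := by
      rw [measureReal_def]
      exact ENNReal.toReal_pos hne (measure_ne_top _ _)
    exact absurd (hcon (1 / ((n : ℝ) + 1)) _ (by positivity) hpos) (lt_irrefl _)
  have heq : ∀ᵐ q ∂(ν.prod ν), (q.1 - q.2) ^ 2 = 0 := by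
    have h1 : ∀ᵐ q ∂(ν.prod ν), ∀ n : ℕ, ¬ (1 / ((n : ℝ) + 1) ≤ |q.1 - q.2|) := by
      rw [ae_all_iff]
      intro n
      rw [ae_iff]
      simp only [not_not]
      exact hnull n
    filter_upwards [h1] with q hq
    by_contra hne
    have hpos : 0 < |q.1 - q.2| := by
      rw [abs_pos]
      intro h
      apply hne
      rw [h]
      norm_num
    obtain ⟨n, hn⟩ := exists_nat_one_div_lt hpos
    exact hq n hn.le
  have h0 : ∫ q, (q.1 - q.2) ^ 2 ∂(ν.prod ν) = 0 := by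
    rw [integral_congr_ae heq]
    simp
  have e : ∀ q : ℝ × ℝ, (q.1 - q.2) ^ 2 = q.1 ^ 2 + q.2 ^ 2 - 2 * (q.1 * q.2) := by
    intro q
    ring
  simp_rw [e] at h0
  have i1 : Integrable (fun q : ℝ × ℝ => q.1 ^ 2) (ν.prod ν) := hi2.comp_fst ν
  have i2 : Integrable (fun q : ℝ × ℝ => q.2 ^ 2) (ν.prod ν) := hi2.comp_snd ν
  have i12 : Integrable (fun q : ℝ × ℝ => q.1 ^ 2 + q.2 ^ 2) (ν.prod ν) := i1.add i2
  have i3 : Integrable (fun q : ℝ × ℝ => 2 * (q.1 * q.2)) (ν.prod ν) :=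
    (hi1.mul_prod hi1).const_mul 2
  rw [integral_sub i12 i3, integral_add i1 i2, integral_const_mul,
    integral_prod_mul (fun t : ℝ => t) (fun t : ℝ => t),
    integral_fun_fst (fun t : ℝ => t ^ 2), integral_fun_snd (fun t : ℝ => t ^ 2), hmean] at h0
  simp only [probReal_univ, one_smul, mul_zero, sub_zero] at h0
  linarith

/-- The main theorem. -/
theorem main {s : ℕ → ℕ} (hs : ∀ n, 0 < s n) (hdiv : ¬ Summable (fun n => 1 / (s n : ℝ)))
    {v : Vertex s → Ω → ℝ} (hm : ∀ x, Measurable (v x)) (hind : iIndepFun v P) {ν : Measure ℝ}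
    (hlaw : ∀ x, P.map (v x) = ν) (hsupp : ν (Icc (-1) 1)ᶜ = 0) (hmean : ∫ t, t ∂ν = 0)
    (hvar : 0 < ∫ t, t ^ 2 ∂ν) {lam : ℝ} (hlam : 0 < lam) :
    ∀ᵐ ω ∂P, ∃ H : L2 s →L[ℂ] L2 s, IsSelfAdjoint H ∧
      IsAnderson s lam (fun x => v x ω) H ∧ HasSingularSpectrum H := by
  have hν : IsProbabilityMeasure ν := by
    rw [← hlaw ⟨0, ⟨0, hs 0⟩⟩]
    exact Measure.isProbabilityMeasure_map (hm _).aemeasurable
  obtain ⟨τ, p, hτ, hp, hpτ⟩ := exists_separated hsupp hmean hvar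
  have hchoice : ∀ L i : ℕ, ∃ (n K : ℕ) (Q : ℕ → ℕ → ℝ), 0 < K ∧ (∀ j j', 0 ≤ Q j j') ∧
      (∀ j j', Q j j' ≠ 0 → j < j' ∧ j' < n) ∧
      ∑ j ∈ Finset.range n, ∑ j' ∈ Finset.range n, Q j j' = K ∧
      ∫ E in Icc (-((L : ℝ) + 1)) ((L : ℝ) + 1),
        P.real (CSet (bE s lam v E) ((i : ℝ) + 1) n Q K) ≤ (1 / 2) ^ i := fun L i =>
    main_small hs hdiv hm hind hlaw hsupp hlam hτ hp hpτ
      (by linarith [(Nat.cast_nonneg i : (0:ℝ) ≤ i)]) (by positivity) (by positivity)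
  choose n K Q hK hQ0 _ hQsum hQint using hchoice
  set g : ℕ → ℕ → Ω → ℝ≥0∞ := fun L i ω => volume {E : ℝ | |E| ≤ (L : ℝ) + 1 ∧
    (E, ω) ∈ {q : ℝ × Ω | q.2 ∈ CSet (bE s lam v q.1) ((i : ℝ) + 1) (n L i) (Q L i) (K L i)}}
    with hg
  have hgm : ∀ L i, Measurable (g L i) := fun L i =>
    measurable_section_volume (measurableSet_CSet_prod (lam := lam) hm _ _ _ _) _
  have hgi : ∀ L i, ∫⁻ ω, g L i ω ∂P ≤ ENNReal.ofReal ((1 / 2) ^ i) := fun L i =>
    lintegral_section_le (measurableSet_CSet_prod (lam := lam) hm _ _ _ _) (hQint L i)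
  have hgt : ∀ᵐ ω ∂P, ∀ L, Tendsto (fun i => g L i ω) atTop (𝓝 0) := by
    rw [ae_all_iff]
    intro L
    exact ae_tendsto_of_summable (hgm L) (hgi L)
  filter_upwards [hgt, ae_abs_le_one hm hlaw hsupp] with ω hω hbd
  obtain ⟨H, hsa, hH⟩ := exists_isAnderson hs lam hbd
  refine ⟨H, hsa, hH, ?_⟩
  obtain ⟨μ, hμ⟩ := exists_isSpectralMeasure hsa (shellVec s 0)
  refine hH.hasSingularSpectrum hs hbd hsa (fun j => polN_ne_zero hs j) ⟨μ, hμ, ?_⟩
  apply singular_of_tendsto hs hH hsa hμ hK hQ0 hQsum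
  intro L
  refine tendsto_of_tendsto_of_tendsto_of_le_of_le tendsto_const_nhds (hω L)
    (fun _ => zero_le) (fun i => ?_)
  apply measure_mono
  rintro E ⟨h1, h2, h3⟩
  refine ⟨by linarith, h2, ?_⟩
  refine le_trans h3 (le_of_eq ?_)
  unfold goodE good
  apply Finset.sum_congr rfl
  intro j _
  apply Finset.sum_congr rfl
  intro j' _
  rfl

end Pool.Agent.W_MP_b6e843_mp
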