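import Pool.Agent.W_MP_b6e843_mp.PerE

/-! # Integration over the energy and the choice of parameters -/

namespace Pool.Agent.W_MP_b6e843_mp

open MeasureTheory Set Filter Matrix ProbabilityTheory
open scoped Topology Real ENNReal

section Sections

variable {Ω : Type*} [MeasurableSpace Ω] {P : Measure Ω} [IsProbabilityMeasure P]

lemma integrable_section {S : Set (ℝ × Ω)} (hS : MeasurableSet S) (L : ℝ) :
    IntegrableOn (fun E => P.real {ω | (E, ω) ∈ S}) (Icc (-L) L) := by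
  apply Integrable.of_bound (C := 1)
  · apply Measurable.aestronglyMeasurable
    exact (measurable_measure_prodMk_left hS).ennreal_toReal
  · refine Eventually.of_forall (fun E => ?_)
    rw [Real.norm_eq_abs, abs_of_nonneg measureReal_nonneg]
    exact measureReal_le_one

lemma integral_section_le {S : Set (ℝ × Ω)} (hS : MeasurableSet S) {L B : ℝ} (hB : 0 ≤ B)
    (h : ∀ᵐ ω ∂P, volume {E : ℝ | |E| ≤ L ∧ (E, ω) ∈ S} ≤ ENNReal.ofReal B) :
    ∫ E in Icc (-L) L, P.real {ω | (E, ω) ∈ S} ≤ B := by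
  have hm : Measurable (fun E : ℝ => P {ω | (E, ω) ∈ S}) := measurable_measure_prodMk_left hS
  have h1 : ∫ E in Icc (-L) L, P.real {ω | (E, ω) ∈ S}
      = (∫⁻ E in Icc (-L) L, P {ω | (E, ω) ∈ S}).toReal := by
    rw [← integral_toReal hm.aemeasurable]
    · rfl
    · exact Eventually.of_forall (fun E => measure_lt_top P _)
  have h2 : ∫⁻ E in Icc (-L) L, P {ω | (E, ω) ∈ S}
      = ((volume.restrict (Icc (-L) L)).prod P) S := (Measure.prod_apply hS).symm
  have h3 : ((volume.restrict (Icc (-L) L)).prod P) S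
      = ∫⁻ ω, (volume.restrict (Icc (-L) L)) {E | (E, ω) ∈ S} ∂P := Measure.prod_apply_symm hS
  have h4 : ∫⁻ ω, (volume.restrict (Icc (-L) L)) {E | (E, ω) ∈ S} ∂P ≤ ENNReal.ofReal B := by
    calc ∫⁻ ω, (volume.restrict (Icc (-L) L)) {E | (E, ω) ∈ S} ∂P
        ≤ ∫⁻ _, ENNReal.ofReal B ∂P := by
          apply lintegral_mono_ae
          filter_upwards [h] with ω hω
          have hr : (volume.restrict (Icc (-L) L)) {E | (E, ω) ∈ S}
              = volume ({E | (E, ω) ∈ S} ∩ Icc (-L) L) :=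
            Measure.restrict_apply (measurable_prodMk_right hS)
          rw [hr]
          refine le_trans (measure_mono ?_) hω
          intro E hE
          exact ⟨abs_le.mpr hE.2, hE.1⟩
      _ = ENNReal.ofReal B := by simp
  rw [h1, h2, h3]
  exact ENNReal.toReal_le_of_le_ofReal hB h4

end Sections

variable {Ω : Type*} [MeasurableSpace Ω] {P : Measure Ω} [IsProbabilityMeasure P]
  {s : ℕ → ℕ} {lam : ℝ} {v : Vertex s → Ω → ℝ} {ν : Measure ℝ}

omit [MeasurableSpace Ω] in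
lemma tm_bE (E : ℝ) (ω : Ω) (i m : ℕ) :
    tm (fun j => bE s lam v E j ω) i m = rtm s lam (fun x => v x ω) E i m := rfl

lemma measurable_rtm_prod (hm : ∀ x, Measurable (v x)) (i m : ℕ) (c d : Fin 2) :
    Measurable (fun q : ℝ × Ω => rtm s lam (fun x => v x q.2) q.1 i m c d) :=
  measurable_rtm (f := fun q : ℝ × Ω => q.1) (V := fun q x => v x q.2) measurable_fst
    (fun x => (hm x).comp measurable_snd) i m c d

lemma measurable_ravg_prod (hm : ∀ x, Measurable (v x)) (j : ℕ) :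
    Measurable (fun q : ℝ × Ω => ravg s lam (fun x => v x q.2) q.1 j) :=
  measurable_ravg (f := fun q : ℝ × Ω => q.1) (V := fun q x => v x q.2) measurable_fst
    (fun x => (hm x).comp measurable_snd) j

lemma measurableSet_Bd_prod (hm : ∀ x, Measurable (v x)) (R : ℝ) (i : ℕ) :
    MeasurableSet {q : ℝ × Ω | q.2 ∈ Bd (bE s lam v q.1) R i} := by
  have e : {q : ℝ × Ω | q.2 ∈ Bd (bE s lam v q.1) R i}
      = ⋂ c : Fin 2, ⋂ d : Fin 2, {q | |rtm s lam (fun x => v x q.2) q.1 0 i c d| ≤ R} := by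
    ext q
    simp only [mem_iInter]
    rfl
  rw [e]
  exact MeasurableSet.iInter (fun c => MeasurableSet.iInter (fun d =>
    measurableSet_le (measurable_rtm_prod hm 0 i c d).abs measurable_const))

lemma measurableSet_BadR_prod (hm : ∀ x, Measurable (v x)) (t : ℝ) (i m : ℕ) :
    MeasurableSet {q : ℝ × Ω | q.2 ∈ BadR (bE s lam v q.1) t i m} :=
  measurableSet_lt ((measurable_rtm_prod hm i m 1 0).abs.const_mul t)
    (measurable_rtm_prod hm i m 0 0).abs

lemma measurable_good_prod (hm : ∀ x, Measurable (v x)) (R : ℝ) (n : ℕ) (Q : ℕ → ℕ → ℝ) :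
    Measurable (fun q : ℝ × Ω => good (bE s lam v q.1) R n Q q.2) := by
  unfold good
  apply Finset.measurable_fun_sum
  intro j _
  apply Finset.measurable_fun_sum
  intro j' _
  apply Measurable.const_mul
  have hS := (measurableSet_Bd_prod (lam := lam) hm R (j + 1)).inter
    (measurableSet_Bd_prod (lam := lam) hm R (j' + 1))
  have h1 : Measurable (fun _ : ℝ × Ω => (1:ℝ)) := measurable_const
  exact h1.indicator hS

lemma measurableSet_CSet_prod (hm : ∀ x, Measurable (v x)) (R : ℝ) (n : ℕ) (Q : ℕ → ℕ → ℝ)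
    (K : ℕ) : MeasurableSet {q : ℝ × Ω | q.2 ∈ CSet (bE s lam v q.1) R n Q K} :=
  (measurableSet_Bd_prod hm R n).inter
    (measurableSet_le measurable_const (measurable_good_prod hm R n Q))

omit [IsProbabilityMeasure P] in
lemma ae_abs_le_one (hm : ∀ x, Measurable (v x)) (hlaw : ∀ x, P.map (v x) = ν)
    (hsupp : ν (Icc (-1) 1)ᶜ = 0) : ∀ᵐ ω ∂P, ∀ x, |v x ω| ≤ 1 := by
  rw [ae_all_iff]
  intro x
  have h1 : ∀ᵐ y ∂ν, |y| ≤ 1 := by
    rw [ae_iff]
    refine measure_mono_null ?_ hsupp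
    intro y hy
    simp only [mem_ofPred_eq] at hy
    rw [mem_compl_iff, mem_Icc, ← abs_le]
    exact hy
  rw [← hlaw x] at h1
  exact ae_of_ae_map (hm x).aemeasurable h1

/-- Lebesgue measure of the bad ratio event. -/
lemma volume_BadR_le (hs : ∀ n, 0 < s n) {u : Vertex s → ℝ} (hu : ∀ x, |u x| ≤ 1) (i m : ℕ)
    {t : ℝ} (ht : 0 < t) (L : ℝ) :
    volume {E : ℝ | |E| ≤ L ∧ t * |rtm s lam u E i (m + 1) 1 0| < |rtm s lam u E i (m + 1) 0 0|}
      ≤ ENNReal.ofReal ((1 + L ^ 2) * (2 * π * (2 + lam ^ 2) / t)) := by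
  refine le_trans ?_ (weak_ratio (lam := lam) hs hu i m ht L)
  have h0 : volume {E : ℝ | rtm s lam u E i (m + 1) 1 0 = 0} = 0 := by
    have := ae_ctm_ne hs lam u
    rw [ae_iff] at this
    refine measure_mono_null ?_ this
    intro E hE
    simp only [mem_ofPred_eq] at hE ⊢
    push Not
    refine ⟨i, m, ?_⟩
    unfold rtm at hE ⊢
    rwa [tm_succ_10] at hE
  calc volume {E : ℝ | |E| ≤ L ∧
        t * |rtm s lam u E i (m + 1) 1 0| < |rtm s lam u E i (m + 1) 0 0|}
      ≤ volume ({E : ℝ | |E| ≤ L ∧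
          t ≤ |rtm s lam u E i (m + 1) 0 0 / rtm s lam u E i (m + 1) 1 0|}
          ∪ {E : ℝ | rtm s lam u E i (m + 1) 1 0 = 0}) := by
        apply measure_mono
        rintro E ⟨h1, h2⟩
        by_cases hz : rtm s lam u E i (m + 1) 1 0 = 0
        · exact Or.inr hz
        · left
          refine ⟨h1, ?_⟩
          rw [abs_div, le_div_iff₀ (abs_pos.mpr hz)]
          exact h2.le
    _ ≤ _ := measure_union_le _ _
    _ = _ := by rw [h0, add_zero]

lemma integral_N_le [IsProbabilityMeasure ν] {r : ℝ} (hr : 0 < r) (lam L : ℝ) :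
    IntegrableOn (fun E => ν.real {x | |E - lam * x| < r}) (Icc (-L) L) ∧
    ∫ E in Icc (-L) L, ν.real {x | |E - lam * x| < r} ≤ 2 * r := by
  have hS : MeasurableSet {q : ℝ × ℝ | |q.1 - lam * q.2| < r} := by
    apply measurableSet_lt _ measurable_const
    exact (measurable_fst.sub (measurable_snd.const_mul lam)).abs
  refine ⟨integrable_section (P := ν) hS L, ?_⟩
  apply integral_section_le (P := ν) hS (by positivity)
  refine Eventually.of_forall (fun x => ?_)
  calc volume {E : ℝ | |E| ≤ L ∧ (E, x) ∈ {q : ℝ × ℝ | |q.1 - lam * q.2| < r}}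
      ≤ volume (Metric.ball (lam * x) r) := by
        apply measure_mono
        rintro E ⟨_, h⟩
        simpa [Real.dist_eq] using h
    _ = ENNReal.ofReal (2 * r) := Real.volume_ball _ _

lemma integral_tail_le (hs : ∀ n, 0 < s n) (hm : ∀ x, Measurable (v x)) {R' : ℝ} (hR' : 0 < R')
    (L : ℝ) (j : ℕ) : IntegrableOn (fun E => tail P s lam v E R' j) (Icc (-L) L) ∧
    ∫ E in Icc (-L) L, tail P s lam v E R' j ≤ (1 + L ^ 2) * (2 * π * 1 / R') := by
  have hS : MeasurableSet {q : ℝ × Ω | R' < |ravg s lam (fun x => v x q.2) q.1 j|} :=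
    measurableSet_lt measurable_const (measurable_ravg_prod hm j).abs
  refine ⟨integrable_section (P := P) hS L, ?_⟩
  apply integral_section_le (P := P) hS (by positivity)
  refine Eventually.of_forall (fun ω => ?_)
  refine le_trans (measure_mono ?_) (weak_avg hs lam (fun x => v x ω) j hR' L)
  rintro E ⟨h1, h2⟩
  exact ⟨h1, le_of_lt h2⟩

lemma integral_BadR_le (hs : ∀ n, 0 < s n) (hm : ∀ x, Measurable (v x))
    (hbd : ∀ᵐ ω ∂P, ∀ x, |v x ω| ≤ 1) {t : ℝ} (ht : 0 < t) (L : ℝ) (i m : ℕ) :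
    IntegrableOn (fun E => P.real (BadR (bE s lam v E) t i m)) (Icc (-L) L) ∧
    (0 < m → ∫ E in Icc (-L) L, P.real (BadR (bE s lam v E) t i m)
      ≤ (1 + L ^ 2) * (2 * π * (2 + lam ^ 2) / t)) := by
  have hS := measurableSet_BadR_prod (lam := lam) hm t i m
  refine ⟨integrable_section (P := P) hS L, fun hm0 => ?_⟩
  apply integral_section_le (P := P) hS (by positivity)
  filter_upwards [hbd] with ω hω
  obtain ⟨m', rfl⟩ : ∃ m', m = m' + 1 := ⟨m - 1, by omega⟩
  exact volume_BadR_le hs hω i m' ht L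

/-- The integrated estimate. -/
theorem integrated [IsProbabilityMeasure ν] (hs : ∀ n, 0 < s n) (hm : ∀ x, Measurable (v x))
    (hind : iIndepFun v P) (hlaw : ∀ x, P.map (v x) = ν) (hsupp : ν (Icc (-1) 1)ᶜ = 0)
    (hlam : 0 < lam) {R t α L r τ p η R' : ℝ} (hR : 1 ≤ R) (ht : 0 < t) (hα : 0 < α)
    (hL : 0 < L) (hr : 0 < r) (hr1 : r ≤ 1) (hτ : 0 < τ) (hp : 0 < p)
    (hpτ : p ≤ (ν.prod ν).real {q | τ ≤ |q.1 - q.2|}) (hη0 : 0 < η)
    (hη : 4 * η < 1 - Real.exp (-(p * (lam * τ / (L + lam) ^ 2) ^ 2 * r ^ 2 / 4)))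
    (hR' : 1 ≤ R') {k : ℕ} (hk : 0 < k) {n : ℕ} {K : ℕ} (hK : 0 < K) {Q : ℕ → ℕ → ℝ}
    (hQ0 : ∀ j j', 0 ≤ Q j j') (hQs : ∀ j j', Q j j' ≠ 0 → j < j' ∧ j' < n)
    (hQsum : ∑ j ∈ Finset.range n, ∑ j' ∈ Finset.range n, Q j j' = K)
    (hQ1 : ∀ j, ∑ j' ∈ Finset.range n, Q j j' ≤ 1 / (s j : ℝ))
    (hQ2 : ∀ j', ∑ j ∈ Finset.range n, Q j j' ≤ 1 / (s j' : ℝ))
    (hQJ : ∀ J : ℕ → ℝ, (∀ i j, i ≤ j → j ≤ n → J i ≤ J j) →
        ∑ j ∈ Finset.range n, ∑ j' ∈ Finset.range n, Q j j' * (J (j' + 1) - J (j + 1))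
          ≤ J n - J 0) :
    ∫ E in Icc (-L) L, P.real (CSet (bE s lam v E) R n Q K) ≤
      2 * L * α + 8 * r / p
      + 2 * L * (R ^ 2 / α ^ 2) * (48 / k)
      + 2 * L * (R ^ 2 / α ^ 2) * (16 + 96 * (k * (2 * aper R t + 1)) ^ 2 /
          (1 / (2 * R' ^ 4) *
            ((1 - Real.exp (-(p * (lam * τ / (L + lam) ^ 2) ^ 2 * r ^ 2 / 4))) - 4 * η))) / K
      + 24 * (R ^ 2 / α ^ 2) * ((1 + L ^ 2) * (2 * π * 1 / R')) / η
      + 2 * ((1 + L ^ 2) * (2 * π * (2 + lam ^ 2) / t)) := by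
  have hbd := ae_abs_le_one hm hlaw hsupp
  set X := 48 * (k * (2 * aper R t + 1)) ^ 2 / (1 / (2 * R' ^ 4) *
            ((1 - Real.exp (-(p * (lam * τ / (L + lam) ^ 2) ^ 2 * r ^ 2 / 4))) - 4 * η)) with hX
  set B1 := (1 + L ^ 2) * (2 * π * 1 / R') with hB1
  set B2 := (1 + L ^ 2) * (2 * π * (2 + lam ^ 2) / t) with hB2
  have hK' : (0:ℝ) < K := by exact_mod_cast hK
  have hk' : (0:ℝ) < k := by exact_mod_cast hk
  have hB1nn : 0 ≤ B1 := by positivity
  have hB2nn : 0 ≤ B2 := by positivity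
  obtain ⟨hNi, hNle⟩ := integral_N_le (ν := ν) hr lam L
  have hTi : ∀ j, IntegrableOn (fun E => tail P s lam v E R' j) (Icc (-L) L) := fun j =>
    (integral_tail_le hs hm (by linarith) L j).1
  have hTle : ∀ j, ∫ E in Icc (-L) L, tail P s lam v E R' j ≤ B1 := fun j =>
    (integral_tail_le hs hm (by linarith) L j).2
  have hBi : ∀ i m, IntegrableOn (fun E => P.real (BadR (bE s lam v E) t i m)) (Icc (-L) L) :=
    fun i m => (integral_BadR_le hs hm hbd ht L i m).1
  set N : ℝ → ℝ := fun E => ν.real {x | |E - lam * x| < r} with hN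
  set S1 : ℝ → ℝ := fun E => ∑ j ∈ Finset.range n, ∑ j' ∈ Finset.range n,
      Q j j' * (4 / η * tail P s lam v E R' j + 8 / η * tail P s lam v E R' j') with hS1
  set S2 : ℝ → ℝ := fun E => ∑ j ∈ Finset.range n, ∑ j' ∈ Finset.range n,
      Q j j' * P.real (BadR (bE s lam v E) t (j + 1) (j' - j)) with hS2
  have hT1 : ∀ j, IntegrableOn (fun E => 4 / η * tail P s lam v E R' j) (Icc (-L) L) := fun j =>
    (hTi j).const_mul _
  have hT2 : ∀ j, IntegrableOn (fun E => 8 / η * tail P s lam v E R' j) (Icc (-L) L) := fun j =>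
    (hTi j).const_mul _
  have hT12 : ∀ j j', IntegrableOn (fun E => 4 / η * tail P s lam v E R' j
      + 8 / η * tail P s lam v E R' j') (Icc (-L) L) := fun j j' => (hT1 j).add (hT2 j')
  have hT3 : ∀ j j', IntegrableOn (fun E => Q j j' * (4 / η * tail P s lam v E R' j
      + 8 / η * tail P s lam v E R' j')) (Icc (-L) L) := fun j j' => (hT12 j j').const_mul _
  have hT4 : ∀ j j', IntegrableOn (fun E => Q j j' *
      P.real (BadR (bE s lam v E) t (j + 1) (j' - j))) (Icc (-L) L) := fun j j' =>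
    (hBi _ _).const_mul _
  have hT3' : ∀ j, IntegrableOn (fun E => ∑ j' ∈ Finset.range n,
      Q j j' * (4 / η * tail P s lam v E R' j + 8 / η * tail P s lam v E R' j')) (Icc (-L) L) :=
    fun j => integrable_finsetSum _ (fun j' _ => hT3 j j')
  have hT4' : ∀ j, IntegrableOn (fun E => ∑ j' ∈ Finset.range n,
      Q j j' * P.real (BadR (bE s lam v E) t (j + 1) (j' - j))) (Icc (-L) L) :=
    fun j => integrable_finsetSum _ (fun j' _ => hT4 j j')
  have hS1i : IntegrableOn S1 (Icc (-L) L) := integrable_finsetSum _ (fun j _ => hT3' j)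
  have hS2i : IntegrableOn S2 (Icc (-L) L) := integrable_finsetSum _ (fun j _ => hT4' j)
  have hS1le : ∫ E in Icc (-L) L, S1 E ≤ K * (12 / η * B1) := by
    simp only [hS1]
    rw [integral_finsetSum _ (fun j _ => hT3' j), ← hQsum, Finset.sum_mul]
    apply Finset.sum_le_sum
    intro j _
    rw [integral_finsetSum _ (fun j' _ => hT3 j j'), Finset.sum_mul]
    apply Finset.sum_le_sum
    intro j' _
    rw [integral_const_mul, integral_add (hT1 j) (hT2 j'),
      integral_const_mul, integral_const_mul]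
    apply mul_le_mul_of_nonneg_left _ (hQ0 j j')
    have h1 : 4 / η * ∫ E in Icc (-L) L, tail P s lam v E R' j ≤ 4 / η * B1 := by
      gcongr
      exact hTle j
    have h2 : 8 / η * ∫ E in Icc (-L) L, tail P s lam v E R' j' ≤ 8 / η * B1 := by
      gcongr
      exact hTle j'
    have e : 12 / η * B1 = 4 / η * B1 + 8 / η * B1 := by ring
    linarith
  have hS2le : ∫ E in Icc (-L) L, S2 E ≤ K * B2 := by
    simp only [hS2]
    rw [integral_finsetSum _ (fun j _ => hT4' j), ← hQsum, Finset.sum_mul]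
    apply Finset.sum_le_sum
    intro j _
    rw [integral_finsetSum _ (fun j' _ => hT4 j j'), Finset.sum_mul]
    apply Finset.sum_le_sum
    intro j' _
    rw [integral_const_mul]
    by_cases hq : Q j j' = 0
    · rw [hq, zero_mul, zero_mul]
    · apply mul_le_mul_of_nonneg_left _ (hQ0 j j')
      have := hQs j j' hq
      exact (integral_BadR_le hs hm hbd ht L _ _).2 (by omega)
  have hCi : IntegrableOn (fun E => P.real (CSet (bE s lam v E) R n Q K)) (Icc (-L) L) :=
    integrable_section (P := P) (measurableSet_CSet_prod (lam := lam) hm R n Q K) L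
  set c0 := α + 2 / K * (R ^ 2 / α ^ 2) * (8 + 24 * K / k + X) with hc0
  have hpt : ∀ E ∈ Icc (-L) L, P.real (CSet (bE s lam v E) R n Q K) ≤
      c0 + 4 / p * N E + (2 / K * (R ^ 2 / α ^ 2)) * S1 E + 2 / K * S2 E := by
    intro E hE
    have h := perE (P := P) hs hm hind hlaw hsupp hlam hR ht.le hα hL hr hr1 hτ hp hpτ hη0 hη hR'
      hk hK hQ0 hQs hQsum hQ1 hQ2 hQJ (abs_le.mpr hE)
    rw [← hX] at h
    refine h.trans (le_of_eq ?_)
    simp only [hc0, hN, hS1, hS2]
    ring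
  have hfinite : (volume : Measure ℝ) (Icc (-L) L) ≠ ⊤ := by simp
  have hg1 : IntegrableOn (fun _ : ℝ => c0) (Icc (-L) L) := integrableOn_const hfinite (by simp)
  have hg2 : IntegrableOn (fun E => 4 / p * N E) (Icc (-L) L) := hNi.const_mul (4 / p)
  have hg3 : IntegrableOn (fun E => (2 / K * (R ^ 2 / α ^ 2)) * S1 E) (Icc (-L) L) :=
    hS1i.const_mul (2 / K * (R ^ 2 / α ^ 2))
  have hg4 : IntegrableOn (fun E => 2 / (K:ℝ) * S2 E) (Icc (-L) L) := hS2i.const_mul (2 / (K:ℝ))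
  have hg12 : IntegrableOn (fun E => c0 + 4 / p * N E) (Icc (-L) L) := hg1.add hg2
  have hg123 : IntegrableOn (fun E => c0 + 4 / p * N E + (2 / K * (R ^ 2 / α ^ 2)) * S1 E)
      (Icc (-L) L) := hg12.add hg3
  have hg1234 : IntegrableOn (fun E => c0 + 4 / p * N E + (2 / K * (R ^ 2 / α ^ 2)) * S1 E
      + 2 / K * S2 E) (Icc (-L) L) := hg123.add hg4
  have hmono := setIntegral_mono_on hCi hg1234 measurableSet_Icc hpt
  have hval : ∫ E in Icc (-L) L, (c0 + 4 / p * N E + (2 / K * (R ^ 2 / α ^ 2)) * S1 E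
      + 2 / K * S2 E)
      = 2 * L * c0 + 4 / p * (∫ E in Icc (-L) L, N E)
        + (2 / K * (R ^ 2 / α ^ 2)) * (∫ E in Icc (-L) L, S1 E)
        + 2 / K * (∫ E in Icc (-L) L, S2 E) := by
    rw [integral_add hg123 hg4, integral_add hg12 hg3,
      integral_add hg1 hg2, integral_const_mul, integral_const_mul, integral_const_mul,
      setIntegral_const, measureReal_def, Real.volume_Icc, ENNReal.toReal_ofReal (by linarith)]
    simp only [smul_eq_mul]
    ring
  rw [hval] at hmono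
  have h1 : 4 / p * (∫ E in Icc (-L) L, N E) ≤ 4 / p * (2 * r) := by
    gcongr
  have h2 : (2 / K * (R ^ 2 / α ^ 2)) * (∫ E in Icc (-L) L, S1 E)
      ≤ (2 / K * (R ^ 2 / α ^ 2)) * (K * (12 / η * B1)) := by
    gcongr
  have h3 : 2 / K * (∫ E in Icc (-L) L, S2 E) ≤ 2 / K * (K * B2) := by
    gcongr
  have e0 : 2 * L * c0 = 2 * L * α + 2 * L * (R ^ 2 / α ^ 2) * (48 / k)
      + 2 * L * (R ^ 2 / α ^ 2) * (16 + 2 * X) / K := by
    rw [hc0]
    field_simp
    ring
  have e1 : 4 / p * (2 * r) = 8 * r / p := by ring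
  have e2 : (2 / K * (R ^ 2 / α ^ 2)) * (K * (12 / η * B1)) = 24 * (R ^ 2 / α ^ 2) * B1 / η := by
    field_simp
    ring
  have e3 : 2 / K * (K * B2) = 2 * B2 := by field_simp
  have e4 : 2 * X = 96 * (k * (2 * aper R t + 1)) ^ 2 / (1 / (2 * R' ^ 4) *
            ((1 - Real.exp (-(p * (lam * τ / (L + lam) ^ 2) ^ 2 * r ^ 2 / 4))) - 4 * η)) := by
    rw [hX]
    ring
  rw [← e4]
  linarith

end Pool.Agent.W_MP_b6e843_mp
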