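import Pool.Agent.W_MP_b6e843_mp.Poly

/-! # The noise lower bound -/

namespace Pool.Agent.W_MP_b6e843_mp
open MeasureTheory

section CharFun

variable {Ω : Type*} [MeasurableSpace Ω] (m : Measure Ω) [IsProbabilityMeasure m] (f : Ω → ℝ)

theorem integrable_cos_comp (hf : Measurable f) : Integrable (fun x => Real.cos (f x)) m :=
  Integrable.of_bound (Real.measurable_cos.comp hf).aestronglyMeasurable 1
    (Filter.Eventually.of_forall fun x => by simpa using Real.abs_cos_le_one (f x))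

theorem integrable_sin_comp (hf : Measurable f) : Integrable (fun x => Real.sin (f x)) m :=
  Integrable.of_bound (Real.measurable_sin.comp hf).aestronglyMeasurable 1
    (Filter.Eventually.of_forall fun x => by simpa using Real.abs_sin_le_one (f x))

theorem double_cos (hf : Measurable f) :
    ∫ x, ∫ y, Real.cos (f x - f y) ∂m ∂m =
      ‖∫ x, Complex.exp (Complex.I * (f x : ℂ)) ∂m‖ ^ 2 := by
  have hc := integrable_cos_comp m f hf
  have hs := integrable_sin_comp m f hf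
  have h1 : ∀ x, ∫ y, Real.cos (f x - f y) ∂m =
      (∫ y, Real.cos (f y) ∂m) * Real.cos (f x) + (∫ y, Real.sin (f y) ∂m) * Real.sin (f x) := by
    intro x
    simp_rw [Real.cos_sub]
    rw [integral_add (hc.const_mul _) (hs.const_mul _), integral_const_mul, integral_const_mul]
    ring
  simp_rw [h1]
  rw [integral_add (hc.const_mul _) (hs.const_mul _), integral_const_mul, integral_const_mul]
  have h2 : ∫ x, Complex.exp (Complex.I * (f x : ℂ)) ∂m =
      ((∫ y, Real.cos (f y) ∂m : ℝ) : ℂ) + ((∫ y, Real.sin (f y) ∂m : ℝ) : ℂ) * Complex.I := by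
    rw [← integral_complex_ofReal, ← integral_complex_ofReal, ← integral_mul_const,
      ← integral_add hc.ofReal (hs.ofReal.mul_const _)]
    congr 1
    ext x
    rw [mul_comm, Complex.exp_mul_I, Complex.ofReal_cos, Complex.ofReal_sin]
  rw [h2, Complex.sq_norm, Complex.normSq_add_mul_I]
  ring

theorem integrable_double_cos (hf : Measurable f) :
    Integrable (fun q : Ω × Ω => Real.cos (f q.1 - f q.2)) (m.prod m) :=
  integrable_cos_comp (m.prod m) (fun q => f q.1 - f q.2) (by fun_prop)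

end CharFun

theorem measurable_avg (lam E : ℝ) (s : ℕ) : Measurable (avg lam E s) := by
  unfold avg
  fun_prop

/-- the double integral of the cosine for the average factorises -/
theorem double_cos_avg (ν : Measure ℝ) [IsProbabilityMeasure ν] (lam E c : ℝ) {s : ℕ} :
    ∫ x, ∫ y, Real.cos (c * avg lam E s x - c * avg lam E s y)
        ∂(Measure.pi (fun _ : Fin s => ν)) ∂(Measure.pi (fun _ : Fin s => ν)) =
      (∫ x, ∫ y, Real.cos (c / s * (E - lam * x)⁻¹ - c / s * (E - lam * y)⁻¹) ∂ν ∂ν) ^ s := by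
  have key : ∫ x : Fin s → ℝ, Complex.exp (Complex.I * ((c * avg lam E s x : ℝ) : ℂ))
      ∂(Measure.pi (fun _ : Fin s => ν)) =
      (∫ x, Complex.exp (Complex.I * ((c / s * (E - lam * x)⁻¹ : ℝ) : ℂ)) ∂ν) ^ s := by
    have h := integral_fintype_prod_eq_pow (ι := Fin s) (μ := ν)
      (fun x : ℝ => Complex.exp (Complex.I * ((c / s * (E - lam * x)⁻¹ : ℝ) : ℂ)))
    rw [Fintype.card_fin] at h
    rw [← h]
    congr 1
    ext x
    rw [← Complex.exp_sum, ← Finset.mul_sum, ← Complex.ofReal_sum, ← Finset.mul_sum]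
    congr 3
    unfold avg
    ring
  rw [double_cos (Measure.pi (fun _ : Fin s => ν)) (fun x => c * avg lam E s x)
    ((measurable_avg lam E s).const_mul c), key,
    double_cos ν (fun x => c / s * (E - lam * x)⁻¹) (by fun_prop), norm_pow, ← pow_mul,
    ← pow_mul, mul_comm 2 s]

/-- the one-site estimate -/
theorem kappa_le (ν : Measure ℝ) [IsProbabilityMeasure ν]
    (hsupp : ν (Set.Icc (-1) 1)ᶜ = 0) {lam L r τ p : ℝ} (hlam : 0 < lam) (hL : 0 < L)
    (hr : 0 < r) (hτ : 0 < τ)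
    (hpτ : p ≤ (ν.prod ν).real {q | τ ≤ |q.1 - q.2|}) {E : ℝ} (hE : |E| ≤ L)
    (hEr : ν.real {x | |E - lam * x| < r} ≤ p / 4) {u : ℝ} (hu0 : 0 ≤ u) 
    (hu : u ≤ Real.pi * r / 2) :
    ∫ x, ∫ y, Real.cos (u * (E - lam * x)⁻¹ - u * (E - lam * y)⁻¹) ∂ν ∂ν ≤
      1 - 2 / Real.pi ^ 2 * (u * (lam * τ / (L + lam) ^ 2)) ^ 2 * (p / 2) := by
  set f : ℝ → ℝ := fun x => u * (E - lam * x)⁻¹ with hf
  have hfm : Measurable f := by fun_prop
  set τ' := lam * τ / (L + lam) ^ 2 with hτ'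
  have hτ'0 : 0 < τ' := by positivity
  set K := 2 / Real.pi ^ 2 * (u * τ') ^ 2 with hK
  have hK0 : 0 ≤ K := by positivity
  -- the good event
  set G : Set (ℝ × ℝ) := {q | τ ≤ |q.1 - q.2|} ∩ ({q | r ≤ |E - lam * q.1|} ∩
    ({q | r ≤ |E - lam * q.2|} ∩ (Prod.fst ⁻¹' Set.Icc (-1 : ℝ) 1 ∩
      Prod.snd ⁻¹' Set.Icc (-1 : ℝ) 1))) with hG
  have hGm : MeasurableSet G := by
    refine (measurableSet_le (by fun_prop) (by fun_prop)).inter
      ((measurableSet_le (by fun_prop) (by fun_prop)).inter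
        ((measurableSet_le (by fun_prop) (by fun_prop)).inter
          ((measurable_fst measurableSet_Icc).inter (measurable_snd measurableSet_Icc))))
  have hpoint : ∀ q : ℝ × ℝ, Real.cos (f q.1 - f q.2) ≤ 1 - G.indicator (fun _ => K) q := by
    intro q
    by_cases hq : q ∈ G
    · rw [Set.indicator_of_mem hq]
      obtain ⟨h1, h2, h3, h4, h5⟩ := hq
      have e1 : 0 < |E - lam * q.1| := hr.trans_le h2
      have e2 : 0 < |E - lam * q.2| := hr.trans_le h3
      have n1 : E - lam * q.1 ≠ 0 := abs_pos.1 e1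
      have n2 : E - lam * q.2 ≠ 0 := abs_pos.1 e2
      have b1 : |E - lam * q.1| ≤ L + lam := by
        refine (abs_sub _ _).trans ?_
        rw [abs_mul, abs_of_pos hlam]
        have : |q.1| ≤ 1 := abs_le.2 ⟨by linarith [h4.1], h4.2⟩
        nlinarith
      have b2 : |E - lam * q.2| ≤ L + lam := by
        refine (abs_sub _ _).trans ?_
        rw [abs_mul, abs_of_pos hlam]
        have : |q.2| ≤ 1 := abs_le.2 ⟨by linarith [h5.1], h5.2⟩
        nlinarith
      have i1 : |(E - lam * q.1)⁻¹| ≤ 1 / r := by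
        rw [abs_inv, one_div]
        exact inv_anti₀ hr h2
      have i2 : |(E - lam * q.2)⁻¹| ≤ 1 / r := by
        rw [abs_inv, one_div]
        exact inv_anti₀ hr h3
      have hsub : f q.1 - f q.2 = u * ((E - lam * q.1)⁻¹ - (E - lam * q.2)⁻¹) := by
        simp only [hf]; ring
      have habs : |f q.1 - f q.2| ≤ Real.pi := by
        rw [hsub, abs_mul, abs_of_nonneg hu0]
        calc u * |(E - lam * q.1)⁻¹ - (E - lam * q.2)⁻¹|
            ≤ (Real.pi * r / 2) * (1 / r + 1 / r) := by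
              apply mul_le_mul hu ((abs_sub _ _).trans (add_le_add i1 i2)) (abs_nonneg _)
              positivity
          _ = Real.pi := by field_simp; ring
      have hlow : τ' ≤ |(E - lam * q.1)⁻¹ - (E - lam * q.2)⁻¹| := by
        have : (E - lam * q.1)⁻¹ - (E - lam * q.2)⁻¹ =
            lam * (q.1 - q.2) / ((E - lam * q.1) * (E - lam * q.2)) := by
          field_simp
          ring
        rw [this, abs_div, abs_mul, abs_mul, abs_of_pos hlam, hτ']
        have h1' : τ ≤ |q.1 - q.2| := h1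
        apply div_le_div₀ (by positivity) (mul_le_mul_of_nonneg_left h1' hlam.le) (by positivity)
        rw [sq]
        exact mul_le_mul b1 b2 e2.le (by positivity)
      have hsq : (u * τ') ^ 2 ≤ (f q.1 - f q.2) ^ 2 := by
        rw [← sq_abs (f q.1 - f q.2), hsub, abs_mul, abs_of_nonneg hu0]
        apply pow_le_pow_left₀ (by positivity)
        exact mul_le_mul_of_nonneg_left hlow hu0
      have := Real.cos_le_one_sub_mul_cos_sq habs
      have h7 : 2 / Real.pi ^ 2 * (u * τ') ^ 2 ≤ 2 / Real.pi ^ 2 * (f q.1 - f q.2) ^ 2 :=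
        mul_le_mul_of_nonneg_left hsq (by positivity)
      linarith
    · rw [Set.indicator_of_notMem hq, sub_zero]
      exact Real.cos_le_one _
  have hint : Integrable (fun q : ℝ × ℝ => Real.cos (f q.1 - f q.2)) (ν.prod ν) :=
    integrable_double_cos ν f hfm
  have h1 : ∫ x, ∫ y, Real.cos (f x - f y) ∂ν ∂ν =
      ∫ q, Real.cos (f q.1 - f q.2) ∂(ν.prod ν) :=
    (integral_prod (fun q : ℝ × ℝ => Real.cos (f q.1 - f q.2)) hint).symm
  rw [h1]
  have hind : Integrable (G.indicator (fun _ => K)) (ν.prod ν) :=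
    (integrable_const K).indicator hGm
  have h2 : ∫ q, Real.cos (f q.1 - f q.2) ∂(ν.prod ν) ≤
      ∫ q, (1 - G.indicator (fun _ => K) q) ∂(ν.prod ν) :=
    integral_mono hint ((integrable_const 1).sub hind) hpoint
  refine h2.trans ?_
  rw [integral_sub (integrable_const 1) hind, integral_indicator_const K hGm]
  simp only [integral_const, probReal_univ, smul_eq_mul, mul_one]
  -- the probability of the good event
  have hGp : p / 2 ≤ (ν.prod ν).real G := by
    set B1 : Set (ℝ × ℝ) := {x | |E - lam * x| < r} ×ˢ Set.univ with hB1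
    set B2 : Set (ℝ × ℝ) := Set.univ ×ˢ {x | |E - lam * x| < r} with hB2
    set C1 : Set (ℝ × ℝ) := (Set.Icc (-1) 1)ᶜ ×ˢ Set.univ with hC1
    set C2 : Set (ℝ × ℝ) := Set.univ ×ˢ (Set.Icc (-1) 1)ᶜ with hC2
    have hcover : {q : ℝ × ℝ | τ ≤ |q.1 - q.2|} ⊆ G ∪ B1 ∪ B2 ∪ C1 ∪ C2 := by
      intro q hq
      by_cases h2 : r ≤ |E - lam * q.1|
      · by_cases h3 : r ≤ |E - lam * q.2|
        · by_cases h4 : q.1 ∈ Set.Icc (-1 : ℝ) 1
          · by_cases h5 : q.2 ∈ Set.Icc (-1 : ℝ) 1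
            · exact Or.inl (Or.inl (Or.inl (Or.inl ⟨hq, h2, h3, h4, h5⟩)))
            · exact Or.inr ⟨trivial, h5⟩
          · exact Or.inl (Or.inr ⟨h4, trivial⟩)
        · exact Or.inl (Or.inl (Or.inr ⟨trivial, not_le.1 h3⟩))
      · exact Or.inl (Or.inl (Or.inl (Or.inr ⟨not_le.1 h2, trivial⟩)))
    have hb1 : (ν.prod ν).real B1 ≤ p / 4 := by
      rw [hB1, measureReal_prod_prod, probReal_univ, mul_one]; exact hEr
    have hb2 : (ν.prod ν).real B2 ≤ p / 4 := by
      rw [hB2, measureReal_prod_prod, probReal_univ, one_mul]; exact hEr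
    have hs : ν.real (Set.Icc (-1) 1)ᶜ = 0 := by simp [measureReal_def, hsupp]
    have hc1 : (ν.prod ν).real C1 = 0 := by
      rw [hC1, measureReal_prod_prod, hs, zero_mul]
    have hc2 : (ν.prod ν).real C2 = 0 := by
      rw [hC2, measureReal_prod_prod, hs, mul_zero]
    have := (measureReal_mono (μ := ν.prod ν) hcover).trans
      ((measureReal_union_le _ _).trans (add_le_add_left ((measureReal_union_le _ _).trans
        (add_le_add_left ((measureReal_union_le _ _).trans (add_le_add_left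
          (measureReal_union_le _ _) _)) _)) _))
    linarith
  have := mul_le_mul_of_nonneg_left hGp hK0
  linarith

/-- pointwise comparison of `(a - b)^2` with `(1/a - 1/b)^2` (with the convention `1/0 = 0`) -/
theorem sq_sub_le_inv {a b R : ℝ} (hR : 1 ≤ R) (k1 : |a| ≤ R) (k2 : |b| ≤ R) :
    (a - b) ^ 2 ≤ R ^ 4 * (a⁻¹ - b⁻¹) ^ 2 := by
  have s1 : a ^ 2 ≤ R ^ 2 := sq_le_sq' (abs_le.1 k1).1 (abs_le.1 k1).2
  have s2 : b ^ 2 ≤ R ^ 2 := sq_le_sq' (abs_le.1 k2).1 (abs_le.1 k2).2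
  have R1 : 1 ≤ R ^ 2 := one_le_pow₀ hR
  have R4 : R ^ 4 = R ^ 2 * R ^ 2 := by ring
  have hx : ∀ x : ℝ, x ^ 2 ≤ R ^ 2 → x ^ 2 * x ^ 2 ≤ R ^ 4 := fun x hx => by
    rw [R4]; exact mul_le_mul hx hx (sq_nonneg _) (by positivity)
  by_cases z1 : a = 0
  · by_cases z2 : b = 0
    · simp [z1, z2]
    · rw [z1]
      simp only [inv_zero, zero_sub, neg_sq]
      have : 0 < b ^ 2 := by positivity
      rw [inv_pow, ← div_eq_mul_inv, le_div_iff₀ this]
      exact hx b s2
  · by_cases z2 : b = 0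
    · rw [z2]
      simp only [inv_zero, sub_zero]
      have : 0 < a ^ 2 := by positivity
      rw [inv_pow, ← div_eq_mul_inv, le_div_iff₀ this]
      exact hx a s1
    · have p1 : 0 < a ^ 2 := by positivity
      have p2 : 0 < b ^ 2 := by positivity
      have e : (a⁻¹ - b⁻¹) ^ 2 = (a - b) ^ 2 / (a ^ 2 * b ^ 2) := by
        field_simp
        ring
      rw [e, ← mul_div_assoc, le_div_iff₀ (by positivity), mul_comm]
      apply mul_le_mul_of_nonneg_right _ (sq_nonneg _)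
      rw [R4]
      exact mul_le_mul s1 s2 p2.le (by positivity)

theorem one_sub_cos_le {a b R β c s : ℝ} (hs1 : 1 ≤ s) (hR : 1 ≤ R) (hβ0 : 0 < β) (hβ2 : β ≤ 2)
    (hc : c ^ 2 = β ^ 2 * s) (k1 : |a| ≤ R) (k2 : |b| ≤ R) :
    1 - Real.cos (c * a - c * b) ≤ 2 * R ^ 4 * s * min 1 ((a⁻¹ - b⁻¹) ^ 2) := by
  have hR4 : 1 ≤ R ^ 4 := one_le_pow₀ hR
  have hcos := Real.neg_one_le_cos (c * a - c * b)
  have g1 : 1 - Real.cos (c * a - c * b) ≤ 2 * R ^ 4 * s * 1 := by
    have : 1 ≤ R ^ 4 * s := one_le_mul_of_one_le_of_one_le hR4 hs1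
    linarith
  have g3 : 1 - Real.cos (c * a - c * b) ≤ 2 * s * (a - b) ^ 2 := by
    have := Real.one_sub_sq_div_two_le_cos (x := c * a - c * b)
    have e : (c * a - c * b) ^ 2 = β ^ 2 * s * (a - b) ^ 2 := by
      rw [← mul_sub, mul_pow, hc]
    have e3 : β ^ 2 ≤ 4 := by nlinarith
    have e2 : β ^ 2 * s * (a - b) ^ 2 ≤ 4 * s * (a - b) ^ 2 := by
      gcongr
    linarith
  have g2 : 1 - Real.cos (c * a - c * b) ≤ 2 * R ^ 4 * s * ((a⁻¹ - b⁻¹) ^ 2) := by
    calc _ ≤ 2 * s * (a - b) ^ 2 := g3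
      _ ≤ 2 * s * (R ^ 4 * (a⁻¹ - b⁻¹) ^ 2) := by
        apply mul_le_mul_of_nonneg_left (sq_sub_le_inv hR k1 k2)
        positivity
      _ = _ := by ring
  rcases le_total 1 ((a⁻¹ - b⁻¹) ^ 2) with h | h
  · rw [min_eq_left h]; exact g1
  · rw [min_eq_right h]; exact g2

theorem noise_lower_bound (ν : Measure ℝ) [IsProbabilityMeasure ν]
    (hsupp : ν (Set.Icc (-1) 1)ᶜ = 0) {lam L r τ p η R : ℝ} (hlam : 0 < lam) (hL : 0 < L)
    (hr : 0 < r) (hr1 : r ≤ 1) (hτ : 0 < τ) (hp : 0 < p)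
    (hpτ : p ≤ (ν.prod ν).real {q | τ ≤ |q.1 - q.2|}) {E : ℝ} (hE : |E| ≤ L)
    (hEr : ν.real {x | |E - lam * x| < r} ≤ p / 4) {s : ℕ} (hs : 0 < s) (hR : 1 ≤ R)
    (hη : (Measure.pi (fun _ : Fin s => ν)).real {v | R < |avg lam E s v|} ≤ η) :
    (1 / (2 * R ^ 4 * s)) *
        ((1 - Real.exp (-(p * (lam * τ / (L + lam) ^ 2) ^ 2 * r ^ 2 / 4))) - 4 * η) ≤
      ∫ x, ∫ y, min 1 (((avg lam E s x)⁻¹ - (avg lam E s y)⁻¹) ^ 2)
        ∂(Measure.pi (fun _ : Fin s => ν)) ∂(Measure.pi (fun _ : Fin s => ν)) := by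
  set m := Measure.pi (fun _ : Fin s => ν) with hm
  set a := avg lam E s with ha
  have ham : Measurable a := measurable_avg lam E s
  have hs1 : (1 : ℝ) ≤ s := by exact_mod_cast hs
  have hs0 : (0 : ℝ) < s := by exact_mod_cast hs
  have hsq : 0 < √(s : ℝ) := Real.sqrt_pos.2 hs0
  have hsq1 : 1 ≤ √(s : ℝ) := by rw [← Real.sqrt_one]; exact Real.sqrt_le_sqrt hs1
  have hss : √(s : ℝ) ^ 2 = s := Real.sq_sqrt hs0.le
  set β := Real.pi * r / 2 with hβ
  have hpi := Real.pi_pos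
  have hβ0 : 0 < β := by positivity
  have hβ2 : β ≤ 2 := by
    have := Real.pi_le_four
    nlinarith
  set c := β * √(s : ℝ) with hc
  set τ' := lam * τ / (L + lam) ^ 2 with hτ'
  have hτ'0 : 0 < τ' := by positivity
  have hcu : c / s = β / √(s : ℝ) := by
    rw [hc, div_eq_div_iff hs0.ne' hsq.ne', mul_assoc, ← sq, hss]
  have hu0 : 0 ≤ β / √(s : ℝ) := by positivity
  have hu1 : β / √(s : ℝ) ≤ Real.pi * r / 2 := div_le_self hβ0.le hsq1
  -- step 1
  have h1 := double_cos_avg ν lam E c (s := s)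
  rw [← hm, ← ha, hcu] at h1
  set κ := ∫ x, ∫ y, Real.cos (β / √(s : ℝ) * (E - lam * x)⁻¹ - β / √(s : ℝ) * (E - lam * y)⁻¹)
    ∂ν ∂ν with hκ
  have hκ0 : 0 ≤ κ := by
    rw [hκ, double_cos ν (fun x => β / √(s : ℝ) * (E - lam * x)⁻¹) (by fun_prop)]
    positivity
  have hκ1 : κ ≤ 1 - p * τ' ^ 2 * r ^ 2 / 4 / s := by
    refine (kappa_le ν hsupp hlam hL hr hτ hpτ hE hEr hu0 hu1).trans (le_of_eq ?_)
    rw [← hτ', mul_pow, div_pow, hss, hβ]
    field_simp
    ring
  have hκs : κ ^ s ≤ Real.exp (-(p * τ' ^ 2 * r ^ 2 / 4)) := by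
    have h2 : κ ≤ Real.exp (-(p * τ' ^ 2 * r ^ 2 / 4 / s)) :=
      hκ1.trans (by have := Real.add_one_le_exp (-(p * τ' ^ 2 * r ^ 2 / 4 / s)); linarith)
    refine (pow_le_pow_left₀ hκ0 h2 s).trans (le_of_eq ?_)
    rw [← Real.exp_nat_mul]
    congr 1
    field_simp
  -- step 2 : pointwise bound
  set Bd : Set (Fin s → ℝ) := {v | R < |a v|} with hBd
  have hBm : MeasurableSet Bd := measurableSet_lt measurable_const (by fun_prop)
  have hpoint : ∀ q : (Fin s → ℝ) × (Fin s → ℝ), 1 - Real.cos (c * a q.1 - c * a q.2) ≤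
      2 * R ^ 4 * s * min 1 (((a q.1)⁻¹ - (a q.2)⁻¹) ^ 2) +
        (Bd.indicator (fun _ => (2 : ℝ)) q.1 + Bd.indicator (fun _ => (2 : ℝ)) q.2) := by
    intro q
    have hmin0 : 0 ≤ 2 * R ^ 4 * s * min 1 (((a q.1)⁻¹ - (a q.2)⁻¹) ^ 2) := by positivity
    have hi1 : 0 ≤ Bd.indicator (fun _ => (2 : ℝ)) q.1 := Set.indicator_nonneg (by simp) _
    have hi2 : 0 ≤ Bd.indicator (fun _ => (2 : ℝ)) q.2 := Set.indicator_nonneg (by simp) _
    have hcos := Real.neg_one_le_cos (c * a q.1 - c * a q.2)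
    by_cases hq1 : q.1 ∈ Bd
    · rw [Set.indicator_of_mem hq1]
      linarith
    by_cases hq2 : q.2 ∈ Bd
    · rw [Set.indicator_of_mem hq2]
      linarith
    have k1 : |a q.1| ≤ R := not_lt.1 hq1
    have k2 : |a q.2| ≤ R := not_lt.1 hq2
    have h := one_sub_cos_le (c := c) hs1 hR hβ0 hβ2 (by rw [hc, mul_pow, hss]) k1 k2
    linarith
  -- step 3 : integrate
  have hcosint : Integrable (fun q : (Fin s → ℝ) × (Fin s → ℝ) =>
      Real.cos (c * a q.1 - c * a q.2)) (m.prod m) :=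
    integrable_double_cos m (fun x => c * a x) (ham.const_mul c)
  have hminint : Integrable (fun q : (Fin s → ℝ) × (Fin s → ℝ) =>
      min 1 (((a q.1)⁻¹ - (a q.2)⁻¹) ^ 2)) (m.prod m) := by
    refine Integrable.of_bound (Measurable.aestronglyMeasurable (by fun_prop)) 1
      (Filter.Eventually.of_forall fun q => ?_)
    rw [Real.norm_of_nonneg (by positivity)]
    exact min_le_left _ _
  have hB1 : Integrable (fun q : (Fin s → ℝ) × (Fin s → ℝ) =>
      Bd.indicator (fun _ => (2 : ℝ)) q.1) (m.prod m) :=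
    ((integrable_const (2 : ℝ)).indicator hBm).comp_fst m
  have hB2 : Integrable (fun q : (Fin s → ℝ) × (Fin s → ℝ) =>
      Bd.indicator (fun _ => (2 : ℝ)) q.2) (m.prod m) :=
    ((integrable_const (2 : ℝ)).indicator hBm).comp_snd m
  have hI := integral_mono ((integrable_const (1 : ℝ)).sub hcosint)
    ((hminint.const_mul (2 * R ^ 4 * s)).add (hB1.add hB2)) hpoint
  have e1 : ∫ q, (1 - Real.cos (c * a q.1 - c * a q.2)) ∂(m.prod m) = 1 - κ ^ s := by
    rw [integral_sub (integrable_const 1) hcosint, ← h1,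
      integral_prod (fun q : (Fin s → ℝ) × (Fin s → ℝ) => Real.cos (c * a q.1 - c * a q.2))
        hcosint]
    simp
  have e2 : ∫ q : (Fin s → ℝ) × (Fin s → ℝ), Bd.indicator (fun _ => (2 : ℝ)) q.1 ∂(m.prod m) =
      2 * m.real Bd := by
    rw [integral_prod _ hB1]
    simp only [integral_const, probReal_univ, smul_eq_mul, one_mul]
    rw [integral_indicator_const _ hBm, smul_eq_mul, mul_comm]
  have e3 : ∫ q : (Fin s → ℝ) × (Fin s → ℝ), Bd.indicator (fun _ => (2 : ℝ)) q.2 ∂(m.prod m) =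
      2 * m.real Bd := by
    rw [integral_prod _ hB2]
    simp only [integral_const, probReal_univ, smul_eq_mul, one_mul]
    rw [integral_indicator_const _ hBm, smul_eq_mul, mul_comm]
  have e4 := integral_prod (μ := m) (ν := m) _ hminint
  have hI' : 1 - κ ^ s ≤ 2 * R ^ 4 * s * (∫ x, ∫ y, min 1 (((a x)⁻¹ - (a y)⁻¹) ^ 2) ∂m ∂m) +
      (2 * m.real Bd + 2 * m.real Bd) := by
    rw [← e1, ← e4]
    refine hI.trans (le_of_eq ?_)
    rw [integral_add' (hminint.const_mul _) (hB1.add hB2), integral_const_mul,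
      integral_add' hB1 hB2, e2, e3]
  have hpos : 0 < 2 * R ^ 4 * s := by positivity
  rw [one_div, inv_mul_le_iff₀ hpos]
  linarith

end Pool.Agent.W_MP_b6e843_mp
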