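import Pool.Agent.W_MP_b6e843_mp.Core
import Pool.Agent.W_MP_b6e843_mp.Noise

/-! # The model: independence, noise and the estimate for fixed energy -/

namespace Pool.Agent.W_MP_b6e843_mp

open MeasureTheory Set Filter Matrix ProbabilityTheory
open scoped Topology Real

variable {Ω : Type*} [MeasurableSpace Ω] {P : Measure Ω} [IsProbabilityMeasure P]
  {s : ℕ → ℕ} {lam : ℝ} {v : Vertex s → Ω → ℝ} {ν : Measure ℝ}

/-- The values on the `n`-th shell. -/
def shell (v : Vertex s → Ω → ℝ) (n : ℕ) (ω : Ω) (i : Fin (s n)) : ℝ := v ⟨n, i⟩ ω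

lemma measurable_shell (hm : ∀ x, Measurable (v x)) (n : ℕ) : Measurable (shell v n) :=
  measurable_pi_iff.mpr (fun i => hm ⟨n, i⟩)

lemma iIndepFun_shells (hm : ∀ x, Measurable (v x)) (hind : iIndepFun v P) :
    iIndepFun (shell v) P := by
  have hprob : ∀ x, IsProbabilityMeasure (P.map (v x)) :=
    fun x => Measure.isProbabilityMeasure_map (hm x).aemeasurable
  have h1 := (iIndepFun_iff_map_fun_eq_infinitePi_map hm).1 hind
  rw [iIndepFun_iff_map_fun_eq_infinitePi_map (fun n => measurable_shell hm n)]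
  have h2 : ∀ n, P.map (shell v n) = Measure.infinitePi (fun i => P.map (v ⟨n, i⟩)) := by
    intro n
    have h3 : iIndepFun (fun (i : Fin (s n)) => v ⟨n, i⟩) P :=
      hind.precomp (g := fun i : Fin (s n) => (⟨n, i⟩ : Vertex s)) (by
        intro i j hij
        simpa using hij)
    have := (iIndepFun_iff_map_fun_eq_infinitePi_map (fun i => hm ⟨n, i⟩)).1 h3
    exact this
  simp_rw [h2]
  have h4 := Measure.infinitePi_map_piCurry (ι := ℕ) (κ := fun n => Fin (s n))
    (X := fun _ _ => ℝ) (μ := fun n i => P.map (v ⟨n, i⟩))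
  rw [← h4]
  have h5 : (Measure.infinitePi fun p : (n : ℕ) × Fin (s n) => P.map (v ⟨p.1, p.2⟩))
      = P.map (fun ω x => v x ω) := h1.symm
  rw [h5, Measure.map_map (by fun_prop) (measurable_pi_iff.mpr hm)]
  rfl

lemma map_shell (hm : ∀ x, Measurable (v x)) (hind : iIndepFun v P)
    (hlaw : ∀ x, P.map (v x) = ν) (n : ℕ) :
    P.map (shell v n) = Measure.pi (fun _ : Fin (s n) => ν) := by
  have h3 : iIndepFun (fun (i : Fin (s n)) => v ⟨n, i⟩) P :=
    hind.precomp (g := fun i : Fin (s n) => (⟨n, i⟩ : Vertex s)) (by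
      intro i j hij
      simpa using hij)
  have h := (iIndepFun_iff_map_fun_eq_pi_map (fun i => (hm ⟨n, i⟩).aemeasurable)).1 h3
  simp_rw [hlaw] at h
  exact h

/-- The inverse Green's function averages. -/
noncomputable def bE (s : ℕ → ℕ) (lam : ℝ) (v : Vertex s → Ω → ℝ) (E : ℝ) (j : ℕ) (ω : Ω) : ℝ :=
  (ravg s lam (fun x => v x ω) E j)⁻¹

lemma measurable_bE (hm : ∀ x, Measurable (v x)) (E : ℝ) (j : ℕ) :
    Measurable (bE s lam v E j) :=
  (measurable_ravg (f := fun _ : Ω => E) (V := fun ω x => v x ω) measurable_const hm j).inv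

lemma bE_eq (E : ℝ) (j : ℕ) (ω : Ω) : bE s lam v E j ω = (avg lam E (s j) (shell v j ω))⁻¹ := rfl

lemma iIndepFun_bE (hm : ∀ x, Measurable (v x)) (hind : iIndepFun v P) (E : ℝ) :
    iIndepFun (bE s lam v E) P :=
  (iIndepFun_shells hm hind).comp (fun j (u : Fin (s j) → ℝ) => (avg lam E (s j) u)⁻¹)
    (fun j => (measurable_avg lam E (s j)).inv)

lemma integral_min_bE (hm : ∀ x, Measurable (v x)) (hind : iIndepFun v P)
    (hlaw : ∀ x, P.map (v x) = ν) (E : ℝ) (j : ℕ) :
    ∫ p : Ω × Ω, min 1 ((bE s lam v E j p.1 - bE s lam v E j p.2) ^ 2) ∂(P.prod P)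
      = ∫ x, ∫ y, min 1 (((avg lam E (s j) x)⁻¹ - (avg lam E (s j) y)⁻¹) ^ 2)
        ∂(Measure.pi (fun _ : Fin (s j) => ν)) ∂(Measure.pi (fun _ : Fin (s j) => ν)) := by
  set φ : (Fin (s j) → ℝ) × (Fin (s j) → ℝ) → ℝ := fun q =>
    min 1 (((avg lam E (s j) q.1)⁻¹ - (avg lam E (s j) q.2)⁻¹) ^ 2) with hφ
  have hφm : Measurable φ := by
    apply measurable_const.min
    exact ((((measurable_avg lam E (s j)).comp measurable_fst).inv).sub
      (((measurable_avg lam E (s j)).comp measurable_snd).inv)).pow_const 2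
  have hφb : ∀ q, ‖φ q‖ ≤ 1 := by
    intro q
    rw [Real.norm_eq_abs, abs_of_nonneg (by positivity)]
    exact min_le_left _ _
  have hX := measurable_shell hm j
  have hmap := map_shell hm hind hlaw j
  have hprob : IsProbabilityMeasure (P.map (shell v j)) :=
    Measure.isProbabilityMeasure_map hX.aemeasurable
  have hint : Integrable (fun p : Ω × Ω => φ (shell v j p.1, shell v j p.2)) (P.prod P) := by
    apply Integrable.of_bound _ 1
    · exact Eventually.of_forall (fun p => hφb _)
    · exact (hφm.comp ((hX.comp measurable_fst).prodMk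
        (hX.comp measurable_snd))).aestronglyMeasurable
  have hint2 : Integrable φ ((P.map (shell v j)).prod (P.map (shell v j))) := by
    apply Integrable.of_bound hφm.aestronglyMeasurable 1
    exact Eventually.of_forall (fun p => hφb _)
  calc ∫ p : Ω × Ω, min 1 ((bE s lam v E j p.1 - bE s lam v E j p.2) ^ 2) ∂(P.prod P)
      = ∫ p : Ω × Ω, φ (shell v j p.1, shell v j p.2) ∂(P.prod P) := rfl
    _ = ∫ ω, ∫ ω', φ (shell v j ω, shell v j ω') ∂P ∂P := integral_prod _ hint
    _ = ∫ ω, ∫ y, φ (shell v j ω, y) ∂(P.map (shell v j)) ∂P := by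
        congr 1
        funext ω
        rw [integral_map hX.aemeasurable]
        exact (hφm.comp measurable_prodMk_left).aestronglyMeasurable
    _ = ∫ x, ∫ y, φ (x, y) ∂(P.map (shell v j)) ∂(P.map (shell v j)) := by
        rw [integral_map hX.aemeasurable]
        exact hint2.integral_prod_left.aestronglyMeasurable
    _ = _ := by rw [hmap]

/-- Probability that the average of shell `j` is large. -/
noncomputable def tail (P : Measure Ω) (s : ℕ → ℕ) (lam : ℝ) (v : Vertex s → Ω → ℝ) (E R : ℝ)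
    (j : ℕ) : ℝ :=
  P.real {ω | R < |ravg s lam (fun x => v x ω) E j|}

lemma tail_eq (hm : ∀ x, Measurable (v x)) (hind : iIndepFun v P)
    (hlaw : ∀ x, P.map (v x) = ν) (E R : ℝ) (j : ℕ) :
    (Measure.pi (fun _ : Fin (s j) => ν)).real {u | R < |avg lam E (s j) u|}
      = tail P s lam v E R j := by
  rw [← map_shell hm hind hlaw j, measureReal_def, Measure.map_apply (measurable_shell hm j)]
  · rfl
  · exact measurableSet_lt measurable_const (measurable_avg lam E (s j)).abs

end Pool.Agent.W_MP_b6e843_mp
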