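import Pool.Agent.W_MP_b6e843_mp.Tower

/-! # The pair inequality -/

namespace Pool.Agent.W_MP_b6e843_mp

open MeasureTheory Set Filter Matrix ProbabilityTheory
open scoped Topology Real

/-- The square of side `2r`. -/
def box (r : ℝ) : Set Pl := {w | |w 0| ≤ r ∧ |w 1| ≤ r}

lemma box_eq (r : ℝ) : box r = Icc (fun _ => -r) (fun _ => r) := by
  ext w
  simp only [box, mem_ofPred_eq, mem_Icc, Pi.le_def, Fin.forall_fin_two, abs_le]
  tauto

lemma measurableSet_box (r : ℝ) : MeasurableSet (box r) := by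
  rw [box_eq]
  exact measurableSet_Icc

lemma volume_box {r : ℝ} (hr : 0 ≤ r) : (volume (box r)) = ENNReal.ofReal ((2 * r) ^ 2) := by
  rw [box_eq, Real.volume_Icc_pi]
  simp only [Fin.prod_univ_two, sub_neg_eq_add]
  rw [← ENNReal.ofReal_mul (by linarith)]
  congr 1
  ring

/-- Indicator of the unit square. -/
noncomputable def F0 : Pl → ℝ := (box 1).indicator (fun _ => 1)

lemma F0_sq (w : Pl) : F0 w ^ 2 = F0 w := by
  unfold F0
  by_cases h : w ∈ box 1
  · rw [indicator_of_mem h]; norm_num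
  · rw [indicator_of_notMem h]; norm_num

lemma adm_F0 : Adm F0 where
  meas := measurable_const.indicator (measurableSet_box 1)
  nonneg w := by
    unfold F0
    exact indicator_nonneg (fun _ _ => zero_le_one) w
  le_one w := by
    unfold F0
    by_cases h : w ∈ box 1
    · rw [indicator_of_mem h]
    · rw [indicator_of_notMem h]; norm_num
  int := by
    simp_rw [F0_sq]
    unfold F0
    rw [integrable_indicator_iff (measurableSet_box 1)]
    have h1 : volume (box 1) ≠ ⊤ := by
      rw [volume_box zero_le_one]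
      exact ENNReal.ofReal_ne_top
    have h2 : ‖(1:ℝ)‖ₑ ≠ ⊤ := enorm_ne_top
    exact integrableOn_const h1 h2

lemma integral_F0 : ∫ w, F0 w ^ 2 = 4 := by
  simp_rw [F0_sq]
  unfold F0
  rw [integral_indicator (measurableSet_box 1), setIntegral_const, measureReal_def,
    volume_box zero_le_one, ENNReal.toReal_ofReal (by positivity)]
  norm_num

variable {Ω : Type*} [MeasurableSpace Ω] {P : Measure Ω} [IsProbabilityMeasure P]

/-- The tower functions. -/
noncomputable def hfun (P : Measure Ω) (b : ℕ → Ω → ℝ) (n i : ℕ) : Pl → ℝ :=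
  avgOp P (fun ω => tm (fun j => b j ω) i (n - i)) F0

/-- Their squared norms. -/
noncomputable def Inorm (P : Measure Ω) (b : ℕ → Ω → ℝ) (n i : ℕ) : ℝ :=
  ∫ w, hfun P b n i w ^ 2

/-- Their squared mass in a cone. -/
noncomputable def Mcone (P : Measure Ω) (b : ℕ → Ω → ℝ) (ρ : ℝ) (n i : ℕ) : ℝ :=
  ∫ w in cone ρ, hfun P b n i w ^ 2

variable {b : ℕ → Ω → ℝ}

lemma adm_hfun (hb : ∀ j, Measurable (b j)) (n i : ℕ) : Adm (hfun P b n i) :=
  adm_F0.adm_avgOp (isRM_tm hb _ _)

lemma hfun_self (n : ℕ) : hfun P b n n = F0 := by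
  funext w
  simp [hfun, avgOp]

lemma Inorm_self (n : ℕ) : Inorm P b n n = 4 := by
  unfold Inorm
  rw [hfun_self, integral_F0]

omit [IsProbabilityMeasure P] in
lemma Inorm_nonneg (n i : ℕ) : 0 ≤ Inorm P b n i := integral_nonneg (fun _ => sq_nonneg _)

omit [IsProbabilityMeasure P] in
lemma Mcone_nonneg (ρ : ℝ) (n i : ℕ) : 0 ≤ Mcone P b ρ n i := integral_nonneg (fun _ => sq_nonneg _)

lemma Mcone_le (hb : ∀ j, Measurable (b j)) (ρ : ℝ) (n i : ℕ) :
    Mcone P b ρ n i ≤ Inorm P b n i :=
  setIntegral_le_integral (adm_hfun hb n i).int (Eventually.of_forall (fun _ => sq_nonneg _))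

lemma hfun_tower (hb : ∀ j, Measurable (b j)) (hind : iIndepFun b P) {n i j : ℕ} (hij : i ≤ j)
    (hjn : j ≤ n) :
    hfun P b n i = avgOp P (fun ω => tm (fun j => b j ω) i (j - i)) (hfun P b n j) := by
  unfold hfun
  have h := avgOp_tower (P := P) hb hind adm_F0 i (j - i) (n - j)
  have e1 : j - i + (n - j) = n - i := by omega
  have e2 : i + (j - i) = j := by omega
  rw [e1, e2] at h
  exact h

lemma Inorm_mono (hb : ∀ j, Measurable (b j)) (hind : iIndepFun b P) {n i j : ℕ} (hij : i ≤ j)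
    (hjn : j ≤ n) : Inorm P b n i ≤ Inorm P b n j := by
  obtain ⟨_, h2⟩ := (adm_hfun (P := P) hb n j).total_variance (P := P) (isRM_tm hb i (j - i))
  rw [← hfun_tower hb hind hij hjn] at h2
  have h3 : 0 ≤ ∫ ω, (∫ w, (hfun P b n j (tm (fun j => b j ω) i (j - i) *ᵥ w)
      - hfun P b n i w) ^ 2) ∂P := integral_nonneg (fun _ => integral_nonneg (fun _ => sq_nonneg _))
  rw [h2] at h3
  unfold Inorm
  linarith

lemma Inorm_le (hb : ∀ j, Measurable (b j)) (hind : iIndepFun b P) {n i : ℕ} (hi : i ≤ n) :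
    Inorm P b n i ≤ 4 := by
  rw [← Inorm_self (P := P) (b := b) n]
  exact Inorm_mono hb hind hi le_rfl

/-- One-step inequality for the tower. -/
lemma step_tower (hb : ∀ j, Measurable (b j)) (hind : iIndepFun b P) {ρ : ℝ} (hρ : 0 ≤ ρ) {k : ℕ}
    (hk : 0 < k) {n j : ℕ} (hj : j < n) :
    (∫ p : Ω × Ω, min 1 ((b j p.1 - b j p.2) ^ 2) ∂(P.prod P)) *
        (Mcone P b ρ n (j + 1) - 8 / k) ≤
      4 * (k * (2 * ρ + 1)) ^ 2 * (Inorm P b n (j + 1) - Inorm P b n j) := by
  have h := step_ineq (P := P) (adm_hfun (P := P) hb n (j + 1)) (hb j) hρ hk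
    (Inorm_le hb hind (by omega))
  have e : hfun P b n j = avgOp P (fun ω => tmat (b j ω)) (hfun P b n (j + 1)) := by
    have h1 := hfun_tower (P := P) hb hind (n := n) (i := j) (j := j + 1) (by omega) (by omega)
    have e2 : ∀ ω, tm (fun j => b j ω) j (j + 1 - j) = tmat (b j ω) := by
      intro ω
      rw [show j + 1 - j = 0 + 1 by omega, tm_succ]
      simp
    simp_rw [e2] at h1
    exact h1
  rw [← e] at h
  exact h

/-- A set of matrices mapping the complement of the cone into the cone. -/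
def MapsCone (ρ : ℝ) (S : Matrix (Fin 2) (Fin 2) ℝ) : Prop :=
  ∀ w : Pl, w ∉ cone ρ → w ≠ 0 → S *ᵥ w ∈ cone ρ

/-- The pair inequality. -/
lemma pair_ineq (hb : ∀ j, Measurable (b j)) (hind : iIndepFun b P) {ρ : ℝ} {n i j : ℕ}
    (hij : i ≤ j) (hjn : j ≤ n) {Gs : Set Ω} (hG : MeasurableSet Gs)
    (hmaps : ∀ ω ∈ Gs, MapsCone ρ (tm (fun j => b j ω) i (j - i))) :
    Inorm P b n 0 * P.real Gs ≤ Mcone P b ρ n i + 2 * Mcone P b ρ n j
      + 2 * (Inorm P b n j - Inorm P b n i) := by
  have hrm := isRM_tm hb i (j - i)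
  have hadm_i := adm_hfun (P := P) hb n i
  have hadm_j := adm_hfun (P := P) hb n j
  obtain ⟨hint, htv⟩ := hadm_j.total_variance (P := P) hrm
  rw [← hfun_tower hb hind hij hjn] at hint htv
  set X : Ω → ℝ := fun ω => ∫ w, (hfun P b n j (tm (fun j => b j ω) i (j - i) *ᵥ w)
      - hfun P b n i w) ^ 2 with hX
  have hX0 : ∀ ω, 0 ≤ X ω := fun ω => integral_nonneg (fun _ => sq_nonneg _)
  -- pointwise inequality on the event
  have hpt : ∀ ω ∈ Gs, Inorm P b n i ≤ Mcone P b ρ n i + 2 * Mcone P b ρ n j + 2 * X ω := by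
    intro ω hω
    set S := tm (fun j => b j ω) i (j - i) with hS
    have hdet : S.det = 1 := det_tm _ _ _
    have hSint : Integrable (fun w => hfun P b n j (S *ᵥ w) ^ 2) :=
      integrable_mulVec hdet hadm_j.int
    have hSmeas : Measurable (fun w => hfun P b n j (S *ᵥ w)) :=
      hadm_j.meas.comp (measurable_mulVec' S)
    have hdiff : Integrable (fun w => (hfun P b n j (S *ᵥ w) - hfun P b n i w) ^ 2) :=
      integrable_sq_sub hSmeas hSint hadm_i.meas hadm_i.int
    have h1 : Inorm P b n i = Mcone P b ρ n i + ∫ w in (cone ρ)ᶜ, hfun P b n i w ^ 2 :=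
      (integral_add_compl (measurableSet_cone ρ) hadm_i.int).symm
    have h2 : ∫ w in (cone ρ)ᶜ, hfun P b n i w ^ 2 ≤
        ∫ w in (cone ρ)ᶜ, (2 * hfun P b n j (S *ᵥ w) ^ 2
          + 2 * (hfun P b n j (S *ᵥ w) - hfun P b n i w) ^ 2) := by
      apply integral_mono hadm_i.int.integrableOn
      · exact ((hSint.const_mul 2).add (hdiff.const_mul 2)).integrableOn
      · intro w
        simp only
        nlinarith [sq_nonneg (2 * hfun P b n j (S *ᵥ w) - hfun P b n i w)]
    have h3 : ∫ w in (cone ρ)ᶜ, (2 * hfun P b n j (S *ᵥ w) ^ 2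
          + 2 * (hfun P b n j (S *ᵥ w) - hfun P b n i w) ^ 2)
        = 2 * (∫ w in (cone ρ)ᶜ, hfun P b n j (S *ᵥ w) ^ 2)
          + 2 * (∫ w in (cone ρ)ᶜ, (hfun P b n j (S *ᵥ w) - hfun P b n i w) ^ 2) := by
      rw [integral_add (hSint.const_mul 2).integrableOn (hdiff.const_mul 2).integrableOn,
        integral_const_mul, integral_const_mul]
    have h4 : ∫ w in (cone ρ)ᶜ, (hfun P b n j (S *ᵥ w) - hfun P b n i w) ^ 2 ≤ X ω :=
      setIntegral_le_integral hdiff (Eventually.of_forall (fun _ => sq_nonneg _))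
    have h5 : ∫ w in (cone ρ)ᶜ, hfun P b n j (S *ᵥ w) ^ 2 ≤ Mcone P b ρ n j := by
      have hm : Measurable ((cone ρ).indicator (fun w => hfun P b n j w ^ 2)) :=
        (hadm_j.meas.pow_const 2).indicator (measurableSet_cone ρ)
      have e1 : Mcone P b ρ n j = ∫ w, (cone ρ).indicator (fun w => hfun P b n j w ^ 2) (S *ᵥ w) := by
        rw [integral_mulVec hdet hm, integral_indicator (measurableSet_cone ρ)]
        rfl
      rw [e1, ← integral_indicator (measurableSet_cone ρ).compl]
      apply integral_mono_ae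
      · exact hSint.indicator (measurableSet_cone ρ).compl
      · exact integrable_mulVec hdet (hadm_j.int.indicator (measurableSet_cone ρ))
      · have hne : ∀ᵐ w : Pl, w ≠ 0 := by
          rw [ae_iff]
          simp
        filter_upwards [hne] with w hw
        by_cases hwc : w ∈ cone ρ
        · rw [indicator_of_notMem (by simpa using hwc)]
          exact indicator_nonneg (fun _ _ => sq_nonneg _) _
        · rw [indicator_of_mem (by simpa using hwc), indicator_of_mem (hmaps ω hω w hwc hw)]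
    linarith
  -- integrate over the event
  have h6 : Inorm P b n i * P.real Gs ≤ (Mcone P b ρ n i + 2 * Mcone P b ρ n j) * P.real Gs
      + 2 * ∫ ω in Gs, X ω ∂P := by
    have h7 : ∫ ω in Gs, Inorm P b n i ∂P
        ≤ ∫ ω in Gs, (Mcone P b ρ n i + 2 * Mcone P b ρ n j + 2 * X ω) ∂P := by
      apply setIntegral_mono_on
      · exact integrableOn_const (by simp) (by simp)
      · exact ((integrable_const _).add (hint.const_mul 2)).integrableOn
      · exact hG
      · exact hpt
    have i1 : Integrable (fun _ : Ω => Mcone P b ρ n i + 2 * Mcone P b ρ n j) (P.restrict Gs) :=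
      integrable_const _
    have i2 : Integrable (fun ω => 2 * X ω) (P.restrict Gs) := (hint.const_mul 2).integrableOn
    rw [setIntegral_const, integral_add i1 i2, setIntegral_const, integral_const_mul] at h7
    simp only [smul_eq_mul] at h7
    linarith
  have h8 : ∫ ω in Gs, X ω ∂P ≤ ∫ ω, X ω ∂P :=
    setIntegral_le_integral hint (Eventually.of_forall hX0)
  have h9 : P.real Gs ≤ 1 := measureReal_le_one
  have h10 : 0 ≤ P.real Gs := measureReal_nonneg
  have h11 : (Mcone P b ρ n i + 2 * Mcone P b ρ n j) * P.real Gs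
      ≤ Mcone P b ρ n i + 2 * Mcone P b ρ n j := by
    apply mul_le_of_le_one_right _ h9
    have := Mcone_nonneg (P := P) (b := b) ρ n i
    have := Mcone_nonneg (P := P) (b := b) ρ n j
    linarith
  have h12 : Inorm P b n 0 * P.real Gs ≤ Inorm P b n i * P.real Gs := by
    gcongr
    exact Inorm_mono hb hind (Nat.zero_le i) (hij.trans hjn)
  have h13 : ∫ ω, X ω ∂P = Inorm P b n j - Inorm P b n i := htv
  linarith

end Pool.Agent.W_MP_b6e843_mp
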