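import Pool.Agent.W_MP_b6e843_mp.Defs

/-! # Auxiliary definitions: shell vectors and orthogonal-type polynomials -/

namespace Pool.Agent.W_MP_b6e843_mp

open MeasureTheory Polynomial

/-- the normalised indicator of the `n`-th shell -/
noncomputable def shellVec (s : ℕ → ℕ) (n : ℕ) : L2 s :=
  ((1 / √(s n : ℝ) : ℝ) : ℂ) • ∑ i : Fin (s n), lp.single 2 (⟨n, i⟩ : Vertex s) (1 : ℂ)

/-- `∏_{x ∈ S_j} (X - lam v x)` -/
noncomputable def polD (s : ℕ → ℕ) (lam : ℝ) (v : Vertex s → ℝ) (j : ℕ) : ℝ[X] :=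
  ∏ i : Fin (s j), (X - C (lam * v ⟨j, i⟩))

/-- `(1/s_j) ∑_{x ∈ S_j} ∏_{y ≠ x} (X - lam v y)` -/
noncomputable def polN (s : ℕ → ℕ) (lam : ℝ) (v : Vertex s → ℝ) (j : ℕ) : ℝ[X] :=
  C (1 / (s j : ℝ)) * ∑ i : Fin (s j), ∏ k ∈ Finset.univ.erase i, (X - C (lam * v ⟨j, k⟩))

/-- Numerators of the solution `u`, started at shell `i`. -/
noncomputable def polP (s : ℕ → ℕ) (lam : ℝ) (v : Vertex s → ℝ) (i : ℕ) : ℕ → ℝ[X]
  | 0 => 1
  | 1 => polD s lam v i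
  | (m + 2) => polD s lam v (i + m + 1) * polP s lam v i (m + 1)
      - polN s lam v (i + m + 1) * polN s lam v (i + m) * polP s lam v i m

/-- The Green's function average of one shell of size `s`. -/
noncomputable def avg (lam E : ℝ) (s : ℕ) (v : Fin s → ℝ) : ℝ :=
  (1 / (s : ℝ)) * ∑ i, (E - lam * v i)⁻¹

end Pool.Agent.W_MP_b6e843_mp
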