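import Mathlib

/-! # The shear lemma in the plane -/

namespace Pool.Agent.W_MP_b6e843_mp

open MeasureTheory Set Filter Matrix
open scoped Topology Real

/-- The plane. -/
abbrev Pl : Type := Fin 2 → ℝ

/-- Matrices of determinant one preserve area. -/
lemma measurePreserving_mulVec {A : Matrix (Fin 2) (Fin 2) ℝ} (hA : A.det = 1) :
    MeasurePreserving (fun w : Pl => A *ᵥ w) volume volume := by
  have h := Real.map_matrix_volume_pi_eq_smul_volume_pi (M := A) (by rw [hA]; exact one_ne_zero)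
  refine ⟨?_, ?_⟩
  · exact (Matrix.toLin' A).continuous_of_finiteDimensional.measurable
  · have e : (fun w : Pl => A *ᵥ w) = (Matrix.toLin' A : Pl → Pl) := by
      funext w
      simp
    rw [e, h, hA]
    simp

lemma measurable_mulVec' (A : Matrix (Fin 2) (Fin 2) ℝ) : Measurable (fun w : Pl => A *ᵥ w) := by
  have e : (fun w : Pl => A *ᵥ w) = (Matrix.toLin' A : Pl → Pl) := by
    funext w
    simp
  rw [e]
  exact (Matrix.toLin' A).continuous_of_finiteDimensional.measurable

lemma integral_mulVec {A : Matrix (Fin 2) (Fin 2) ℝ} (hA : A.det = 1) {g : Pl → ℝ}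
    (hg : Measurable g) : ∫ w : Pl, g (A *ᵥ w) = ∫ w : Pl, g w := by
  have h := measurePreserving_mulVec hA
  conv_rhs => rw [← h.map_eq]
  rw [integral_map h.measurable.aemeasurable hg.aestronglyMeasurable]

lemma integrable_mulVec {A : Matrix (Fin 2) (Fin 2) ℝ} (hA : A.det = 1) {g : Pl → ℝ}
    (hg : Integrable g) : Integrable (fun w : Pl => g (A *ᵥ w)) :=
  (measurePreserving_mulVec hA).integrable_comp_of_integrable hg

/-- The shear. -/
def shr (c : ℝ) : Matrix (Fin 2) (Fin 2) ℝ := !![1, c; 0, 1]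

lemma det_shr (c : ℝ) : (shr c).det = 1 := by simp [shr, Matrix.det_fin_two]

lemma shr_mulVec (c : ℝ) (w : Pl) : shr c *ᵥ w = ![w 0 + c * w 1, w 1] := by
  funext i
  fin_cases i <;> simp [shr, Matrix.mulVec, dotProduct, Fin.sum_univ_two]

lemma shr_mulVec_add (c d : ℝ) (w : Pl) : shr (c + d) *ᵥ w = shr c *ᵥ (shr d *ᵥ w) := by
  rw [shr_mulVec, shr_mulVec, shr_mulVec]
  funext i
  fin_cases i <;> simp
  ring

lemma shr_zero_mulVec (w : Pl) : shr 0 *ᵥ w = w := by
  rw [shr_mulVec]
  funext i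
  fin_cases i <;> simp

/-- The cone around the second axis. -/
def cone (ρ : ℝ) : Set Pl := {w | |w 0| < ρ * |w 1|}

lemma measurableSet_cone (ρ : ℝ) : MeasurableSet (cone ρ) := by
  apply measurableSet_lt
  · exact (measurable_pi_apply 0).abs
  · exact ((measurable_pi_apply 1).abs).const_mul _

variable {f : Pl → ℝ}

lemma integrable_sq_sub {g : Pl → ℝ} (hf : Measurable f) (hf2 : Integrable (fun w => f w ^ 2))
    (hg : Measurable g) (hg2 : Integrable (fun w => g w ^ 2)) :
    Integrable (fun w => (f w - g w) ^ 2) := by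
  apply ((hf2.const_mul 2).add (hg2.const_mul 2)).mono'
  · exact ((hf.sub hg).pow_const 2).aestronglyMeasurable
  · refine Eventually.of_forall (fun w => ?_)
    rw [Real.norm_eq_abs, abs_of_nonneg (sq_nonneg _)]
    simp only [Pi.add_apply]
    nlinarith [sq_nonneg (f w + g w)]

/-- Iterated shears. -/
lemma integral_shr_nsmul_le (hf : Measurable f) (hf2 : Integrable (fun w => f w ^ 2)) (c : ℝ)
    (m : ℕ) : ∫ w, (f (shr (m * c) *ᵥ w) - f w) ^ 2 ≤
      (m : ℝ) ^ 2 * ∫ w, (f (shr c *ᵥ w) - f w) ^ 2 := by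
  have hmeas : ∀ c : ℝ, Measurable (fun w => f (shr c *ᵥ w)) := fun c =>
    hf.comp (measurable_mulVec' _)
  have hint : ∀ c : ℝ, Integrable (fun w => f (shr c *ᵥ w) ^ 2) := fun c =>
    integrable_mulVec (det_shr c) hf2
  have hterm : ∀ l : ℕ, ∫ w, (f (shr ((l + 1 : ℕ) * c) *ᵥ w) - f (shr (l * c) *ᵥ w)) ^ 2
      = ∫ w, (f (shr c *ᵥ w) - f w) ^ 2 := by
    intro l
    have := integral_mulVec (det_shr (l * c)) (g := fun w => (f (shr c *ᵥ w) - f w) ^ 2)
      (((hmeas c).sub hf).pow_const 2)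
    rw [← this]
    congr 1
    funext w
    have e : ((l + 1 : ℕ) : ℝ) * c = c + l * c := by
      push_cast
      ring
    rw [← shr_mulVec_add, e]
  have hpt : ∀ w : Pl, (f (shr (m * c) *ᵥ w) - f w) ^ 2 ≤
      m * ∑ l ∈ Finset.range m, (f (shr ((l + 1 : ℕ) * c) *ᵥ w) - f (shr (l * c) *ᵥ w)) ^ 2 := by
    intro w
    have h1 := Finset.sum_range_sub (fun l : ℕ => f (shr (l * c) *ᵥ w)) m
    have h2 := sq_sum_le_card_mul_sum_sq (s := Finset.range m)
      (f := fun l : ℕ => f (shr ((l + 1 : ℕ) * c) *ᵥ w) - f (shr (l * c) *ᵥ w))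
    rw [h1, Finset.card_range, Nat.cast_zero, zero_mul, shr_zero_mulVec] at h2
    exact h2
  have hI : ∀ l : ℕ, Integrable
      (fun w => (f (shr ((l + 1 : ℕ) * c) *ᵥ w) - f (shr (l * c) *ᵥ w)) ^ 2) := fun l =>
    integrable_sq_sub (hmeas _) (hint _) (hmeas _) (hint _)
  calc ∫ w, (f (shr (m * c) *ᵥ w) - f w) ^ 2
      ≤ ∫ w, m * ∑ l ∈ Finset.range m,
          (f (shr ((l + 1 : ℕ) * c) *ᵥ w) - f (shr (l * c) *ᵥ w)) ^ 2 := by
        apply integral_mono
        · exact integrable_sq_sub (hmeas _) (hint _) hf hf2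
        · exact (integrable_finsetSum _ (fun l _ => hI l)).const_mul _
        · exact hpt
    _ = m * ∑ l ∈ Finset.range m, ∫ w, (f (shr c *ᵥ w) - f w) ^ 2 := by
        rw [integral_const_mul, integral_finsetSum _ (fun l _ => hI l)]
        congr 1
        exact Finset.sum_congr rfl (fun l _ => hterm l)
    _ = (m : ℝ) ^ 2 * ∫ w, (f (shr c *ᵥ w) - f w) ^ 2 := by
        rw [Finset.sum_const, Finset.card_range, nsmul_eq_mul]
        ring

/-- The mass in a cone is controlled by disjoint sheared copies. -/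
lemma sum_integral_cone_le (hf : Measurable f) (hf2 : Integrable (fun w => f w ^ 2)) {ρ c : ℝ}
    (hρ : 0 ≤ ρ) (hc : 2 * ρ ≤ |c|) (k : ℕ) :
    ∑ l ∈ Finset.range k, ∫ w in cone ρ, f (shr (l * c) *ᵥ w) ^ 2 ≤ ∫ w, f w ^ 2 := by
  have hmeas : ∀ c : ℝ, Measurable (fun w => f (shr c *ᵥ w)) := fun c =>
    hf.comp (measurable_mulVec' _)
  have h1 : ∀ l : ℕ, ∫ w in cone ρ, f (shr (l * c) *ᵥ w) ^ 2
      = ∫ w, ((fun w => shr (-(l * c)) *ᵥ w) ⁻¹' (cone ρ)).indicator (fun w => f w ^ 2) w := by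
    intro l
    rw [← integral_indicator (measurableSet_cone ρ)]
    have hm : Measurable
        (((fun w => shr (-(l * c)) *ᵥ w) ⁻¹' (cone ρ)).indicator (fun w => f w ^ 2)) :=
      (hf.pow_const 2).indicator (measurable_mulVec' _ (measurableSet_cone ρ))
    rw [← integral_mulVec (det_shr (l * c)) hm]
    congr 1
    funext w
    have e : shr (-(l * c)) *ᵥ (shr (l * c) *ᵥ w) = w := by
      rw [← shr_mulVec_add, neg_add_cancel, shr_zero_mulVec]
    by_cases hw : w ∈ cone ρ
    · rw [indicator_of_mem hw, indicator_of_mem]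
      rw [mem_preimage, e]
      exact hw
    · rw [indicator_of_notMem hw, indicator_of_notMem]
      rw [mem_preimage, e]
      exact hw
  have hint : ∀ l : ℕ, Integrable
      (((fun w => shr (-(l * c)) *ᵥ w) ⁻¹' (cone ρ)).indicator (fun w => f w ^ 2)) := fun l =>
    hf2.indicator (measurable_mulVec' _ (measurableSet_cone ρ))
  calc ∑ l ∈ Finset.range k, ∫ w in cone ρ, f (shr (l * c) *ᵥ w) ^ 2
      = ∫ w, ∑ l ∈ Finset.range k,
          ((fun w => shr (-(l * c)) *ᵥ w) ⁻¹' (cone ρ)).indicator (fun w => f w ^ 2) w := by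
        rw [integral_finsetSum _ (fun l _ => hint l)]
        exact Finset.sum_congr rfl (fun l _ => h1 l)
    _ ≤ ∫ w, f w ^ 2 := by
        apply integral_mono (integrable_finsetSum _ (fun l _ => hint l)) hf2
        intro w
        simp only
        by_cases hex : ∃ l ∈ Finset.range k, w ∈ (fun w => shr (-(l * c)) *ᵥ w) ⁻¹' (cone ρ)
        · obtain ⟨l, hl, hlw⟩ := hex
          rw [Finset.sum_eq_single_of_mem l hl]
          · rw [indicator_of_mem hlw]
          · intro l' _ hne
            apply indicator_of_notMem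
            intro hl'w
            simp only [mem_preimage, cone, mem_ofPred_eq, shr_mulVec] at hlw hl'w
            simp only [Matrix.cons_val_zero, Matrix.cons_val_one] at hlw hl'w
            have hw1 : 0 < |w 1| := by
              by_contra hcon
              have : |w 1| = 0 := le_antisymm (not_lt.mp hcon) (abs_nonneg _)
              rw [this, mul_zero] at hlw
              exact absurd hlw (not_lt.mpr (abs_nonneg _))
            have h2 : |((l : ℝ) - l') * c * w 1| < 2 * ρ * |w 1| := by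
              have e : ((l : ℝ) - l') * c * w 1
                  = (w 0 + -(l' * c) * w 1) - (w 0 + -(l * c) * w 1) := by ring
              rw [e]
              calc _ ≤ |w 0 + -(l' * c) * w 1| + |w 0 + -(l * c) * w 1| := abs_sub _ _
                _ < ρ * |w 1| + ρ * |w 1| := add_lt_add hl'w hlw
                _ = 2 * ρ * |w 1| := by ring
            rw [abs_mul, abs_mul] at h2
            have h3 : (1:ℝ) ≤ |(l : ℝ) - l'| := by
              have h4 : ((l : ℤ) - (l' : ℤ)) ≠ 0 := by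
                intro h
                apply hne
                omega
              have h5 : (1 : ℤ) ≤ |(l : ℤ) - (l' : ℤ)| := Int.one_le_abs h4
              exact_mod_cast h5
            have h6 : 2 * ρ * |w 1| ≤ |(l : ℝ) - l'| * |c| * |w 1| := by
              apply mul_le_mul_of_nonneg_right _ (abs_nonneg _)
              calc 2 * ρ ≤ |c| := hc
                _ = 1 * |c| := (one_mul _).symm
                _ ≤ |(l : ℝ) - l'| * |c| := by gcongr
            linarith
        · push Not at hex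
          rw [Finset.sum_eq_zero]
          · positivity
          · intro l hl
            exact indicator_of_notMem (hex l hl) _

/-- The shear lemma. -/
theorem shear_lemma (hf : Measurable f) (hf2 : Integrable (fun w => f w ^ 2)) {ρ : ℝ}
    (hρ : 0 ≤ ρ) (c : ℝ) {k : ℕ} (hk : 0 < k) :
    min 1 (c ^ 2) * ((∫ w in cone ρ, f w ^ 2) - 2 / k * ∫ w, f w ^ 2) ≤
      2 * (k * (2 * ρ + 1)) ^ 2 * ∫ w, (f (shr c *ᵥ w) - f w) ^ 2 := by
  have hΔ0 : 0 ≤ ∫ w, (f (shr c *ᵥ w) - f w) ^ 2 := integral_nonneg (fun w => sq_nonneg _)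
  have hk' : (0:ℝ) < k := by exact_mod_cast hk
  by_cases hc : c = 0
  · subst hc
    have : min 1 ((0:ℝ) ^ 2) = 0 := by norm_num
    rw [this, zero_mul]
    positivity
  have hcpos : 0 < |c| := abs_pos.mpr hc
  set m : ℕ := ⌈2 * ρ / |c|⌉₊ with hm
  have hm1 : 2 * ρ ≤ |(m : ℝ) * c| := by
    rw [abs_mul, Nat.abs_cast]
    have := Nat.le_ceil (2 * ρ / |c|)
    calc 2 * ρ = 2 * ρ / |c| * |c| := by field_simp
      _ ≤ m * |c| := by gcongr
  have hm2 : min 1 |c| * m ≤ 2 * ρ + 1 := by
    have h1 : (m : ℝ) ≤ 2 * ρ / |c| + 1 := (Nat.ceil_lt_add_one (by positivity)).le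
    calc min 1 |c| * m ≤ min 1 |c| * (2 * ρ / |c| + 1) := by gcongr
      _ = min 1 |c| / |c| * (2 * ρ) + min 1 |c| := by ring
      _ ≤ 1 * (2 * ρ) + 1 := by
          gcongr
          · rw [div_le_one hcpos]
            exact min_le_right _ _
          · exact min_le_left _ _
      _ = 2 * ρ + 1 := by ring
  have hmin : min 1 (c ^ 2) = (min 1 |c|) ^ 2 := by
    rcases le_total 1 |c| with h | h
    · rw [min_eq_left h, min_eq_left, one_pow]
      rw [← sq_abs]
      nlinarith
    · rw [min_eq_right h, min_eq_right, sq_abs]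
      rw [← sq_abs]
      nlinarith [abs_nonneg c]
  set Δ := ∫ w, (f (shr c *ᵥ w) - f w) ^ 2 with hΔ
  set μ := ∫ w in cone ρ, f w ^ 2 with hμ
  set F := ∫ w, f w ^ 2 with hF
  have hmeas : ∀ c : ℝ, Measurable (fun w => f (shr c *ᵥ w)) := fun c =>
    hf.comp (measurable_mulVec' _)
  have hint : ∀ c : ℝ, Integrable (fun w => f (shr c *ᵥ w) ^ 2) := fun c =>
    integrable_mulVec (det_shr c) hf2
  have hl : ∀ l ∈ Finset.range k, μ ≤ 2 * (∫ w in cone ρ, f (shr (l * (m * c)) *ᵥ w) ^ 2)
      + 2 * ((k * m : ℝ) ^ 2 * Δ) := by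
    intro l hl
    have hlk : (l : ℝ) ≤ k := by exact_mod_cast (Finset.mem_range.mp hl).le
    have h1 : μ ≤ ∫ w in cone ρ, (2 * f (shr (l * (m * c)) *ᵥ w) ^ 2
        + 2 * (f (shr (l * (m * c)) *ᵥ w) - f w) ^ 2) := by
      apply integral_mono hf2.integrableOn
      · exact (((hint _).const_mul 2).add
          ((integrable_sq_sub (hmeas _) (hint _) hf hf2).const_mul 2)).integrableOn
      · intro w
        simp only
        nlinarith [sq_nonneg (2 * f (shr (l * (m * c)) *ᵥ w) - f w)]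
    have h2 : ∫ w in cone ρ, (2 * f (shr (l * (m * c)) *ᵥ w) ^ 2
        + 2 * (f (shr (l * (m * c)) *ᵥ w) - f w) ^ 2)
        = 2 * (∫ w in cone ρ, f (shr (l * (m * c)) *ᵥ w) ^ 2)
          + 2 * (∫ w in cone ρ, (f (shr (l * (m * c)) *ᵥ w) - f w) ^ 2) := by
      rw [integral_add ((hint _).const_mul 2).integrableOn
        ((integrable_sq_sub (hmeas _) (hint _) hf hf2).const_mul 2).integrableOn,
        integral_const_mul, integral_const_mul]
    have h3 : ∫ w in cone ρ, (f (shr (l * (m * c)) *ᵥ w) - f w) ^ 2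
        ≤ ∫ w, (f (shr (l * (m * c)) *ᵥ w) - f w) ^ 2 :=
      setIntegral_le_integral (integrable_sq_sub (hmeas _) (hint _) hf hf2)
        (Eventually.of_forall (fun w => sq_nonneg _))
    have h4 : ∫ w, (f (shr (l * (m * c)) *ᵥ w) - f w) ^ 2 ≤ (k * m : ℝ) ^ 2 * Δ := by
      have h5 := integral_shr_nsmul_le hf hf2 c (l * m)
      have e : ((l * m : ℕ) : ℝ) * c = l * (m * c) := by
        push_cast
        ring
      rw [e] at h5
      refine h5.trans ?_
      apply mul_le_mul_of_nonneg_right _ hΔ0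
      push_cast
      gcongr
    linarith
  have hsum := Finset.sum_le_sum hl
  rw [Finset.sum_const, Finset.card_range, nsmul_eq_mul, Finset.sum_add_distrib, Finset.sum_const,
    Finset.card_range, nsmul_eq_mul, ← Finset.mul_sum] at hsum
  have hcone := sum_integral_cone_le hf hf2 hρ hm1 k
  have h6 : k * μ ≤ 2 * F + k * (2 * ((k * m : ℝ) ^ 2 * Δ)) := by linarith
  have h7 : μ - 2 / k * F ≤ 2 * ((k * m : ℝ) ^ 2 * Δ) := by
    have h8 : k * (μ - 2 / k * F) ≤ k * (2 * ((k * m : ℝ) ^ 2 * Δ)) := by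
      have : k * (μ - 2 / k * F) = k * μ - 2 * F := by field_simp
      linarith
    exact le_of_mul_le_mul_left h8 hk'
  calc min 1 (c ^ 2) * (μ - 2 / k * F) ≤ min 1 (c ^ 2) * (2 * ((k * m : ℝ) ^ 2 * Δ)) := by
        apply mul_le_mul_of_nonneg_left h7
        positivity
    _ = 2 * (k * (min 1 |c| * m)) ^ 2 * Δ := by
        rw [hmin]
        ring
    _ ≤ 2 * (k * (2 * ρ + 1)) ^ 2 * Δ := by
        gcongr

end Pool.Agent.W_MP_b6e843_mp
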