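import Pool.Agent.W_MP_b6e843_mp.Contraction
import Pool.Agent.W_MP_b6e843_mp.Weak

/-! # The tower of averaged functions -/

namespace Pool.Agent.W_MP_b6e843_mp

open MeasureTheory Set Filter Matrix ProbabilityTheory
open scoped Topology Real

variable {Ω : Type*} [MeasurableSpace Ω] {P : Measure Ω} [IsProbabilityMeasure P]

section Step

variable {F : Pl → ℝ}

lemma tmat_mulVec (b : ℝ) (w : Pl) : tmat b *ᵥ w = ![b * w 0 - w 1, w 0] := by
  funext i
  fin_cases i
  · simp [tmat, Matrix.mulVec, dotProduct, Fin.sum_univ_two]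
    ring
  · simp [tmat, Matrix.mulVec, dotProduct, Fin.sum_univ_two]

lemma tmat_mulVec_shr (b b' : ℝ) (w : Pl) :
    tmat b *ᵥ w = shr (b - b') *ᵥ (tmat b' *ᵥ w) := by
  rw [shr_mulVec, tmat_mulVec, tmat_mulVec]
  funext i
  fin_cases i <;> simp
  ring

lemma isRM_tmat {b : Ω → ℝ} (hb : Measurable b) : IsRM (fun ω => tmat (b ω)) := by
  refine ⟨fun i j => ?_, fun ω => det_tmat _⟩
  fin_cases i <;> fin_cases j <;> simp [tmat, hb]

lemma step_ineq (hF : Adm F) {b : Ω → ℝ} (hb : Measurable b) {ρ : ℝ} (hρ : 0 ≤ ρ) {k : ℕ}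
    (hk : 0 < k) (h4 : ∫ w, F w ^ 2 ≤ 4) :
    (∫ p : Ω × Ω, min 1 ((b p.1 - b p.2) ^ 2) ∂(P.prod P)) *
        ((∫ w in cone ρ, F w ^ 2) - 8 / k) ≤
      4 * (k * (2 * ρ + 1)) ^ 2 *
        ((∫ w, F w ^ 2) - ∫ w, avgOp P (fun ω => tmat (b ω)) F w ^ 2) := by
  obtain ⟨hi, he⟩ := hF.two_copy (P := P) (isRM_tmat hb)
  have hk' : (0:ℝ) < k := by exact_mod_cast hk
  have hpt : ∀ p : Ω × Ω, min 1 ((b p.1 - b p.2) ^ 2) * ((∫ w in cone ρ, F w ^ 2) - 8 / k) ≤
      2 * (k * (2 * ρ + 1)) ^ 2 *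
        ∫ w, (F (tmat (b p.1) *ᵥ w) - F (tmat (b p.2) *ᵥ w)) ^ 2 := by
    intro p
    have h1 := shear_lemma hF.meas hF.int hρ (b p.1 - b p.2) hk
    have h2 : ∫ w, (F (tmat (b p.1) *ᵥ w) - F (tmat (b p.2) *ᵥ w)) ^ 2
        = ∫ w, (F (shr (b p.1 - b p.2) *ᵥ w) - F w) ^ 2 := by
      have hm : Measurable (fun w => (F (shr (b p.1 - b p.2) *ᵥ w) - F w) ^ 2) :=
        ((hF.meas.comp (measurable_mulVec' _)).sub hF.meas).pow_const 2
      rw [← integral_mulVec (det_tmat (b p.2)) hm]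
      congr 1
      funext w
      rw [tmat_mulVec_shr (b p.1) (b p.2) w]
    rw [h2]
    refine le_trans ?_ h1
    apply mul_le_mul_of_nonneg_left _ (by positivity)
    have : 2 / (k:ℝ) * ∫ w, F w ^ 2 ≤ 8 / k := by
      calc 2 / (k:ℝ) * ∫ w, F w ^ 2 ≤ 2 / (k:ℝ) * 4 := by gcongr
        _ = 8 / k := by ring
    linarith
  have hmin : Integrable (fun p : Ω × Ω => min 1 ((b p.1 - b p.2) ^ 2)) (P.prod P) := by
    apply Integrable.of_bound _ 1
    · refine Eventually.of_forall (fun p => ?_)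
      rw [Real.norm_eq_abs, abs_of_nonneg (by positivity)]
      exact min_le_left _ _
    · apply Measurable.aestronglyMeasurable
      exact measurable_const.min
        (((hb.comp measurable_fst).sub (hb.comp measurable_snd)).pow_const 2)
  have h3 := integral_mono (hmin.mul_const ((∫ w in cone ρ, F w ^ 2) - 8 / k))
    (hi.const_mul (2 * (k * (2 * ρ + 1)) ^ 2)) hpt
  rw [integral_mul_const, integral_const_mul, he] at h3
  linarith

end Step

section Indep

/-- Fubini for independent random variables. -/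
lemma integral_indep {α β : Type*} [MeasurableSpace α] [MeasurableSpace β] {X : Ω → α} {Y : Ω → β}
    (hX : Measurable X) (hY : Measurable Y) (hXY : IndepFun X Y P) {φ : α × β → ℝ}
    (hφ : Measurable φ) (hb : ∀ q, |φ q| ≤ 1) :
    ∫ ω, φ (X ω, Y ω) ∂P = ∫ ω, ∫ ω', φ (X ω, Y ω') ∂P ∂P := by
  have h1 := (indepFun_iff_map_prod_eq_prod_map_map hX.aemeasurable hY.aemeasurable).mp hXY
  have : IsProbabilityMeasure (P.map X) := Measure.isProbabilityMeasure_map hX.aemeasurable
  have : IsProbabilityMeasure (P.map Y) := Measure.isProbabilityMeasure_map hY.aemeasurable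
  have hint : Integrable φ ((P.map X).prod (P.map Y)) := by
    apply Integrable.of_bound hφ.aestronglyMeasurable 1
    exact Eventually.of_forall (fun q => hb q)
  calc ∫ ω, φ (X ω, Y ω) ∂P = ∫ q, φ q ∂(P.map (fun ω => (X ω, Y ω))) := by
        rw [integral_map (hX.prodMk hY).aemeasurable hφ.aestronglyMeasurable]
    _ = ∫ q, φ q ∂((P.map X).prod (P.map Y)) := by rw [h1]
    _ = ∫ x, ∫ y, φ (x, y) ∂(P.map Y) ∂(P.map X) := integral_prod _ hint
    _ = ∫ ω, ∫ y, φ (X ω, y) ∂(P.map Y) ∂P := by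
        rw [integral_map hX.aemeasurable]
        exact hint.integral_prod_left.aestronglyMeasurable
    _ = ∫ ω, ∫ ω', φ (X ω, Y ω') ∂P ∂P := by
        congr 1
        funext ω
        rw [integral_map hY.aemeasurable]
        exact (hφ.comp measurable_prodMk_left).aestronglyMeasurable

lemma tm_congr {K : Type*} [Field K] {b b' : ℕ → K} {i m : ℕ}
    (h : ∀ j, i ≤ j → j < i + m → b j = b' j) : tm b i m = tm b' i m := by
  induction m with
  | zero => rfl
  | succ m ih =>
    rw [tm_succ, tm_succ, ih (fun j h1 h2 => h j h1 (by omega)), h (i + m) (by omega) (by omega)]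

variable {b : ℕ → Ω → ℝ}

lemma isRM_tm (hb : ∀ j, Measurable (b j)) (i m : ℕ) : IsRM (fun ω => tm (fun j => b j ω) i m) :=
  ⟨fun c d => measurable_tm hb i m c d, fun ω => det_tm _ _ _⟩

/-- Extension by zero of a tuple. -/
def ext0 (S : Finset ℕ) (x : S → ℝ) (j : ℕ) : ℝ := if h : j ∈ S then x ⟨j, h⟩ else 0

lemma measurable_ext0 (S : Finset ℕ) (j : ℕ) : Measurable (fun x : S → ℝ => ext0 S x j) := by
  unfold ext0
  by_cases h : j ∈ S
  · simp only [h, dite_true]
    exact measurable_pi_apply _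
  · simp only [h, dite_false]
    exact measurable_const

lemma avgOp_tower (hb : ∀ j, Measurable (b j)) (hind : iIndepFun b P) {F : Pl → ℝ} (hF : Adm F)
    (i m m' : ℕ) :
    avgOp P (fun ω => tm (fun j => b j ω) i (m + m')) F
      = avgOp P (fun ω => tm (fun j => b j ω) i m)
          (avgOp P (fun ω => tm (fun j => b j ω) (i + m) m') F) := by
  funext w
  set S := Finset.Ico i (i + m) with hS
  set T := Finset.Ico (i + m) (i + m + m') with hT
  have hdisj : Disjoint S T := by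
    rw [Finset.disjoint_left]
    intro j h1 h2
    simp only [hS, hT, Finset.mem_Ico] at h1 h2
    omega
  have hI := hind.indepFun_finset S T hdisj hb
  set X : Ω → (S → ℝ) := fun ω j => b j ω with hX
  set Y : Ω → (T → ℝ) := fun ω j => b j ω with hY
  have hXm : Measurable X := measurable_pi_iff.mpr (fun j => hb j)
  have hYm : Measurable Y := measurable_pi_iff.mpr (fun j => hb j)
  have eX : ∀ ω, tm (fun j => b j ω) i m = tm (ext0 S (X ω)) i m := by
    intro ω
    apply tm_congr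
    intro j h1 h2
    have : j ∈ S := Finset.mem_Ico.mpr ⟨h1, h2⟩
    simp [ext0, this, hX]
  have eY : ∀ ω, tm (fun j => b j ω) (i + m) m' = tm (ext0 T (Y ω)) (i + m) m' := by
    intro ω
    apply tm_congr
    intro j h1 h2
    have : j ∈ T := Finset.mem_Ico.mpr ⟨h1, h2⟩
    simp [ext0, this, hY]
  have hRX : IsRM (fun x : S → ℝ => tm (ext0 S x) i m) :=
    ⟨fun c d => measurable_tm (b := fun x : S → ℝ => ext0 S x) (measurable_ext0 S) i m c d,
      fun ω => det_tm _ _ _⟩
  have hRY : IsRM (fun x : T → ℝ => tm (ext0 T x) (i + m) m') :=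
    ⟨fun c d => measurable_tm (b := fun x : T → ℝ => ext0 T x) (measurable_ext0 T) _ m' c d,
      fun ω => det_tm _ _ _⟩
  have hφ : Measurable (fun q : (S → ℝ) × (T → ℝ) =>
      F (tm (ext0 T q.2) (i + m) m' *ᵥ (tm (ext0 S q.1) i m *ᵥ w))) := by
    apply hF.meas.comp
    exact hRY.measurable_mulVec measurable_snd
      (hRX.measurable_mulVec measurable_fst measurable_const)
  have := integral_indep hXm hYm hI hφ (fun q => hF.abs_le _)
  unfold avgOp
  calc ∫ ω, F (tm (fun j => b j ω) i (m + m') *ᵥ w) ∂P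
      = ∫ ω, F (tm (ext0 T (Y ω)) (i + m) m' *ᵥ (tm (ext0 S (X ω)) i m *ᵥ w)) ∂P := by
        congr 1
        funext ω
        rw [tm_add, ← Matrix.mulVec_mulVec, ← eX, ← eY]
    _ = ∫ ω, ∫ ω', F (tm (ext0 T (Y ω')) (i + m) m' *ᵥ (tm (ext0 S (X ω)) i m *ᵥ w)) ∂P ∂P :=
        this
    _ = _ := by
        congr 1
        funext ω
        congr 1
        funext ω'
        rw [← eX, ← eY]

end Indep

end Pool.Agent.W_MP_b6e843_mp
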